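import Pool.Agent.BIR.Targets

set_option autoImplicit false

/-!
# BIR-AS1: the sphere of dimension zero.
-/

namespace Pool.Agent.BIR

open MeasureTheory FourierTransform Set Filter Topology
open scoped ENNReal NNReal ComplexConjugate
open Pool.Agent.MBS (E ex S)
open Pool.Agent.CAR (e1)
open Pool.Agent.CRN (sg SH Nice T_CARLS T_POLN T_HELN T_RAYN)

namespace AS1_

/-- the unit vector of the line -/
noncomputable def v : E 1 := EuclideanSpace.single 0 1

theorem norm_v : ‖v‖ = 1 := by
  unfold v
  simp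

theorem sphere_cases (w : E 1) (hw : ‖w‖ = 1) : w = v ∨ w = -v := by
  have h1 : ‖w‖ = |w 0| := by
    rw [EuclideanSpace.norm_eq, Fin.sum_univ_one, Real.sqrt_sq (norm_nonneg _),
      Real.norm_eq_abs]
  rw [h1] at hw
  rcases eq_or_eq_neg_of_abs_eq hw with h | h
  · left
    ext i
    rw [Subsingleton.elim i 0, h]
    unfold v
    simp
  · right
    ext i
    rw [Subsingleton.elim i 0, h]
    unfold v
    simp

theorem ex_v (u : ℝ) : ex (u • v) v = e1 u := by
  unfold ex e1
  have h : inner ℝ (u • v) v = u := by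
    rw [real_inner_smul_left, real_inner_self_eq_norm_sq, norm_v]
    ring
  rw [h]

theorem ex_neg_v (u : ℝ) : ex (u • v) (-v) = e1 (-u) := by
  unfold ex e1
  have h : inner ℝ (u • v) (-v) = -u := by
    rw [inner_neg_right, real_inner_smul_left, real_inner_self_eq_norm_sq, norm_v]
    ring
  rw [h]

theorem int_eq [IsFiniteMeasure (sg 1)] : ∃ c1 c2 : ℂ, ∀ u : ℝ,
    AA 1 (u • v) = c1 * e1 u + c2 * e1 (-u) := by
  classical
  set p : Metric.sphere (0 : E 1) 1 := ⟨v, by simp [norm_v]⟩ with hp
  refine ⟨(((sg 1).real {p} : ℝ) : ℂ), (((sg 1).real {p}ᶜ : ℝ) : ℂ), fun u => ?_⟩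
  have h0 : ∀ w : Metric.sphere (0 : E 1) 1, ex (u • v) (w : E 1) =
      ({p} : Set (Metric.sphere (0 : E 1) 1)).indicator (fun _ => e1 u) w +
        ({p}ᶜ : Set (Metric.sphere (0 : E 1) 1)).indicator (fun _ => e1 (-u)) w := by
    intro w
    by_cases hw : w = p
    · rw [Set.indicator_of_mem (by simp [hw]), Set.indicator_of_notMem (by simp [hw]), add_zero, hw]
      exact ex_v u
    · rw [Set.indicator_of_notMem (by simp [hw]), Set.indicator_of_mem (by simp [hw]), zero_add]
      have hn : ‖(w : E 1)‖ = 1 := by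
        have := w.2
        simpa using this
      rcases sphere_cases w hn with h | h
      · exact absurd (Subtype.ext h) hw
      · rw [h]
        exact ex_neg_v u
  have hm : MeasurableSet ({p} : Set (Metric.sphere (0 : E 1) 1)) := measurableSet_singleton p
  unfold AA
  rw [integral_congr_ae (Filter.Eventually.of_forall h0),
    integral_add ((integrable_const _).indicator hm) ((integrable_const _).indicator hm.compl),
    integral_indicator_const _ hm, integral_indicator_const _ hm.compl]
  simp only [Complex.real_smul]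

end AS1_

theorem p_AS1 (h1 : T_RAD) (h2 : T_POLN) : T_AS1 := by
  obtain ⟨A, hA, -, hAr⟩ := h1 1 le_rfl
  haveI := (h2 1 one_pos).2.2
  obtain ⟨c1, c2, hc⟩ := AS1_.int_eq
  refine ⟨A, fun _ => 0, c1, c2, 0, hA, continuous_const, hAr, fun u hu => ⟨?_, by simp⟩⟩
  have h3 : A u = AA 1 (u • AS1_.v) := by
    rw [hAr, norm_smul, AS1_.norm_v, mul_one, Real.norm_of_nonneg hu.le]
  unfold kk
  rw [h3, hc u]
  simp

end Pool.Agent.BIR
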