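import Pool.Agent.BIR.Targets

set_option autoImplicit false

/-! BIR-AS2: the asymptotics of the Fourier transform of the sphere, `d ≥ 2`. -/

namespace Pool.Agent.BIR

open MeasureTheory FourierTransform Set Filter Topology
open scoped ENNReal NNReal ComplexConjugate
open Pool.Agent.MBS (E ex S)
open Pool.Agent.CAR (e1)
open Pool.Agent.CRN (sg SH Nice T_CARLS T_POLN T_HELN T_RAYN)

namespace AS2_

lemma cont_e1 : Continuous e1 := by
  unfold e1
  fun_prop

lemma norm_rt {n : ℕ} (i j : Fin n) (hij : i ≠ j) (φ : ℝ) (y : E n) :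
    ‖CRN.rt i j φ y‖ = ‖y‖ := by
  rw [EuclideanSpace.norm_eq, EuclideanSpace.norm_eq]
  congr 1
  have h : ∀ z : Fin n → ℝ, ∑ k, ‖z k‖ ^ 2 =
      z i ^ 2 + (z j ^ 2 + ∑ k ∈ (Finset.univ.erase i).erase j, z k ^ 2) := by
    intro z
    rw [← Finset.add_sum_erase Finset.univ (fun k => ‖z k‖ ^ 2) (Finset.mem_univ i),
      ← Finset.add_sum_erase (Finset.univ.erase i) (fun k => ‖z k‖ ^ 2)
        (Finset.mem_erase.2 ⟨hij.symm, Finset.mem_univ j⟩)]
    simp only [Real.norm_eq_abs, sq_abs]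
  rw [h, h]
  have e1 : (CRN.rt i j φ y) i = Real.cos φ * y i - Real.sin φ * y j := by
    unfold CRN.rt
    simp
  have e2 : (CRN.rt i j φ y) j = Real.sin φ * y i + Real.cos φ * y j := by
    unfold CRN.rt
    simp [hij.symm]
  have e3 : ∑ k ∈ (Finset.univ.erase i).erase j, (CRN.rt i j φ y) k ^ 2 =
      ∑ k ∈ (Finset.univ.erase i).erase j, y k ^ 2 := by
    refine Finset.sum_congr rfl fun k hk => ?_
    rw [Finset.mem_erase, Finset.mem_erase] at hk
    unfold CRN.rt
    simp [hk.1, hk.2.1]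
  rw [e1, e2, e3]
  have := Real.sin_sq_add_cos_sq φ
  linear_combination (y i ^ 2 + y j ^ 2) * this

lemma SH_one {d : ℕ} (x : E d) : SH (fun _ => 1) 1 x = AA d x := by
  unfold SH AA
  simp

lemma Lam_zero {d : ℕ} (u : E d → ℂ) (A : ℝ → ℂ) (h : ∀ x, u x = A ‖x‖) (x : E d) :
    CRN.Lam u x = 0 := by
  unfold CRN.Lam
  refine Finset.sum_eq_zero fun i _ => Finset.sum_eq_zero fun j _ => ?_
  split_ifs with hij
  · unfold CRN.L2
    have : (fun φ : ℝ => u (CRN.rt i j φ x)) = fun _ => A ‖x‖ := by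
      funext φ
      rw [h, norm_rt i j hij.ne]
    rw [this]
    simp
  · rfl

end AS2_

open AS2_ in
theorem p_AS2 (h1 : T_RAD) (h2 : T_HELN) (h3 : T_ODE) : T_AS2 := by
  intro d hd
  obtain ⟨A, hA, hev, hAA⟩ := h1 d (by omega)
  have hd' : (2 : ℝ) ≤ d := by exact_mod_cast hd
  have : NeZero d := ⟨by omega⟩
  set θ : E d := EuclideanSpace.single (0 : Fin d) 1 with hθ
  have hθ1 : ‖θ‖ = 1 := by
    rw [hθ, EuclideanSpace.norm_single]
    simp
  have hSH : ∀ x : E d, SH (fun _ => 1) 1 x = A ‖x‖ := fun x => by rw [SH_one, hAA]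
  have hSs : ∀ s : ℝ, SH (fun _ : E d => 1) 1 (s • θ) = A s := by
    intro s
    rw [hSH, norm_smul, hθ1, mul_one, Real.norm_eq_abs]
    rcases le_total 0 s with h | h
    · rw [abs_of_nonneg h]
    · rw [abs_of_nonpos h, hev]
  have hw : (fun s : ℝ => ((s ^ (((d : ℝ) - 1) / 2) : ℝ) : ℂ) *
      SH (fun _ : E d => 1) 1 (s • θ)) = kk d A := by
    funext s
    unfold kk
    rw [hSs]
  obtain ⟨h2a, -⟩ := h2 d (fun _ => 1) hd continuous_const
  obtain ⟨c1, c2, C, hC⟩ := h3 (((d : ℝ) - 1) * (d - 3) / 4) (kk d A)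
    (fun s => CRN.WD (fun _ => 1) 1 θ s) (by
    intro u hu
    have hu0 : 0 < u := by linarith
    obtain ⟨ga, gb⟩ := h2a 1 θ u one_pos hθ1 hu0
    rw [hw] at ga
    refine ⟨ga, ?_⟩
    rw [Lam_zero _ A hSH, hSs] at gb
    convert gb using 1
    unfold kk
    have e : u ^ (((d : ℝ) - 1) / 2 - 2) = u ^ (((d : ℝ) - 1) / 2) / u ^ 2 := by
      rw [Real.rpow_sub hu0]
      norm_num
    rw [e]
    push_cast
    ring)
  set b : ℝ → ℂ := fun u => kk d A u - (c1 * e1 u + c2 * e1 (-u)) with hb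
  have hkk : Continuous (kk d A) := by
    unfold kk
    refine Continuous.mul ?_ hA
    exact Complex.continuous_ofReal.comp (Real.continuous_rpow_const (by linarith))
  have hbc : Continuous b := by
    have := cont_e1
    simp only [hb]
    fun_prop
  obtain ⟨B, hB⟩ := (isCompact_Icc (a := (0 : ℝ)) (b := 1)).exists_bound_of_continuousOn
    hbc.continuousOn
  refine ⟨A, b, c1, c2, 2 * |C| + 2 * |B|, hA, hbc, hAA, ?_⟩
  intro u hu
  refine ⟨by simp only [hb]; ring, ?_⟩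
  rw [le_div_iff₀ (by linarith)]
  rcases le_total u 1 with h | h
  · have g1 := hB u ⟨hu.le, h⟩
    have g2 := le_abs_self B
    have g3 := norm_nonneg (b u)
    have g4 := abs_nonneg C
    nlinarith
  · have g1 : ‖b u‖ ≤ C / u := hC u h
    rw [le_div_iff₀ hu] at g1
    have g2 := le_abs_self C
    have g3 := norm_nonneg (b u)
    have g4 := abs_nonneg B
    nlinarith

end Pool.Agent.BIR
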