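import Pool.Agent.BIR.Targets2

set_option autoImplicit false

/-!
# BIR, target BF1 (helper66): axially symmetric functions, the splitting
-/

namespace Pool.Agent.BIR

open MeasureTheory FourierTransform Set Filter Topology
open scoped ENNReal NNReal ComplexConjugate
open Pool.Agent.MBS (E ex S)
open Pool.Agent.CYL (Spl)

namespace BF1_

theorem norm_E1 (x : E 1) : ‖x‖ = |x 0| := by
  rw [EuclideanSpace.norm_eq]
  simp [Real.sqrt_sq_eq_abs]

/-- the axis -/
noncomputable def ax {n : ℕ} (v : E n) (hv : ‖v‖ = 1) : E 1 →ₗᵢ[ℝ] E n where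
  toFun := fun τ => τ 0 • v
  map_add' := fun τ τ' => by
    rw [PiLp.add_apply, add_smul]
  map_smul' := fun c τ => by
    rw [PiLp.smul_apply, smul_eq_mul, mul_smul]
    rfl
  norm_map' := fun τ => by
    change ‖τ 0 • v‖ = ‖τ‖
    rw [norm_smul, hv, mul_one, Real.norm_eq_abs, norm_E1]

theorem ax_apply {n : ℕ} (v : E n) (hv : ‖v‖ = 1) (τ : E 1) : ax v hv τ = τ 0 • v := rfl

/-- the complement of the axis -/
noncomputable def cx {n m : ℕ} (v : E n) (h : Module.finrank ℝ (Submodule.span ℝ {v})ᗮ = m) :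
    E m →ₗᵢ[ℝ] E n :=
  (Submodule.span ℝ {v})ᗮ.subtypeₗᵢ.comp
    ((stdOrthonormalBasis ℝ (Submodule.span ℝ {v})ᗮ).reindex
      (finCongr h)).repr.symm.toLinearIsometry

theorem cx_mem {n m : ℕ} (v : E n) (h : Module.finrank ℝ (Submodule.span ℝ {v})ᗮ = m)
    (y : E m) : inner ℝ v (cx v h y) = 0 := by
  have h1 : cx v h y ∈ (Submodule.span ℝ {v})ᗮ := by
    unfold cx
    simp
  exact Submodule.mem_orthogonal_singleton_iff_inner_right.1 h1

theorem cx_surj {n m : ℕ} (v : E n) (h : Module.finrank ℝ (Submodule.span ℝ {v})ᗮ = m)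
    (x : E n) (hx : inner ℝ v x = 0) : ∃ y, cx v h y = x := by
  have hx' : x ∈ (Submodule.span ℝ {v})ᗮ :=
    Submodule.mem_orthogonal_singleton_iff_inner_right.2 hx
  refine ⟨((stdOrthonormalBasis ℝ (Submodule.span ℝ {v})ᗮ).reindex
      (finCongr h)).repr ⟨x, hx'⟩, ?_⟩
  unfold cx
  simp

theorem spl {n m : ℕ} (v : E n) (hv : ‖v‖ = 1)
    (h : Module.finrank ℝ (Submodule.span ℝ {v})ᗮ = m) : Spl (ax v hv) (cx v h) := by
  refine ⟨fun t y => ?_, fun x => ?_⟩
  · rw [ax_apply, real_inner_smul_left, cx_mem, mul_zero]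
  · have h1 : inner ℝ v (x - (inner ℝ v x : ℝ) • v) = 0 := by
      rw [inner_sub_right, real_inner_smul_right, real_inner_self_eq_norm_sq, hv]
      ring
    obtain ⟨y, hy⟩ := cx_surj v h _ h1
    refine ⟨WithLp.toLp 2 (fun _ => (inner ℝ v x : ℝ)), y, ?_⟩
    rw [hy, ax_apply]
    simp

end BF1_

open BF1_ in
theorem p_BF1 (h1 : T_BI1) : T_BF1 := by
  intro hA n hn
  obtain ⟨m, rfl⟩ : ∃ m, n = m + 1 := ⟨n - 1, by omega⟩
  obtain ⟨C, hC⟩ := h1 m (by omega) (hA m (by omega))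
  refine ⟨C, fun v g hv hg hg2 hsym => ?_⟩
  have hv0 : v ≠ 0 := by
    rintro rfl
    rw [norm_zero] at hv
    exact zero_ne_one hv
  have : Fact (Module.finrank ℝ (E (m + 1)) = m + 1) := ⟨finrank_euclideanSpace_fin⟩
  have hd : Module.finrank ℝ (Submodule.span ℝ {v})ᗮ = m :=
    Submodule.finrank_orthogonal_span_singleton hv0
  refine hC (m + 1) (ax v hv) (cx v hd) g (spl v hv hd) hg hg2 ?_
  intro τ η η' hη
  have hin : ∀ y : E m, inner ℝ v (ax v hv τ + cx v hd y) = τ 0 := by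
    intro y
    rw [inner_add_right, cx_mem, ax_apply, real_inner_smul_right, real_inner_self_eq_norm_sq, hv]
    ring
  refine hsym _ _ ((hin η).trans (hin η').symm) ?_
  have hno : ∀ y : E m, ‖ax v hv τ + cx v hd y‖ * ‖ax v hv τ + cx v hd y‖ =
      ‖τ‖ * ‖τ‖ + ‖y‖ * ‖y‖ := by
    intro y
    have h2 := norm_add_sq_eq_norm_sq_add_norm_sq_of_inner_eq_zero (ax v hv τ) (cx v hd y)
      ((spl v hv hd).orth τ y)
    rwa [LinearIsometry.norm_map, LinearIsometry.norm_map] at h2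
  have h3 := hno η
  rw [hη, ← hno η'] at h3
  exact (mul_self_inj (norm_nonneg _) (norm_nonneg _)).1 h3

end Pool.Agent.BIR
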