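import Pool.Agent.BIR.Targets2
import Pool.Agent.VRR.P_LIN

set_option autoImplicit false

/-!
# BIR, BI1: axially symmetric functions, assembly
-/

namespace Pool.Agent.BIR

open MeasureTheory FourierTransform Set Filter Topology
open scoped ENNReal NNReal ComplexConjugate
open Pool.Agent.MBS (E ex S)
open Pool.Agent.CAR (e1)
open Pool.Agent.CRN (sg SH Nice T_CARLS T_POLN)
open Pool.Agent.CYL (Spl T_SPL T_GEO)
open Pool.Agent.CRW (L3)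
open Pool.Agent.VRR (BN)

namespace BI1_

/-- the supremum in NI1 -/
noncomputable def Psi (k2 : ℝ → ℂ) (H : ℝ → ℝ → ℂ) (ε : ℝ) (z : ℝ × ℝ) : ℝ≥0∞ :=
  ⨆ (R : ℝ) (_ : 0 < R), ‖JJ (fun u => e1 (ε * u)) k2 H R z.1 z.2‖ₑ /
    ENNReal.ofReal (L3 (R * Real.sqrt (z.1 ^ 2 + z.2 ^ 2)) ^ 6)

theorem one_le_log3 : 1 ≤ Real.log 3 := by
  rw [Real.le_log_iff_exp_le (by norm_num)]
  exact (Real.exp_one_lt_d9.le).trans (by norm_num)

theorem log3_le {t : ℝ} (ht : 0 ≤ t) : 1 ≤ Real.log (3 + t) :=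
  one_le_log3.trans (Real.log_le_log (by norm_num) (by linarith))

theorem L3_pos {t : ℝ} (ht : 0 ≤ t) : 0 < L3 t := by
  unfold L3
  linarith [log3_le (t := Real.log (3 + t)) (by linarith [log3_le ht])]

theorem L3_cont {X : Type*} [TopologicalSpace X] {f : X → ℝ} (hf : Continuous f)
    (h0 : ∀ x, 0 ≤ f x) : Continuous fun x => L3 (f x) := by
  unfold L3
  have h1 : Continuous fun x => Real.log (3 + f x) :=
    (continuous_const.add hf).log fun x => by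
      have h2 := h0 x
      have h3 : 0 < 3 + f x := by linarith
      exact h3.ne'
  refine (continuous_const.add h1).log fun x => ?_
  have h2 := log3_le (h0 x)
  have h3 : 0 < 3 + Real.log (3 + f x) := by linarith
  exact h3.ne'

theorem q_cont {X : Type*} [TopologicalSpace X] {f : X → ℂ} {c : X → ℝ} (hf : Continuous f)
    (hc : Continuous c) (h0 : ∀ x, 0 < c x) :
    Continuous fun x => ‖f x‖ₑ / ENNReal.ofReal (c x) := by
  have e : (fun x => ‖f x‖ₑ / ENNReal.ofReal (c x)) = fun x => ENNReal.ofReal (‖f x‖ / c x) := by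
    funext x
    rw [ENNReal.ofReal_div_of_pos (h0 x), ofReal_norm]
  rw [e]
  exact ENNReal.continuous_ofReal.comp (hf.norm.div hc fun x => (h0 x).ne')

theorem QD_meas (R : ℝ) : MeasurableSet (QD R) := by
  unfold QD
  exact (measurableSet_lt measurable_const measurable_fst).inter
    ((measurableSet_lt measurable_const measurable_snd).inter
      (measurableSet_le ((measurable_fst.pow_const 2).add (measurable_snd.pow_const 2))
        measurable_const))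

theorem QD_le {R : ℝ} {z : ℝ × ℝ} (hz : z ∈ QD R) : |z.1| ≤ |R| ∧ |z.2| ≤ |R| := by
  obtain ⟨h1, h2, h3⟩ := hz
  constructor
  · apply sq_le_sq.1
    nlinarith
  · apply sq_le_sq.1
    nlinarith

theorem QD_fin (R : ℝ) : volume (QD R) ≠ ⊤ := by
  have h1 : QD R ⊆ Icc (-|R|) |R| ×ˢ Icc (-|R|) |R| := fun z hz =>
    ⟨abs_le.1 (QD_le hz).1, abs_le.1 (QD_le hz).2⟩
  have h2 : IsCompact (Icc (-|R|) |R| ×ˢ Icc (-|R|) |R| : Set (ℝ × ℝ)) :=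
    isCompact_Icc.prod isCompact_Icc
  exact (measure_mono h1).trans_lt h2.measure_lt_top |>.ne

theorem H_int {H : ℝ → ℝ → ℂ} (hH : Measurable (fun z : ℝ × ℝ => H z.1 z.2))
    (h2 : ∫⁻ z in Q, ‖H z.1 z.2‖ₑ ^ 2 ≠ ⊤) (R : ℝ) :
    Integrable (fun z : ℝ × ℝ => H z.1 z.2) (volume.restrict (QD R)) := by
  have : IsFiniteMeasure ((volume : Measure (ℝ × ℝ)).restrict (QD R)) :=
    ⟨by
      rw [Measure.restrict_apply_univ]
      exact (QD_fin R).lt_top⟩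
  have h3 : ∫⁻ z in QD R, ‖H z.1 z.2‖ₑ ^ 2 ≠ ⊤ := by
    refine ne_top_of_le_ne_top h2 (lintegral_mono_set fun z hz => ⟨hz.1, hz.2.1⟩)
  have h4 : MemLp (fun z : ℝ × ℝ => H z.1 z.2) 2 (volume.restrict (QD R)) := by
    refine ⟨hH.aestronglyMeasurable, ?_⟩
    rw [eLpNorm_lt_top_iff_lintegral_rpow_enorm_lt_top two_ne_zero ENNReal.ofNat_ne_top]
    simpa using h3.lt_top
  exact h4.integrable (by norm_num)

theorem JJ_cont {H : ℝ → ℝ → ℂ} (hH : Measurable (fun z : ℝ × ℝ => H z.1 z.2))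
    (h2 : ∫⁻ z in Q, ‖H z.1 z.2‖ₑ ^ 2 ≠ ⊤) {k1 k2 : ℝ → ℂ} (hk1 : Continuous k1)
    (hk2 : Continuous k2) (R : ℝ) :
    Continuous fun z : ℝ × ℝ => JJ k1 k2 H R z.1 z.2 := by
  rw [continuous_iff_continuousAt]
  intro z₀
  obtain ⟨ρ, hρ⟩ : ∃ ρ : ℝ, ρ = |R| * (|z₀.1| + |z₀.2| + 1) := ⟨_, rfl⟩
  obtain ⟨C1, hC1⟩ := (isCompact_Icc (a := -ρ) (b := ρ)).exists_bound_of_continuousOn
    hk1.continuousOn
  obtain ⟨C2, hC2⟩ := (isCompact_Icc (a := -ρ) (b := ρ)).exists_bound_of_continuousOn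
    hk2.continuousOn
  have hnb : ∀ᶠ z : ℝ × ℝ in 𝓝 z₀, |z.1| ≤ |z₀.1| + |z₀.2| + 1 ∧ |z.2| ≤ |z₀.1| + |z₀.2| + 1 := by
    have e1 : ∀ᶠ z : ℝ × ℝ in 𝓝 z₀, |z.1| < |z₀.1| + |z₀.2| + 1 :=
      (continuous_fst.abs.continuousAt).eventually_lt_const (by
        have := abs_nonneg z₀.2
        show |z₀.1| < _
        linarith)
    have e2 : ∀ᶠ z : ℝ × ℝ in 𝓝 z₀, |z.2| < |z₀.1| + |z₀.2| + 1 :=
      (continuous_snd.abs.continuousAt).eventually_lt_const (by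
        have := abs_nonneg z₀.1
        show |z₀.2| < _
        linarith)
    filter_upwards [e1, e2] with z h1 h2 using ⟨h1.le, h2.le⟩
  have hb : ∀ (x y : ℝ), |x| ≤ |R| → |y| ≤ |z₀.1| + |z₀.2| + 1 → x * y ∈ Icc (-ρ) ρ := by
    intro x y hx hy
    refine abs_le.1 ?_
    rw [abs_mul, hρ]
    exact mul_le_mul hx hy (abs_nonneg _) (abs_nonneg _)
  unfold JJ
  refine continuousAt_of_dominated (bound := fun w : ℝ × ℝ => ‖H w.1 w.2‖ * |C1| * |C2|)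
    (Eventually.of_forall fun z => ?_) ?_ (((H_int hH h2 R).norm.mul_const _).mul_const _)
    (ae_of_all _ fun w => ?_)
  · exact ((hH.mul (hk1.measurable.comp (measurable_fst.mul_const _))).mul
      (hk2.measurable.comp (measurable_snd.mul_const _))).aestronglyMeasurable
  · filter_upwards [hnb] with z hz
    filter_upwards [ae_restrict_mem (QD_meas R)] with w hw
    obtain ⟨h5, h6⟩ := QD_le hw
    rw [norm_mul, norm_mul]
    have h7 : ‖k1 (w.1 * z.1)‖ ≤ |C1| := (hC1 _ (hb _ _ h5 hz.1)).trans (le_abs_self _)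
    have h8 : ‖k2 (w.2 * z.2)‖ ≤ |C2| := (hC2 _ (hb _ _ h6 hz.2)).trans (le_abs_self _)
    gcongr
  · exact ((continuous_const.mul (hk1.comp (continuous_const.mul continuous_fst))).mul
      (hk2.comp (continuous_const.mul continuous_snd))).continuousAt

theorem e1_cont (ε : ℝ) : Continuous fun u : ℝ => e1 (ε * u) := by
  unfold e1
  fun_prop

theorem kk_cont {m : ℕ} (hm : 1 ≤ m) {A : ℝ → ℂ} (hA : Continuous A) : Continuous (kk m A) := by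
  unfold kk
  have h1 : (1 : ℝ) ≤ m := by exact_mod_cast hm
  exact (Complex.continuous_ofReal.comp (Real.continuous_rpow_const (by linarith))).mul hA

theorem Psi_meas {H : ℝ → ℝ → ℂ} (hH : Measurable (fun z : ℝ × ℝ => H z.1 z.2))
    (h2 : ∫⁻ z in Q, ‖H z.1 z.2‖ₑ ^ 2 ≠ ⊤) {k2 : ℝ → ℂ} (hk2 : Continuous k2) (ε : ℝ) :
    Measurable (Psi k2 H ε) := by
  refine LowerSemicontinuous.measurable ?_
  refine lowerSemicontinuous_iSup fun R => lowerSemicontinuous_iSup fun hR => ?_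
  refine (q_cont (JJ_cont hH h2 (e1_cont ε) hk2 R) ?_ fun z => ?_).lowerSemicontinuous
  · exact (L3_cont (continuous_const.mul (Real.continuous_sqrt.comp
      ((continuous_fst.pow 2).add (continuous_snd.pow 2))))
      fun z => mul_nonneg hR.le (Real.sqrt_nonneg _)).pow 6
  · exact pow_pos (L3_pos (mul_nonneg hR.le (Real.sqrt_nonneg _))) 6

theorem Phi_meas {n : ℕ} {g : E n → ℂ} (hg : Measurable g) (h2 : ∫⁻ ξ, ‖g ξ‖ₑ ^ 2 ≠ ⊤) :
    Measurable fun x : E n =>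
      (⨆ (R : ℝ) (_ : 0 < R), ‖BN g R x‖ₑ / ENNReal.ofReal (L3 (R * ‖x‖) ^ 6)) := by
  refine LowerSemicontinuous.measurable ?_
  refine lowerSemicontinuous_iSup fun R => lowerSemicontinuous_iSup fun hR => ?_
  refine (q_cont (Pool.Agent.VRR.LIN_.BN_cont (Pool.Agent.VRR.LIN_.int_ball hg h2 R)) ?_
    fun z => ?_).lowerSemicontinuous
  · exact (L3_cont (continuous_const.mul continuous_norm)
      fun z => mul_nonneg hR.le (norm_nonneg _)).pow 6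
  · exact pow_pos (L3_pos (mul_nonneg hR.le (norm_nonneg _))) 6

theorem sq2 (x y : ℝ≥0∞) : (x + y) ^ 2 ≤ 2 * (x ^ 2 + y ^ 2) := by
  have h := ENNReal.rpow_add_le_mul_rpow_add_rpow x y (p := 2) (by norm_num)
  have e : (2 : ℝ) - 1 = 1 := by norm_num
  rw [e, ENNReal.rpow_one, ENNReal.rpow_two, ENNReal.rpow_two, ENNReal.rpow_two] at h
  exact h

/-- the majorant -/
noncomputable def W (k2 : ℝ → ℂ) (H1 H2 : ℝ → ℝ → ℂ) (z : ℝ × ℝ) : ℝ≥0∞ :=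
  2 * ((Psi k2 H1 1 z ^ 2 + Psi k2 H1 (-1) z ^ 2) + (Psi k2 H2 1 z ^ 2 + Psi k2 H2 (-1) z ^ 2))

theorem sg_ne (h4 : T_POLN) {m : ℕ} (hm : 1 ≤ m) : sg m univ ≠ 0 := by
  intro h
  have h1 := (h4 m hm).1 (fun _ => 1) measurable_const
  have h5 : ∀ r : ℝ, ∫⁻ _ : Metric.sphere (0 : E m) 1, ENNReal.ofReal (r ^ (m - 1)) * 1 ∂(sg m) =
      0 := by
    intro r
    rw [lintegral_const, h, mul_zero]
  simp only [h5, lintegral_zero, lintegral_const, one_mul] at h1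
  exact (NeZero.ne (volume (univ : Set (E m)))) h1

/-- the pointwise bound -/
theorem point {n m : ℕ} {a : E 1 →ₗᵢ[ℝ] E n} {b : E m →ₗᵢ[ℝ] E n} {g : E n → ℂ}
    {k2 : ℝ → ℂ} {H1 H2 : ℝ → ℝ → ℂ} (hm : 1 ≤ m)
    (hn : ∀ (t : E 1) (y : E m), ‖a t + b y‖ ^ 2 = ‖t‖ ^ 2 + ‖y‖ ^ 2)
    (hk : ∀ (R r δ : ℝ) (t : E 1) (y : E m), 0 < R → 0 < r → (δ = 1 ∨ δ = -1) →
      t 0 = δ * r → y ≠ 0 →
      ((‖y‖ ^ (((m : ℝ) - 1) / 2) : ℝ) : ℂ) * BN g R (a t + b y) =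
        JJ (fun u => e1 (δ * u)) k2 H1 R r ‖y‖ + JJ (fun u => e1 (-δ * u)) k2 H2 R r ‖y‖)
    (t : E 1) (y : E m) (ht : t ≠ 0) (hy : y ≠ 0) :
    ENNReal.ofReal (‖y‖ ^ (m - 1)) * (⨆ (R : ℝ) (_ : 0 < R), ‖BN g R (a t + b y)‖ₑ /
      ENNReal.ofReal (L3 (R * ‖a t + b y‖) ^ 6)) ^ 2 ≤ W k2 H1 H2 (‖t‖, ‖y‖) := by
  have hr : 0 < ‖t‖ := norm_pos_iff.2 ht
  have hs : 0 < ‖y‖ := norm_pos_iff.2 hy
  have hnt : ‖t‖ = |t 0| := by
    rw [EuclideanSpace.norm_eq]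
    simp [Real.sqrt_sq_eq_abs]
  obtain ⟨δ, hδ, ht0⟩ : ∃ δ : ℝ, (δ = 1 ∨ δ = -1) ∧ t 0 = δ * ‖t‖ := by
    rcases le_total 0 (t 0) with h | h
    · exact ⟨1, Or.inl rfl, by rw [hnt, abs_of_nonneg h, one_mul]⟩
    · exact ⟨-1, Or.inr rfl, by rw [hnt, abs_of_nonpos h]; ring⟩
  have hx : ‖a t + b y‖ = Real.sqrt (‖t‖ ^ 2 + ‖y‖ ^ 2) := by
    rw [← hn, Real.sqrt_sq (norm_nonneg _)]
  obtain ⟨κ, hκ⟩ : ∃ κ : ℝ, κ = ‖y‖ ^ (((m : ℝ) - 1) / 2) := ⟨_, rfl⟩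
  have hκ0 : 0 ≤ κ := by rw [hκ]; positivity
  have hκ2 : κ ^ 2 = ‖y‖ ^ (m - 1) := by
    rw [hκ, ← Real.rpow_natCast, ← Real.rpow_mul hs.le, ← Real.rpow_natCast, Nat.cast_sub hm]
    congr 1
    push_cast
    ring
  have h1 : ENNReal.ofReal κ * (⨆ (R : ℝ) (_ : 0 < R), ‖BN g R (a t + b y)‖ₑ /
      ENNReal.ofReal (L3 (R * ‖a t + b y‖) ^ 6)) ≤
      Psi k2 H1 δ (‖t‖, ‖y‖) + Psi k2 H2 (-δ) (‖t‖, ‖y‖) := by
    simp only [ENNReal.mul_iSup]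
    refine iSup_le fun R => iSup_le fun hR => ?_
    have h5 := hk R ‖t‖ δ t y hR hr hδ ht0 hy
    rw [← hκ] at h5
    have h6 : ENNReal.ofReal κ * ‖BN g R (a t + b y)‖ₑ =
        ‖JJ (fun u => e1 (δ * u)) k2 H1 R ‖t‖ ‖y‖ +
          JJ (fun u => e1 (-δ * u)) k2 H2 R ‖t‖ ‖y‖‖ₑ := by
      rw [← h5, enorm_mul]
      congr 1
      rw [← ofReal_norm, Complex.norm_real, Real.norm_of_nonneg hκ0]
    rw [hx, ← mul_div_assoc, h6]
    calc ‖JJ (fun u => e1 (δ * u)) k2 H1 R ‖t‖ ‖y‖ +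
          JJ (fun u => e1 (-δ * u)) k2 H2 R ‖t‖ ‖y‖‖ₑ /
          ENNReal.ofReal (L3 (R * Real.sqrt (‖t‖ ^ 2 + ‖y‖ ^ 2)) ^ 6)
        ≤ (‖JJ (fun u => e1 (δ * u)) k2 H1 R ‖t‖ ‖y‖‖ₑ +
          ‖JJ (fun u => e1 (-δ * u)) k2 H2 R ‖t‖ ‖y‖‖ₑ) /
          ENNReal.ofReal (L3 (R * Real.sqrt (‖t‖ ^ 2 + ‖y‖ ^ 2)) ^ 6) := by
          gcongr
          exact enorm_add_le _ _
      _ = ‖JJ (fun u => e1 (δ * u)) k2 H1 R ‖t‖ ‖y‖‖ₑ /
          ENNReal.ofReal (L3 (R * Real.sqrt (‖t‖ ^ 2 + ‖y‖ ^ 2)) ^ 6) +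
          ‖JJ (fun u => e1 (-δ * u)) k2 H2 R ‖t‖ ‖y‖‖ₑ /
          ENNReal.ofReal (L3 (R * Real.sqrt (‖t‖ ^ 2 + ‖y‖ ^ 2)) ^ 6) := ENNReal.add_div
      _ ≤ _ := by
          refine add_le_add ?_ ?_
          · exact le_iSup₂_of_le (f := fun (R : ℝ) (_ : 0 < R) =>
              ‖JJ (fun u => e1 (δ * u)) k2 H1 R ‖t‖ ‖y‖‖ₑ /
              ENNReal.ofReal (L3 (R * Real.sqrt (‖t‖ ^ 2 + ‖y‖ ^ 2)) ^ 6)) R hR le_rfl
          · exact le_iSup₂_of_le (f := fun (R : ℝ) (_ : 0 < R) =>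
              ‖JJ (fun u => e1 (-δ * u)) k2 H2 R ‖t‖ ‖y‖‖ₑ /
              ENNReal.ofReal (L3 (R * Real.sqrt (‖t‖ ^ 2 + ‖y‖ ^ 2)) ^ 6)) R hR le_rfl
  rw [← hκ2, ENNReal.ofReal_pow hκ0, ← mul_pow]
  refine (ENNReal.pow_le_pow_left h1).trans ((sq2 _ _).trans ?_)
  unfold W
  rcases hδ with rfl | rfl
  · gcongr
    · exact le_self_add
    · exact le_add_self
  · rw [neg_neg]
    gcongr
    · exact le_add_self
    · exact le_self_add

end BI1_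

open BI1_ in
/-- **BI1** -/
theorem p_BI1 (h1 : T_NI1) (h2 : T_KE1) (h3 : T_SPL) (h4 : T_POLN) : T_BI1 := by
  intro m hm hAsy
  obtain ⟨A2, C0, hA2, hAA, hN⟩ := h1 m hm hAsy
  have hf1 : IsFiniteMeasure (sg 1) := (h4 1 one_pos).2.2
  have hfm : IsFiniteMeasure (sg m) := (h4 m hm).2.2
  refine ⟨4 * C0 * (sg 1 univ).toNNReal, fun n a b g hs hg hg2 hsym => ?_⟩
  obtain ⟨H1, H2, hH1, hH2, hint, hk⟩ := h2 n m a b g A2 hm hs hg hg2 hsym hA2 hAA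
  have hsg := sg_ne h4 hm
  have hfin : ∫⁻ z in Q, ‖H1 z.1 z.2‖ₑ ^ 2 ≠ ⊤ ∧ ∫⁻ z in Q, ‖H2 z.1 z.2‖ₑ ^ 2 ≠ ⊤ := by
    rw [← ENNReal.add_ne_top]
    intro h
    rw [h, ENNReal.mul_top hsg] at hint
    exact hg2 hint
  obtain ⟨hf1', hf2'⟩ := hfin
  have hkc := kk_cont hm hA2
  have hP1 := fun ε => (Psi_meas hH1 hf1' hkc ε).pow_const 2
  have hP2 := fun ε => (Psi_meas hH2 hf2' hkc ε).pow_const 2
  have hWm : Measurable (W (kk m A2) H1 H2) :=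
    (((hP1 1).add (hP1 (-1))).add ((hP2 1).add (hP2 (-1)))).const_mul 2
  have hΦ := (Phi_meas hg hg2).pow_const 2
  obtain ⟨-, hS2, -, -, hS5⟩ := h3 n 1 m a b hs
  rw [hS2 _ hΦ]
  -- the inner integrals
  have hin : ∀ t : E 1, t ≠ 0 → ∫⁻ y : E m, (⨆ (R : ℝ) (_ : 0 < R), ‖BN g R (a t + b y)‖ₑ /
      ENNReal.ofReal (L3 (R * ‖a t + b y‖) ^ 6)) ^ 2 ≤
      sg m univ * ∫⁻ s in Ioi (0 : ℝ), W (kk m A2) H1 H2 (‖t‖, s) := by
    intro t ht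
    have hc : Measurable fun y : E m => a t + b y :=
      (continuous_const.add b.continuous).measurable
    have h5 := (h4 m hm).1 (fun y : E m => (⨆ (R : ℝ) (_ : 0 < R), ‖BN g R (a t + b y)‖ₑ /
      ENNReal.ofReal (L3 (R * ‖a t + b y‖) ^ 6)) ^ 2) (hΦ.comp hc)
    rw [h5]
    have h6 : ∀ s ∈ Ioi (0 : ℝ), ∫⁻ ω, ENNReal.ofReal (s ^ (m - 1)) *
        (⨆ (R : ℝ) (_ : 0 < R), ‖BN g R (a t + b (s • (ω : E m)))‖ₑ /
          ENNReal.ofReal (L3 (R * ‖a t + b (s • (ω : E m))‖) ^ 6)) ^ 2 ∂(sg m) ≤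
        sg m univ * W (kk m A2) H1 H2 (‖t‖, s) := by
      intro s hs0
      have hs0' : 0 < s := hs0
      calc _ ≤ ∫⁻ _ : Metric.sphere (0 : E m) 1, W (kk m A2) H1 H2 (‖t‖, s) ∂(sg m) := by
            refine lintegral_mono fun ω => ?_
            have hω : ‖(ω : E m)‖ = 1 := by
              have := ω.2
              rwa [mem_sphere_zero_iff_norm] at this
            have hn : ‖s • (ω : E m)‖ = s := by
              rw [norm_smul, hω, mul_one, Real.norm_of_nonneg hs0'.le]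
            have h7 := point hm hS5 hk t (s • (ω : E m)) ht (by
              rw [← norm_pos_iff, hn]
              exact hs0')
            rw [hn] at h7
            exact h7
        _ = sg m univ * W (kk m A2) H1 H2 (‖t‖, s) := by
            rw [lintegral_const, mul_comm]
    refine (setLIntegral_mono' measurableSet_Ioi h6).trans (le_of_eq ?_)
    rw [lintegral_const_mul' _ _ (measure_ne_top _ _)]
  obtain ⟨G, hG⟩ : ∃ G : ℝ → ℝ≥0∞, G = fun r =>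
      sg m univ * ∫⁻ s in Ioi (0 : ℝ), W (kk m A2) H1 H2 (r, s) := ⟨_, rfl⟩
  have hGm : Measurable G := by
    rw [hG]
    exact (Measurable.lintegral_prod_right' hWm).const_mul _
  have hout : ∫⁻ t : E 1, ∫⁻ y : E m, (⨆ (R : ℝ) (_ : 0 < R), ‖BN g R (a t + b y)‖ₑ /
      ENNReal.ofReal (L3 (R * ‖a t + b y‖) ^ 6)) ^ 2 ≤ ∫⁻ t : E 1, G ‖t‖ := by
    refine lintegral_mono_ae ?_
    have h0 : ∀ᵐ t : E 1, t ≠ 0 := by
      rw [ae_iff]
      simp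
    filter_upwards [h0] with t ht
    rw [hG]
    exact hin t ht
  refine hout.trans ?_
  have h8 := (h4 1 one_pos).1 (fun t : E 1 => G ‖t‖) (hGm.comp measurable_norm)
  rw [h8]
  have h9 : ∀ r ∈ Ioi (0 : ℝ), ∫⁻ ω, ENNReal.ofReal (r ^ (1 - 1)) * G ‖r • (ω : E 1)‖ ∂(sg 1) =
      sg 1 univ * G r := by
    intro r hr
    have hr' : 0 < r := hr
    have h10 : ∀ ω : Metric.sphere (0 : E 1) 1, ENNReal.ofReal (r ^ (1 - 1)) *
        G ‖r • (ω : E 1)‖ = G r := by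
      intro ω
      have hω : ‖(ω : E 1)‖ = 1 := by
        have := ω.2
        rwa [mem_sphere_zero_iff_norm] at this
      rw [norm_smul, hω, mul_one, Real.norm_of_nonneg hr'.le]
      simp
    simp only [h10]
    rw [lintegral_const, mul_comm]
  rw [setLIntegral_congr_fun measurableSet_Ioi h9, lintegral_const_mul _ hGm]
  have h11 : ∫⁻ r in Ioi (0 : ℝ), G r = sg m univ * ∫⁻ z in Q, W (kk m A2) H1 H2 z := by
    have hQ : Q = Ioi (0 : ℝ) ×ˢ Ioi (0 : ℝ) := rfl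
    rw [hQ, Measure.volume_eq_prod, setLIntegral_prod _ hWm.aemeasurable, hG,
      lintegral_const_mul _ (Measurable.lintegral_prod_right' hWm)]
  have h12 : ∫⁻ z in Q, W (kk m A2) H1 H2 z ≤ 4 * C0 * ((∫⁻ z in Q, ‖H1 z.1 z.2‖ₑ ^ 2) +
      ∫⁻ z in Q, ‖H2 z.1 z.2‖ₑ ^ 2) := by
    have m1 : Measurable fun z => Psi (kk m A2) H1 1 z ^ 2 + Psi (kk m A2) H1 (-1) z ^ 2 :=
      (hP1 1).add (hP1 (-1))
    unfold W
    rw [lintegral_const_mul' _ _ (by norm_num), lintegral_add_left m1,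
      lintegral_add_left (hP1 1), lintegral_add_left (hP2 1)]
    calc 2 * (((∫⁻ z in Q, Psi (kk m A2) H1 1 z ^ 2) +
          ∫⁻ z in Q, Psi (kk m A2) H1 (-1) z ^ 2) +
          ((∫⁻ z in Q, Psi (kk m A2) H2 1 z ^ 2) + ∫⁻ z in Q, Psi (kk m A2) H2 (-1) z ^ 2))
        ≤ 2 * (((C0 * ∫⁻ z in Q, ‖H1 z.1 z.2‖ₑ ^ 2) + C0 * ∫⁻ z in Q, ‖H1 z.1 z.2‖ₑ ^ 2) +
          ((C0 * ∫⁻ z in Q, ‖H2 z.1 z.2‖ₑ ^ 2) + C0 * ∫⁻ z in Q, ‖H2 z.1 z.2‖ₑ ^ 2)) := by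
          refine mul_le_mul' le_rfl (add_le_add (add_le_add ?_ ?_) (add_le_add ?_ ?_))
          · exact hN H1 1 hH1 hf1' (Or.inl rfl)
          · exact hN H1 (-1) hH1 hf1' (Or.inr rfl)
          · exact hN H2 1 hH2 hf2' (Or.inl rfl)
          · exact hN H2 (-1) hH2 hf2' (Or.inr rfl)
      _ = _ := by ring
  have e13 : (((sg 1 univ).toNNReal : ℝ≥0) : ℝ≥0∞) = sg 1 univ :=
    ENNReal.coe_toNNReal (measure_ne_top _ _)
  rw [h11, hint]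
  calc sg 1 univ * (sg m univ * ∫⁻ z in Q, W (kk m A2) H1 H2 z)
      ≤ sg 1 univ * (sg m univ * (4 * C0 * ((∫⁻ z in Q, ‖H1 z.1 z.2‖ₑ ^ 2) +
        ∫⁻ z in Q, ‖H2 z.1 z.2‖ₑ ^ 2))) := by gcongr
    _ = _ := by
        push_cast
        rw [e13]
        ring

end Pool.Agent.BIR
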