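import Pool.Agent.BIR.Targets
import Pool.Agent.CYL.P_GEO

set_option autoImplicit false

/-! BIR-BIF: from coordinates to subspaces. -/

namespace Pool.Agent.BIR

open MeasureTheory FourierTransform Set Filter Topology
open scoped ENNReal NNReal ComplexConjugate
open Pool.Agent.MBS (E ex S)
open Pool.Agent.CAR (e1)
open Pool.Agent.CRN (sg SH Nice T_CARLS T_POLN T_HELN T_RAYN)
open Pool.Agent.CYL (Spl T_SPL T_GEO)
open Pool.Agent.CRW (L3 T_GRW T_GS1)
open Pool.Agent.VRR (BN)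

namespace BIF_

open Pool.Agent.CYL.GEO_

/-- the distance from the orthogonal complement -/
theorem dist_eq' {n : ℕ} (W : Submodule ℝ (E n)) (t : E (Module.finrank ℝ Wᗮ))
    (y : E (Module.finrank ℝ W)) :
    Metric.infDist (emb Wᗮ t + emb W y) (Wᗮ : Set (E n)) = ‖y‖ := by
  apply le_antisymm
  · refine (Metric.infDist_le_dist_of_mem (y := emb Wᗮ t) (emb_mem Wᗮ t)).trans (le_of_eq ?_)
    rw [dist_eq_norm, add_sub_cancel_left, LinearIsometry.norm_map]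
  · rw [Metric.le_infDist ⟨0, Wᗮ.zero_mem⟩]
    intro w hw
    have h1 : inner ℝ (emb W y) (emb Wᗮ t - w) = 0 :=
      Submodule.inner_right_of_mem_orthogonal (emb_mem W y) (Wᗮ.sub_mem (emb_mem Wᗮ t) hw)
    have h2 := norm_add_sq_eq_norm_sq_add_norm_sq_of_inner_eq_zero (emb W y) (emb Wᗮ t - w) h1
    rw [dist_eq_norm, add_comm (emb Wᗮ t) (emb W y), add_sub_assoc]
    rw [LinearIsometry.norm_map] at h2
    apply le_of_sq_le_sq _ (norm_nonneg _)
    nlinarith [mul_self_nonneg ‖emb Wᗮ t - w‖]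

end BIF_

open BIF_ Pool.Agent.CYL.GEO_ in
/-- BIF: functions of the distances from a subspace and from its orthogonal complement. -/
theorem p_BIF (h1 : T_BIA) (_h2 : T_GEO) : T_BIF := by
  intro hA n
  have h3 : ∀ d m : ℕ, ∃ C : ℝ≥0, 1 ≤ d → 1 ≤ m → ∀ (n : ℕ)
      (a : E d →ₗᵢ[ℝ] E n) (b : E m →ₗᵢ[ℝ] E n) (g : E n → ℂ), Spl a b → Measurable g →
      ∫⁻ ξ, ‖g ξ‖ₑ ^ 2 ≠ ⊤ →
      (∀ (τ τ' : E d) (η η' : E m), ‖τ‖ = ‖τ'‖ → ‖η‖ = ‖η'‖ →
        g (a τ + b η) = g (a τ' + b η')) →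
        ∫⁻ x, (⨆ (R : ℝ) (_ : 0 < R), ‖BN g R x‖ₑ / ENNReal.ofReal (L3 (R * ‖x‖) ^ 6)) ^ 2 ≤
          C * ∫⁻ ξ, ‖g ξ‖ₑ ^ 2 := by
    intro d m
    by_cases hd : 1 ≤ d
    · by_cases hm : 1 ≤ m
      · obtain ⟨C, hC⟩ := h1 d m hd hm (hA d hd) (hA m hm)
        exact ⟨C, fun _ _ => hC⟩
      · exact ⟨0, fun _ h => absurd h hm⟩
    · exact ⟨0, fun h => absurd h hd⟩
  choose Cf hCf using h3
  refine ⟨∑ d ∈ Finset.range (n + 1), ∑ m ∈ Finset.range (n + 1), Cf d m, ?_⟩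
  intro W g hW0 hW1 hg hg2 hinv
  have hd : 1 ≤ Module.finrank ℝ Wᗮ := by
    rw [Submodule.one_le_finrank_iff]
    intro h
    exact hW1 (Submodule.orthogonal_eq_bot_iff.1 h)
  have hm : 1 ≤ Module.finrank ℝ W := by
    rw [Submodule.one_le_finrank_iff]
    exact hW0
  have hdn : Module.finrank ℝ Wᗮ ≤ n := by
    have h := Submodule.finrank_le Wᗮ
    rwa [finrank_euclideanSpace_fin] at h
  have hmn : Module.finrank ℝ W ≤ n := by
    have h := Submodule.finrank_le W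
    rwa [finrank_euclideanSpace_fin] at h
  have hmain := hCf (Module.finrank ℝ Wᗮ) (Module.finrank ℝ W) hd hm n (emb Wᗮ) (emb W) g
    (spl W) hg hg2 (fun τ τ' η η' e1 e2 => hinv _ _
      (by rw [Pool.Agent.CYL.GEO_.dist_eq, Pool.Agent.CYL.GEO_.dist_eq, e1])
      (by rw [dist_eq', dist_eq', e2]))
  refine hmain.trans (mul_le_mul_left ?_ _)
  rw [ENNReal.coe_le_coe]
  calc Cf (Module.finrank ℝ Wᗮ) (Module.finrank ℝ W)
      ≤ ∑ m ∈ Finset.range (n + 1), Cf (Module.finrank ℝ Wᗮ) m :=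
        Finset.single_le_sum (f := fun m => Cf (Module.finrank ℝ Wᗮ) m)
          (fun i _ => zero_le) (Finset.mem_range.2 (by omega))
    _ ≤ ∑ d ∈ Finset.range (n + 1), ∑ m ∈ Finset.range (n + 1), Cf d m :=
        Finset.single_le_sum (f := fun d => ∑ m ∈ Finset.range (n + 1), Cf d m)
          (fun i _ => zero_le) (Finset.mem_range.2 (by omega))

end Pool.Agent.BIR
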