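import Pool.Agent.BIR.Targets

set_option autoImplicit false

/-!
# BIR, target HIL: Hilbert's inequality by Schur's test
-/

namespace Pool.Agent.BIR

open MeasureTheory Set Filter Topology
open scoped ENNReal NNReal

namespace HIL_

/-- the kernel -/
noncomputable def K (r ρ : ℝ) : ℝ≥0∞ := ENNReal.ofReal (1 / (1 + ρ * r))

/-- the weight -/
noncomputable def w (ρ : ℝ) : ℝ≥0∞ := ENNReal.ofReal (ρ ^ (-(1 / 2) : ℝ))

theorem K_meas : Measurable (fun z : ℝ × ℝ => K z.1 z.2) := by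
  unfold K
  fun_prop

theorem w_meas : Measurable w := by
  unfold w
  fun_prop

theorem part1 {r : ℝ} (hr : 0 < r) :
    ∫⁻ ρ in Ioc (0 : ℝ) r⁻¹, K r ρ * w ρ ≤ 2 * w r := by
  have hr' : 0 < r⁻¹ := inv_pos.2 hr
  have h1 : ∫⁻ ρ in Ioc (0 : ℝ) r⁻¹, K r ρ * w ρ ≤
      ∫⁻ ρ in Ioc (0 : ℝ) r⁻¹, ENNReal.ofReal (ρ ^ (-(1 / 2) : ℝ)) := by
    refine setLIntegral_mono' measurableSet_Ioc fun ρ hρ => ?_
    have : K r ρ ≤ 1 := by
      unfold K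
      rw [← ENNReal.ofReal_one]
      refine ENNReal.ofReal_le_ofReal ?_
      rw [div_le_one (by nlinarith [mul_pos hρ.1 hr])]
      nlinarith [mul_pos hρ.1 hr]
    calc K r ρ * w ρ ≤ 1 * w ρ := by gcongr
      _ = _ := by rw [one_mul]; rfl
  refine h1.trans ?_
  have hint : IntervalIntegrable (fun ρ : ℝ => ρ ^ (-(1 / 2) : ℝ)) volume 0 r⁻¹ :=
    intervalIntegral.intervalIntegrable_rpow' (by norm_num)
  have hio : IntegrableOn (fun ρ : ℝ => ρ ^ (-(1 / 2) : ℝ)) (Ioc 0 r⁻¹) :=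
    (intervalIntegrable_iff_integrableOn_Ioc_of_le hr'.le).1 hint
  rw [← ofReal_integral_eq_lintegral_ofReal hio ?_]
  · rw [← intervalIntegral.integral_of_le hr'.le, integral_rpow (by left; norm_num)]
    unfold w
    rw [← ENNReal.ofReal_ofNat 2, ← ENNReal.ofReal_mul (by norm_num)]
    refine ENNReal.ofReal_le_ofReal (le_of_eq ?_)
    rw [Real.inv_rpow hr.le, ← Real.rpow_neg hr.le]
    norm_num
    ring
  · filter_upwards [ae_restrict_mem measurableSet_Ioc] with ρ hρ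
    exact Real.rpow_nonneg hρ.1.le _

theorem part2 {r : ℝ} (hr : 0 < r) :
    ∫⁻ ρ in Ioi r⁻¹, K r ρ * w ρ ≤ 2 * w r := by
  have hr' : 0 < r⁻¹ := inv_pos.2 hr
  have h1 : ∫⁻ ρ in Ioi r⁻¹, K r ρ * w ρ ≤
      ∫⁻ ρ in Ioi r⁻¹, ENNReal.ofReal (r⁻¹ * ρ ^ (-(3 / 2) : ℝ)) := by
    refine setLIntegral_mono' measurableSet_Ioi fun ρ hρ => ?_
    have hρ0 : 0 < ρ := hr'.trans hρ
    unfold K w
    rw [← ENNReal.ofReal_mul (by positivity)]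
    refine ENNReal.ofReal_le_ofReal ?_
    have e : ρ ^ (-(3 / 2) : ℝ) = ρ⁻¹ * ρ ^ (-(1 / 2) : ℝ) := by
      rw [← Real.rpow_neg_one, ← Real.rpow_add hρ0]
      norm_num
    rw [e, ← mul_assoc]
    have : 1 / (1 + ρ * r) ≤ r⁻¹ * ρ⁻¹ := by
      rw [← mul_inv, one_div]
      refine inv_anti₀ (by positivity) ?_
      nlinarith
    exact mul_le_mul_of_nonneg_right this (Real.rpow_nonneg hρ0.le _)
  refine h1.trans ?_
  have hio : IntegrableOn (fun ρ : ℝ => r⁻¹ * ρ ^ (-(3 / 2) : ℝ)) (Ioi r⁻¹) :=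
    (integrableOn_Ioi_rpow_of_lt (by norm_num) hr').const_mul _
  rw [← ofReal_integral_eq_lintegral_ofReal hio ?_]
  · rw [integral_const_mul, integral_Ioi_rpow_of_lt (by norm_num) hr']
    unfold w
    rw [← ENNReal.ofReal_ofNat 2, ← ENNReal.ofReal_mul (by norm_num)]
    refine ENNReal.ofReal_le_ofReal (le_of_eq ?_)
    have e1 : (-(3 / 2) : ℝ) + 1 = -(1 / 2) := by norm_num
    rw [e1, Real.inv_rpow hr.le, ← Real.rpow_neg hr.le, neg_neg]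
    have e2 : r ^ (-(1 / 2) : ℝ) = r⁻¹ * r ^ (1 / 2 : ℝ) := by
      rw [← Real.rpow_neg_one, ← Real.rpow_add hr]
      norm_num
    rw [e2]
    ring
  · filter_upwards [ae_restrict_mem measurableSet_Ioi] with ρ hρ
    have hρ0 : 0 < ρ := hr'.trans hρ
    positivity

theorem schur {r : ℝ} (hr : 0 < r) :
    ∫⁻ ρ in Ioi (0 : ℝ), K r ρ * w ρ ≤ 4 * w r := by
  have hr' : 0 < r⁻¹ := inv_pos.2 hr
  rw [← Ioc_union_Ioi_eq_Ioi hr'.le, lintegral_union measurableSet_Ioi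
    (Ioc_disjoint_Ioi le_rfl)]
  calc _ ≤ 2 * w r + 2 * w r := add_le_add (part1 hr) (part2 hr)
    _ = 4 * w r := by ring

theorem w_ne_zero {ρ : ℝ} (h : 0 < ρ) : w ρ ≠ 0 := by
  unfold w
  have := Real.rpow_pos_of_pos h (-(1 / 2) : ℝ)
  simpa using this

theorem w_ne_top (ρ : ℝ) : w ρ ≠ ⊤ := ENNReal.ofReal_ne_top

end HIL_

open HIL_ in
/-- HIL -/
theorem p_HIL : T_HIL := by
  intro h hh
  have step : ∀ r ∈ Ioi (0 : ℝ),
      (∫⁻ ρ in Ioi (0 : ℝ), ENNReal.ofReal (1 / (1 + ρ * r)) * h ρ) ^ 2 ≤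
        4 * ∫⁻ ρ in Ioi (0 : ℝ), (w r * K r ρ) * ((w ρ)⁻¹ * h ρ ^ 2) := by
    intro r hr
    set F : ℝ → ℝ≥0∞ := fun ρ => (K r ρ * w ρ) ^ (1 / 2 : ℝ)
    set G : ℝ → ℝ≥0∞ := fun ρ => (K r ρ * ((w ρ)⁻¹ * h ρ ^ 2)) ^ (1 / 2 : ℝ)
    have hKr : Measurable (K r) := K_meas.comp (measurable_const.prodMk measurable_id)
    have hF : Measurable F := (hKr.mul w_meas).pow_const _
    have hG : Measurable G := (hKr.mul (w_meas.inv.mul (hh.pow_const 2))).pow_const _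
    have e1 : ∫⁻ ρ in Ioi (0 : ℝ), ENNReal.ofReal (1 / (1 + ρ * r)) * h ρ =
        ∫⁻ ρ in Ioi (0 : ℝ), F ρ * G ρ := by
      refine setLIntegral_congr_fun measurableSet_Ioi fun ρ hρ => ?_
      have hw0 := w_ne_zero hρ
      have hw1 := w_ne_top ρ
      simp only [F, G]
      rw [← ENNReal.mul_rpow_of_nonneg _ _ (by norm_num)]
      have : K r ρ * w ρ * (K r ρ * ((w ρ)⁻¹ * h ρ ^ 2)) = (K r ρ * h ρ) ^ 2 := by
        calc K r ρ * w ρ * (K r ρ * ((w ρ)⁻¹ * h ρ ^ 2))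
            = (w ρ * (w ρ)⁻¹) * (K r ρ * h ρ) ^ 2 := by ring
          _ = _ := by rw [ENNReal.mul_inv_cancel hw0 hw1, one_mul]
      rw [this, ← ENNReal.rpow_natCast, ← ENNReal.rpow_mul]
      norm_num [K]
    have key := ENNReal.lintegral_mul_le_Lp_mul_Lq (volume.restrict (Ioi (0 : ℝ)))
      (Real.HolderConjugate.two_two) hF.aemeasurable hG.aemeasurable
    have e2 : ∀ x : ℝ≥0∞, (x ^ (1 / 2 : ℝ)) ^ (2 : ℝ) = x := by
      intro x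
      rw [← ENNReal.rpow_mul]
      norm_num
    have e3 : ∀ x : ℝ≥0∞, (x ^ (1 / 2 : ℝ)) ^ (2 : ℕ) = x := by
      intro x
      rw [← ENNReal.rpow_natCast, ← ENNReal.rpow_mul]
      norm_num
    simp only [Pi.mul_apply, F, G, e2] at key
    rw [e1]
    calc (∫⁻ ρ in Ioi (0 : ℝ), F ρ * G ρ) ^ 2
        ≤ ((∫⁻ ρ in Ioi (0 : ℝ), K r ρ * w ρ) ^ (1 / 2 : ℝ) *
          (∫⁻ ρ in Ioi (0 : ℝ), K r ρ * ((w ρ)⁻¹ * h ρ ^ 2)) ^ (1 / 2 : ℝ)) ^ 2 := by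
          gcongr
      _ = (∫⁻ ρ in Ioi (0 : ℝ), K r ρ * w ρ) *
          ∫⁻ ρ in Ioi (0 : ℝ), K r ρ * ((w ρ)⁻¹ * h ρ ^ 2) := by
          rw [mul_pow, e3, e3]
      _ ≤ 4 * w r * ∫⁻ ρ in Ioi (0 : ℝ), K r ρ * ((w ρ)⁻¹ * h ρ ^ 2) := by
          gcongr
          exact schur hr
      _ = 4 * ∫⁻ ρ in Ioi (0 : ℝ), (w r * K r ρ) * ((w ρ)⁻¹ * h ρ ^ 2) := by
          rw [mul_assoc, ← lintegral_const_mul' _ _ (w_ne_top r)]
          simp only [mul_assoc]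
  refine (setLIntegral_mono' measurableSet_Ioi step).trans ?_
  rw [lintegral_const_mul' _ _ (by norm_num)]
  have hm : Measurable (fun z : ℝ × ℝ => (w z.1 * K z.1 z.2) * ((w z.2)⁻¹ * h z.2 ^ 2)) :=
    ((w_meas.comp measurable_fst).mul K_meas).mul
      ((w_meas.comp measurable_snd).inv.mul ((hh.comp measurable_snd).pow_const 2))
  rw [lintegral_lintegral_swap hm.aemeasurable]
  have h2 : ∫⁻ ρ in Ioi (0 : ℝ), ∫⁻ r in Ioi (0 : ℝ), (w r * K r ρ) * ((w ρ)⁻¹ * h ρ ^ 2) ≤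
      ∫⁻ ρ in Ioi (0 : ℝ), 4 * h ρ ^ 2 := by
    refine setLIntegral_mono' measurableSet_Ioi fun ρ hρ => ?_
    have hw0 := w_ne_zero hρ
    have hw1 := w_ne_top ρ
    have hmr : Measurable (fun r : ℝ => w r * K r ρ) :=
      w_meas.mul (K_meas.comp (measurable_id.prodMk measurable_const))
    rw [lintegral_mul_const _ hmr]
    have e4 : ∫⁻ r in Ioi (0 : ℝ), w r * K r ρ = ∫⁻ r in Ioi (0 : ℝ), K ρ r * w r := by
      refine lintegral_congr fun r => ?_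
      unfold K
      rw [mul_comm, mul_comm ρ r]
    rw [e4]
    calc (∫⁻ r in Ioi (0 : ℝ), K ρ r * w r) * ((w ρ)⁻¹ * h ρ ^ 2)
        ≤ 4 * w ρ * ((w ρ)⁻¹ * h ρ ^ 2) := by
          gcongr
          exact schur hρ
      _ = 4 * (w ρ * (w ρ)⁻¹) * h ρ ^ 2 := by ring
      _ = 4 * h ρ ^ 2 := by rw [ENNReal.mul_inv_cancel hw0 hw1, mul_one]
  calc 4 * ∫⁻ ρ in Ioi (0 : ℝ), ∫⁻ r in Ioi (0 : ℝ), (w r * K r ρ) * ((w ρ)⁻¹ * h ρ ^ 2)
      ≤ 4 * ∫⁻ ρ in Ioi (0 : ℝ), 4 * h ρ ^ 2 := by gcongr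
    _ = 16 * ∫⁻ ρ in Ioi (0 : ℝ), h ρ ^ 2 := by
        rw [lintegral_const_mul' _ _ (by norm_num), ← mul_assoc]
        norm_num

end Pool.Agent.BIR
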