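import Pool.Agent.BIR.Targets

set_option autoImplicit false

/-!
# BIR-KER: representation of the ball sums of a function of two radii
-/

namespace Pool.Agent.BIR

open MeasureTheory FourierTransform Set Filter Topology
open scoped ENNReal NNReal ComplexConjugate
open Pool.Agent.MBS (E ex S)
open Pool.Agent.CRN (sg T_POLN)
open Pool.Agent.CYL (Spl T_SPL)
open Pool.Agent.VRR (BN)

namespace KER_

theorem norm_ex {n : ℕ} (x ξ : E n) : ‖ex x ξ‖ = 1 := by
  unfold ex
  have : (2 * Real.pi * Complex.I * ((inner ℝ x ξ : ℝ) : ℂ)) =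
      ((2 * Real.pi * inner ℝ x ξ : ℝ) : ℂ) * Complex.I := by
    push_cast
    ring
  rw [this, Complex.norm_exp_ofReal_mul_I]

theorem cont_ex {n : ℕ} (x : E n) : Continuous (fun ξ : E n => ex x ξ) := by
  unfold ex
  fun_prop

theorem ex_smul {n : ℕ} (x ξ : E n) (r : ℝ) : ex x (r • ξ) = ex (r • x) ξ := by
  unfold ex
  rw [inner_smul_right, inner_smul_left]
  simp

theorem sg_ne (h2 : T_POLN) {n : ℕ} (hn : 0 < n) : sg n univ ≠ 0 := by
  intro h0
  have h := (h2 n hn).1 (fun _ => 1) measurable_const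
  rw [Measure.measure_univ_eq_zero] at h0
  rw [h0] at h
  simp only [lintegral_zero_measure, lintegral_zero, lintegral_one] at h
  exact (Measure.measure_univ_ne_zero.2 (NeZero.ne (volume : Measure (E n)))) h

/-- polar coordinates for functions of the radius -/
theorem inner_pol (h2 : T_POLN) {m : ℕ} (hm : 0 < m) (Φ : E m → ℝ≥0∞) (hΦ : Measurable Φ)
    (κ : ℝ → ℝ≥0∞) (hκ : Measurable κ)
    (h : ∀ s : ℝ, 0 < s → ∀ ω : Metric.sphere (0 : E m) 1, Φ (s • (ω : E m)) = κ s) :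
    ∫⁻ η, Φ η = sg m univ * ∫⁻ s in Ioi (0 : ℝ), ENNReal.ofReal (s ^ (m - 1)) * κ s := by
  have hm2 : Measurable (fun s : ℝ => ENNReal.ofReal (s ^ (m - 1)) * κ s) :=
    ((measurable_id.pow_const _).ennreal_ofReal).mul hκ
  rw [(h2 m hm).1 Φ hΦ, ← lintegral_const_mul _ hm2]
  refine setLIntegral_congr_fun measurableSet_Ioi fun s hs' => ?_
  have h4 : (fun ω : Metric.sphere (0 : E m) 1 => ENNReal.ofReal (s ^ (m - 1)) *
      Φ (s • (ω : E m))) = fun _ => ENNReal.ofReal (s ^ (m - 1)) * κ s := by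
    funext ω
    rw [h s hs' ω]
  change ∫⁻ ω : Metric.sphere (0 : E m) 1, ENNReal.ofReal (s ^ (m - 1)) *
      Φ (s • (ω : E m)) ∂(sg m) = _
  rw [h4, lintegral_const, mul_comm]

/-- polar coordinates for a function of the radius times a character -/
theorem inner_polC (h2 : T_POLN) {m : ℕ} (hm : 0 < m) (Φ : E m → ℂ) (hΦ : Integrable Φ)
    (y : E m) (κ : ℝ → ℂ)
    (h : ∀ s : ℝ, 0 < s → ∀ ω : Metric.sphere (0 : E m) 1,
      Φ (s • (ω : E m)) = κ s * ex y (s • (ω : E m))) :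
    ∫ η, Φ η = ∫ s in Ioi (0 : ℝ), ((s ^ (m - 1) : ℝ) : ℂ) * (κ s * AA m (s • y)) := by
  rw [(h2 m hm).2.1 Φ hΦ]
  refine setIntegral_congr_fun measurableSet_Ioi fun s hs' => ?_
  have h4 : (fun ω : Metric.sphere (0 : E m) 1 => Φ (s • (ω : E m))) =
      fun ω : Metric.sphere (0 : E m) 1 => κ s * ex (s • y) (ω : E m) := by
    funext ω
    rw [h s hs' ω, ex_smul]
  change ((s ^ (m - 1) : ℝ) : ℂ) * ∫ ω : Metric.sphere (0 : E m) 1, Φ (s • (ω : E m)) ∂(sg m) = _
  rw [h4, integral_const_mul]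
  rfl

theorem birad (h1 : T_SPL) (h2 : T_POLN) {n d m : ℕ} (a : E d →ₗᵢ[ℝ] E n) (b : E m →ₗᵢ[ℝ] E n)
    (hs : Spl a b) (hd : 0 < d) (hm : 0 < m) (F : E n → ℝ≥0∞) (hF : Measurable F)
    (K : ℝ → ℝ → ℝ≥0∞) (hK : Measurable (fun z : ℝ × ℝ => K z.1 z.2))
    (hFK : ∀ r s : ℝ, 0 < r → 0 < s → ∀ (ω : Metric.sphere (0 : E d) 1)
      (ω' : Metric.sphere (0 : E m) 1), F (a (r • (ω : E d)) + b (s • (ω' : E m))) = K r s) :
    ∫⁻ ξ, F ξ = sg d univ * sg m univ * ∫⁻ r in Ioi (0 : ℝ), ENNReal.ofReal (r ^ (d - 1)) *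
      ∫⁻ s in Ioi (0 : ℝ), ENNReal.ofReal (s ^ (m - 1)) * K r s := by
  have hab : Measurable (fun q : E d × E m => a q.1 + b q.2) := by
    have h3 : Continuous (fun q : E d × E m => a q.1 + b q.2) :=
      (a.continuous.comp continuous_fst).add (b.continuous.comp continuous_snd)
    exact h3.measurable
  have hP : Measurable (fun t : E d => ∫⁻ y : E m, F (a t + b y)) :=
    Measurable.lintegral_prod_right' (f := fun q : E d × E m => F (a q.1 + b q.2)) (hF.comp hab)
  have hJ : Measurable (fun r : ℝ =>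
      ∫⁻ s in Ioi (0 : ℝ), ENNReal.ofReal (s ^ (m - 1)) * K r s) := by
    refine Measurable.lintegral_prod_right'
      (f := fun z : ℝ × ℝ => ENNReal.ofReal (z.2 ^ (m - 1)) * K z.1 z.2) ?_
    exact ((measurable_snd.pow_const _).ennreal_ofReal).mul hK
  have hJ2 : Measurable (fun r : ℝ => ENNReal.ofReal (r ^ (d - 1)) *
      ∫⁻ s in Ioi (0 : ℝ), ENNReal.ofReal (s ^ (m - 1)) * K r s) :=
    ((measurable_id.pow_const _).ennreal_ofReal).mul hJ
  rw [(h1 n d m a b hs).2.1 F hF, inner_pol h2 hd _ hP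
    (fun r => sg m univ * ∫⁻ s in Ioi (0 : ℝ), ENNReal.ofReal (s ^ (m - 1)) * K r s)
    (hJ.const_mul _) (fun r hr ω => ?_)]
  · rw [mul_assoc, ← lintegral_const_mul _ hJ2]
    congr 1
    refine lintegral_congr fun r => ?_
    ring
  · exact inner_pol h2 hm _ (hF.comp (hab.comp (measurable_const.prodMk measurable_id)))
      (fun s => K r s) (hK.comp (measurable_const.prodMk measurable_id))
      (fun s hs' ω' => hFK r s hr hs' ω ω')

theorem rpow_half_sq (k : ℕ) (hk : 1 ≤ k) {r : ℝ} (hr : 0 < r) :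
    r ^ (((k : ℝ) - 1) / 2) * r ^ (((k : ℝ) - 1) / 2) = r ^ (k - 1) := by
  rw [← Real.rpow_add hr, ← Real.rpow_natCast]
  congr 1
  rw [Nat.cast_sub hk]
  push_cast
  ring

theorem enorm_real {c : ℝ} (hc : 0 ≤ c) : ‖(c : ℂ)‖ₑ = ENNReal.ofReal c := by
  rw [← ofReal_norm, Complex.norm_real, Real.norm_of_nonneg hc]

/-- a continuous function is bounded on `(0, L]` -/
theorem bdd (A : ℝ → ℂ) (hA : Continuous A) (L : ℝ) : ∃ M : ℝ, 0 ≤ M ∧
    ∀ u : ℝ, 0 ≤ u → u ≤ L → ‖A u‖ ≤ M := by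
  obtain ⟨M, hM⟩ := (isCompact_Icc (a := (0 : ℝ)) (b := L)).exists_bound_of_continuousOn
    hA.continuousOn
  exact ⟨max M 0, le_max_right _ _, fun u h0 h1 => (hM u ⟨h0, h1⟩).trans (le_max_left _ _)⟩

end KER_

open KER_ in
theorem p_KER (h1 : T_SPL) (h2 : T_POLN) : T_KER := by
  intro n d m a b g A1 A2 hd hm hs hg hfin hinv hA1 hA2 hAA1 hAA2
  have : Nonempty (Fin d) := ⟨⟨0, hd⟩⟩
  have : Nonempty (Fin m) := ⟨⟨0, hm⟩⟩
  have hfd : IsFiniteMeasure (sg d) := (h2 d hd).2.2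
  have hfm : IsFiniteMeasure (sg m) := (h2 m hm).2.2
  obtain ⟨e, he⟩ : ∃ e : E d, ‖e‖ = 1 := ⟨EuclideanSpace.single ⟨0, hd⟩ 1, by simp⟩
  obtain ⟨e', he'⟩ : ∃ e : E m, ‖e‖ = 1 := ⟨EuclideanSpace.single ⟨0, hm⟩ 1, by simp⟩
  set G : ℝ → ℝ → ℂ := fun r s => g (a (r • e) + b (s • e')) with hGdef
  have hab : Continuous (fun q : E d × E m => a q.1 + b q.2) :=
    (a.continuous.comp continuous_fst).add (b.continuous.comp continuous_snd)
  have hGm : Measurable (fun z : ℝ × ℝ => G z.1 z.2) := by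
    have h3 : Continuous (fun z : ℝ × ℝ => a (z.1 • e) + b (z.2 • e')) :=
      (a.continuous.comp (continuous_fst.smul continuous_const)).add
        (b.continuous.comp (continuous_snd.smul continuous_const))
    exact hg.comp h3.measurable
  have hGinv : ∀ (r s : ℝ) (ω : Metric.sphere (0 : E d) 1) (ω' : Metric.sphere (0 : E m) 1),
      g (a (r • (ω : E d)) + b (s • (ω' : E m))) = G r s := by
    intro r s ω ω'
    refine hinv _ _ _ _ ?_ ?_
    · rw [norm_smul, norm_smul, he, mem_sphere_zero_iff_norm.1 ω.2]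
    · rw [norm_smul, norm_smul, he', mem_sphere_zero_iff_norm.1 ω'.2]
  set α : ℝ := ((d : ℝ) - 1) / 2 with hα
  set β : ℝ := ((m : ℝ) - 1) / 2 with hβ
  have hpm : ∀ γ : ℝ, Measurable (fun r : ℝ => ((r ^ γ : ℝ) : ℂ)) := fun γ =>
    Complex.measurable_ofReal.comp (measurable_id.pow_const γ)
  have hQ : (volume : Measure (ℝ × ℝ)).restrict Q =
      (volume.restrict (Ioi (0 : ℝ))).prod (volume.restrict (Ioi (0 : ℝ))) := by
    rw [Measure.prod_restrict]
    rfl
  have hQm : MeasurableSet Q := by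
    have : Q = Ioi (0 : ℝ) ×ˢ Ioi (0 : ℝ) := rfl
    rw [this]
    exact measurableSet_Ioi.prod measurableSet_Ioi
  refine ⟨fun ρ σ => G ρ σ * ((ρ ^ α : ℝ) : ℂ) * ((σ ^ β : ℝ) : ℂ), ?_, ?_, ?_⟩
  · exact (hGm.mul ((hpm α).comp measurable_fst)).mul ((hpm β).comp measurable_snd)
  · rw [birad h1 h2 a b hs hd hm (fun ξ => ‖g ξ‖ₑ ^ 2) (hg.enorm.pow_const 2)
      (fun r s => ‖G r s‖ₑ ^ 2) (hGm.enorm.pow_const 2) (fun r s _ _ ω ω' => by
        rw [hGinv r s ω ω'])]
    congr 1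
    rw [hQ, lintegral_prod]
    · refine setLIntegral_congr_fun measurableSet_Ioi fun r hr => ?_
      have hr' : 0 < r := hr
      change ENNReal.ofReal (r ^ (d - 1)) * ∫⁻ s in Ioi (0 : ℝ), ENNReal.ofReal (s ^ (m - 1)) *
        ‖G r s‖ₑ ^ 2 = ∫⁻ s in Ioi (0 : ℝ), ‖G r s * ((r ^ α : ℝ) : ℂ) * ((s ^ β : ℝ) : ℂ)‖ₑ ^ 2
      rw [← lintegral_const_mul]
      · refine setLIntegral_congr_fun measurableSet_Ioi fun s hs' => ?_
        have hs'' : 0 < s := hs'
        change ENNReal.ofReal (r ^ (d - 1)) * (ENNReal.ofReal (s ^ (m - 1)) * ‖G r s‖ₑ ^ 2) =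
          ‖G r s * ((r ^ α : ℝ) : ℂ) * ((s ^ β : ℝ) : ℂ)‖ₑ ^ 2
        rw [enorm_mul, enorm_mul, enorm_real (Real.rpow_nonneg hr'.le α),
          enorm_real (Real.rpow_nonneg hs''.le β), ← rpow_half_sq d hd hr',
          ← rpow_half_sq m hm hs'', ENNReal.ofReal_mul (Real.rpow_nonneg hr'.le α),
          ENNReal.ofReal_mul (Real.rpow_nonneg hs''.le β)]
        ring
      · exact ((measurable_id.pow_const _).ennreal_ofReal).mul
          ((hGm.comp (measurable_const.prodMk measurable_id)).enorm.pow_const 2)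
    · exact (((hGm.mul ((hpm α).comp measurable_fst)).mul
        ((hpm β).comp measurable_snd)).enorm.pow_const 2).aemeasurable
  · intro R t y hR ht hy
    have hnt : 0 < ‖t‖ := norm_pos_iff.2 ht
    have hny : 0 < ‖y‖ := norm_pos_iff.2 hy
    set x : E n := a t + b y with hx
    set F : E n → ℂ := (Metric.closedBall (0 : E n) R).indicator (fun ξ => g ξ * ex x ξ) with hF
    have hgex : Measurable (fun ξ => g ξ * ex x ξ) := hg.mul (cont_ex x).measurable
    have hFm : Measurable F := hgex.indicator measurableSet_closedBall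
    have hFint : Integrable F := by
      rw [hF, integrable_indicator_iff measurableSet_closedBall]
      have hL2 : MemLp g 2 volume := by
        refine ⟨hg.aestronglyMeasurable, ?_⟩
        rw [eLpNorm_lt_top_iff_lintegral_rpow_enorm_lt_top (by norm_num) (by norm_num)]
        have h3 : (fun ξ => ‖g ξ‖ₑ ^ (2 : ℝ≥0∞).toReal) = fun ξ => ‖g ξ‖ₑ ^ 2 := by
          funext ξ
          rw [ENNReal.toReal_ofNat, ENNReal.rpow_ofNat]
        rw [h3]
        exact lt_top_iff_ne_top.2 hfin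
      have : IsFiniteMeasure ((volume : Measure (E n)).restrict (Metric.closedBall 0 R)) :=
        ⟨by rw [Measure.restrict_apply_univ]; exact measure_closedBall_lt_top⟩
      have hg1 : Integrable g ((volume : Measure (E n)).restrict (Metric.closedBall 0 R)) :=
        (hL2.restrict _).integrable (by norm_num)
      refine hg1.norm.mono' hgex.aestronglyMeasurable (ae_of_all _ fun ξ => ?_)
      rw [norm_mul, norm_ex, mul_one]
    have hBN : BN g R x = ∫ ξ, F ξ := by
      unfold BN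
      rw [hF, integral_indicator measurableSet_closedBall]
    -- the cut off function of two radii
    set D : ℝ → ℝ → ℂ := fun r s => if r ^ 2 + s ^ 2 ≤ R ^ 2 then G r s else 0 with hD
    have hDm : Measurable (fun z : ℝ × ℝ => D z.1 z.2) := by
      refine Measurable.ite ?_ hGm measurable_const
      exact measurableSet_le (by fun_prop) measurable_const
    obtain ⟨-, hspl2, hspl3, hspl4, hspl5⟩ := h1 n d m a b hs
    have hFD : ∀ r s : ℝ, 0 < r → 0 < s → ∀ (ω : Metric.sphere (0 : E d) 1)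
        (ω' : Metric.sphere (0 : E m) 1), F (a (r • (ω : E d)) + b (s • (ω' : E m))) =
          D r s * (ex t (r • (ω : E d)) * ex y (s • (ω' : E m))) := by
      intro r s hr hs' ω ω'
      have hn : ‖a (r • (ω : E d)) + b (s • (ω' : E m))‖ ^ 2 = r ^ 2 + s ^ 2 := by
        rw [hspl5, norm_smul, norm_smul, mem_sphere_zero_iff_norm.1 ω.2,
          mem_sphere_zero_iff_norm.1 ω'.2, Real.norm_of_nonneg hr.le, Real.norm_of_nonneg hs'.le,
          mul_one, mul_one]
      have hmem : a (r • (ω : E d)) + b (s • (ω' : E m)) ∈ Metric.closedBall (0 : E n) R ↔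
          r ^ 2 + s ^ 2 ≤ R ^ 2 := by
        rw [mem_closedBall_zero_iff, ← hn]
        exact (sq_le_sq₀ (norm_nonneg _) hR.le).symm
      by_cases hc : r ^ 2 + s ^ 2 ≤ R ^ 2
      · rw [hF, indicator_of_mem (hmem.2 hc), hD]
        simp only [if_pos hc]
        rw [hGinv r s ω ω', hx, hspl4]
      · rw [hF, indicator_of_notMem (fun h => hc (hmem.1 h)), hD]
        simp only [if_neg hc, zero_mul]
    -- finiteness
    have hfinI : ∫⁻ r in Ioi (0 : ℝ), ENNReal.ofReal (r ^ (d - 1)) *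
        ∫⁻ s in Ioi (0 : ℝ), ENNReal.ofReal (s ^ (m - 1)) * ‖D r s‖ₑ ≠ ⊤ := by
      have h3 := birad h1 h2 a b hs hd hm (fun ξ => ‖F ξ‖ₑ) hFm.enorm
        (fun r s => ‖D r s‖ₑ) hDm.enorm (fun r s hr hs' ω ω' => by
          rw [hFD r s hr hs' ω ω', enorm_mul, enorm_mul]
          rw [← ofReal_norm (ex t _), ← ofReal_norm (ex y _), norm_ex, norm_ex]
          simp)
      intro h4
      rw [h4] at h3
      have h5 : ∫⁻ ξ, ‖F ξ‖ₑ ≠ ⊤ := (hasFiniteIntegral_iff_enorm.1 hFint.2).ne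
      rw [h3] at h5
      exact h5 (ENNReal.mul_top (mul_ne_zero (sg_ne h2 hd) (sg_ne h2 hm)))
    -- the integrand of two radii
    set U : ℝ → ℝ → ℂ := fun r s => ((r ^ (d - 1) : ℝ) : ℂ) * A1 (r * ‖t‖) *
      (((s ^ (m - 1) : ℝ) : ℂ) * (D r s * A2 (s * ‖y‖))) with hU
    have hUm : Measurable (fun z : ℝ × ℝ => U z.1 z.2) := by
      have e1 : Measurable (fun z : ℝ × ℝ => ((z.1 ^ (d - 1) : ℝ) : ℂ)) :=
        Complex.measurable_ofReal.comp (measurable_fst.pow_const _)
      have e2 : Measurable (fun z : ℝ × ℝ => ((z.2 ^ (m - 1) : ℝ) : ℂ)) :=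
        Complex.measurable_ofReal.comp (measurable_snd.pow_const _)
      have e3 : Measurable (fun z : ℝ × ℝ => A1 (z.1 * ‖t‖)) :=
        (hA1.comp (continuous_fst.mul continuous_const)).measurable
      have e4 : Measurable (fun z : ℝ × ℝ => A2 (z.2 * ‖y‖)) :=
        (hA2.comp (continuous_snd.mul continuous_const)).measurable
      exact (e1.mul e3).mul (e2.mul (hDm.mul e4))
    have hIm : Measurable (fun r : ℝ =>
        ∫⁻ s in Ioi (0 : ℝ), ENNReal.ofReal (s ^ (m - 1)) * ‖D r s‖ₑ) := by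
      refine Measurable.lintegral_prod_right'
        (f := fun z : ℝ × ℝ => ENNReal.ofReal (z.2 ^ (m - 1)) * ‖D z.1 z.2‖ₑ) ?_
      exact ((measurable_snd.pow_const _).ennreal_ofReal).mul hDm.enorm
    have hIm2 : Measurable (fun r : ℝ => ENNReal.ofReal (r ^ (d - 1)) *
        ∫⁻ s in Ioi (0 : ℝ), ENNReal.ofReal (s ^ (m - 1)) * ‖D r s‖ₑ) :=
      ((measurable_id.pow_const _).ennreal_ofReal).mul hIm
    have hUint : Integrable (fun z : ℝ × ℝ => U z.1 z.2)
        ((volume.restrict (Ioi (0 : ℝ))).prod (volume.restrict (Ioi (0 : ℝ)))) := by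
      obtain ⟨M1, hM1, hb1⟩ := bdd A1 hA1 (R * ‖t‖)
      obtain ⟨M2, hM2, hb2⟩ := bdd A2 hA2 (R * ‖y‖)
      refine ⟨hUm.aestronglyMeasurable, ?_⟩
      rw [hasFiniteIntegral_iff_enorm, ← hQ]
      have hle : ∫⁻ z in Q, ‖U z.1 z.2‖ₑ ≤ ∫⁻ z in Q, ENNReal.ofReal (M1 * M2) *
          (ENNReal.ofReal (z.1 ^ (d - 1)) * (ENNReal.ofReal (z.2 ^ (m - 1)) * ‖D z.1 z.2‖ₑ)) := by
        refine setLIntegral_mono' hQm fun z hz => ?_
        have hz1 : 0 < z.1 := hz.1
        have hz2 : 0 < z.2 := hz.2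
        by_cases hc : z.1 ^ 2 + z.2 ^ 2 ≤ R ^ 2
        · have hr : z.1 ≤ R := by nlinarith
          have hs' : z.2 ≤ R := by nlinarith
          have k1 : ‖A1 (z.1 * ‖t‖)‖ ≤ M1 :=
            hb1 _ (by positivity) (mul_le_mul_of_nonneg_right hr hnt.le)
          have k2 : ‖A2 (z.2 * ‖y‖)‖ ≤ M2 :=
            hb2 _ (by positivity) (mul_le_mul_of_nonneg_right hs' hny.le)
          have k3 : ‖U z.1 z.2‖ₑ = ENNReal.ofReal (z.1 ^ (d - 1)) *
              ENNReal.ofReal ‖A1 (z.1 * ‖t‖)‖ * (ENNReal.ofReal (z.2 ^ (m - 1)) *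
                (‖D z.1 z.2‖ₑ * ENNReal.ofReal ‖A2 (z.2 * ‖y‖)‖)) := by
            rw [hU]
            simp only [enorm_mul]
            rw [enorm_real (pow_nonneg hz1.le _), enorm_real (pow_nonneg hz2.le _),
              ofReal_norm, ofReal_norm]
          rw [k3, ENNReal.ofReal_mul hM1]
          calc ENNReal.ofReal (z.1 ^ (d - 1)) * ENNReal.ofReal ‖A1 (z.1 * ‖t‖)‖ *
                (ENNReal.ofReal (z.2 ^ (m - 1)) *
                  (‖D z.1 z.2‖ₑ * ENNReal.ofReal ‖A2 (z.2 * ‖y‖)‖)) ≤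
              ENNReal.ofReal (z.1 ^ (d - 1)) * ENNReal.ofReal M1 *
                (ENNReal.ofReal (z.2 ^ (m - 1)) * (‖D z.1 z.2‖ₑ * ENNReal.ofReal M2)) := by
                gcongr
            _ = _ := by ring
        · have k4 : D z.1 z.2 = 0 := by
            rw [hD]
            simp only [if_neg hc]
          rw [hU]
          simp only [k4, zero_mul, mul_zero, enorm_zero, le_refl]
      refine lt_of_le_of_lt hle ?_
      rw [hQ, lintegral_prod]
      · have hcon : (fun r : ℝ => ∫⁻ s in Ioi (0 : ℝ), ENNReal.ofReal (M1 * M2) *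
            (ENNReal.ofReal (r ^ (d - 1)) * (ENNReal.ofReal (s ^ (m - 1)) * ‖D r s‖ₑ))) =
            fun r => ENNReal.ofReal (M1 * M2) * (ENNReal.ofReal (r ^ (d - 1)) *
              ∫⁻ s in Ioi (0 : ℝ), ENNReal.ofReal (s ^ (m - 1)) * ‖D r s‖ₑ) := by
          funext r
          have hmm : Measurable (fun s : ℝ => ENNReal.ofReal (s ^ (m - 1)) * ‖D r s‖ₑ) :=
            ((measurable_id.pow_const _).ennreal_ofReal).mul
              (hDm.comp (measurable_const.prodMk measurable_id)).enorm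
          rw [lintegral_const_mul _ (hmm.const_mul _), lintegral_const_mul _ hmm]
        change ∫⁻ r in Ioi (0 : ℝ), (∫⁻ s in Ioi (0 : ℝ), ENNReal.ofReal (M1 * M2) *
            (ENNReal.ofReal (r ^ (d - 1)) * (ENNReal.ofReal (s ^ (m - 1)) * ‖D r s‖ₑ))) < ⊤
        rw [hcon, lintegral_const_mul _ hIm2]
        exact ENNReal.mul_lt_top ENNReal.ofReal_lt_top (lt_top_iff_ne_top.2 hfinI)
      · exact (((measurable_fst.pow_const _).ennreal_ofReal).mul
          (((measurable_snd.pow_const _).ennreal_ofReal).mul hDm.enorm)).const_mul _ |>.aemeasurable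
    -- the ball sum
    have hball : ∫ ξ, F ξ = ∫ r in Ioi (0 : ℝ), ∫ s in Ioi (0 : ℝ), U r s := by
      obtain ⟨hprod, hsum⟩ := hspl3 F hFint
      rw [hsum]
      have hΦint : Integrable (fun τ : E d => ∫ η : E m, F (a τ + b η)) := hprod.integral_prod_left
      rw [(h2 d hd).2.1 _ hΦint]
      refine integral_congr_ae ?_
      have hae := ae_lt_top hIm2 hfinI
      filter_upwards [hae, ae_restrict_mem measurableSet_Ioi] with r hr1 hr2
      have hr0 : 0 < r := hr2
      have hI : ∫⁻ s in Ioi (0 : ℝ), ENNReal.ofReal (s ^ (m - 1)) * ‖D r s‖ₑ ≠ ⊤ := by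
        intro h4
        rw [h4, ENNReal.mul_top (by
          rw [Ne, ENNReal.ofReal_eq_zero, not_le]
          exact pow_pos hr0 _)] at hr1
        exact absurd hr1 (lt_irrefl _)
      have hin : ∀ ω : Metric.sphere (0 : E d) 1, ∫ η : E m, F (a (r • (ω : E d)) + b η) =
          ex (r • t) (ω : E d) * ∫ s in Ioi (0 : ℝ), ((s ^ (m - 1) : ℝ) : ℂ) *
            (D r s * A2 (s * ‖y‖)) := by
        intro ω
        have hmeas : Measurable (fun η : E m => F (a (r • (ω : E d)) + b η)) :=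
          hFm.comp (hab.measurable.comp (measurable_const.prodMk measurable_id))
        have hint : Integrable (fun η : E m => F (a (r • (ω : E d)) + b η)) := by
          refine ⟨hmeas.aestronglyMeasurable, ?_⟩
          rw [hasFiniteIntegral_iff_enorm, inner_pol h2 hm _ hmeas.enorm (fun s => ‖D r s‖ₑ)
            (hDm.comp (measurable_const.prodMk measurable_id)).enorm (fun s hs' ω' => ?_)]
          · exact ENNReal.mul_lt_top (measure_lt_top _ _) (lt_top_iff_ne_top.2 hI)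
          · rw [hFD r s hr0 hs' ω ω', enorm_mul, enorm_mul, ← ofReal_norm (ex t _),
              ← ofReal_norm (ex y _), norm_ex, norm_ex]
            simp
        rw [inner_polC h2 hm _ hint y (fun s => D r s * ex t (r • (ω : E d)))
          (fun s hs' ω' => by rw [hFD r s hr0 hs' ω ω']; ring), ← integral_const_mul]
        refine setIntegral_congr_fun measurableSet_Ioi fun s hs' => ?_
        have hs0 : 0 < s := hs'
        change ((s ^ (m - 1) : ℝ) : ℂ) * (D r s * ex t (r • (ω : E d)) * AA m (s • y)) = _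
        rw [hAA2, norm_smul, Real.norm_of_nonneg hs0.le, ex_smul]
        ring
      have hfun : (fun ω : Metric.sphere (0 : E d) 1 =>
          ∫ η : E m, F (a (r • (ω : E d)) + b η)) =
          fun ω : Metric.sphere (0 : E d) 1 => ex (r • t) (ω : E d) *
            ∫ s in Ioi (0 : ℝ), ((s ^ (m - 1) : ℝ) : ℂ) * (D r s * A2 (s * ‖y‖)) :=
        funext hin
      rw [hfun, integral_mul_const]
      have hAAt : ∫ ω : Metric.sphere (0 : E d) 1, ex (r • t) (ω : E d) ∂(sg d) =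
          A1 (r * ‖t‖) := by
        have := hAA1 (r • t)
        rw [norm_smul, Real.norm_of_nonneg hr0.le] at this
        exact this
      rw [hAAt, ← mul_assoc, ← integral_const_mul]
    -- the right side
    have hJJ : JJ (kk d A1) (kk m A2) (fun ρ σ => G ρ σ * ((ρ ^ α : ℝ) : ℂ) * ((σ ^ β : ℝ) : ℂ))
        R ‖t‖ ‖y‖ = ((‖t‖ ^ α : ℝ) : ℂ) * ((‖y‖ ^ β : ℝ) : ℂ) * ∫ z in Q, U z.1 z.2 := by
      have hset : QD R = Q ∩ {z : ℝ × ℝ | z.1 ^ 2 + z.2 ^ 2 ≤ R ^ 2} := by
        ext z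
        simp only [QD, Q, Set.mem_ofPred_eq, mem_inter_iff]
        tauto
      have hmset : MeasurableSet {z : ℝ × ℝ | z.1 ^ 2 + z.2 ^ 2 ≤ R ^ 2} :=
        measurableSet_le (by fun_prop) measurable_const
      unfold JJ
      rw [hset, ← setIntegral_indicator hmset, ← integral_const_mul]
      refine setIntegral_congr_fun hQm fun z hz => ?_
      have hz1 : 0 < z.1 := hz.1
      have hz2 : 0 < z.2 := hz.2
      by_cases hc : z.1 ^ 2 + z.2 ^ 2 ≤ R ^ 2
      · have hz' : z ∈ {z : ℝ × ℝ | z.1 ^ 2 + z.2 ^ 2 ≤ R ^ 2} := hc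
        have k4 : D z.1 z.2 = G z.1 z.2 := by
          rw [hD]
          simp only [if_pos hc]
        simp only [indicator_of_mem hz', kk, hU, k4]
        rw [← hα, ← hβ, Real.mul_rpow hz1.le hnt.le, Real.mul_rpow hz2.le hny.le,
          ← rpow_half_sq d hd hz1, ← rpow_half_sq m hm hz2, ← hα, ← hβ]
        push_cast
        ring
      · have hz' : z ∉ {z : ℝ × ℝ | z.1 ^ 2 + z.2 ^ 2 ≤ R ^ 2} := hc
        have k4 : D z.1 z.2 = 0 := by
          rw [hD]
          simp only [if_neg hc]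
        simp only [indicator_of_notMem hz', hU, k4, zero_mul, mul_zero]
    rw [hJJ, hBN, hball, hQ, integral_prod _ hUint]

end Pool.Agent.BIR
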