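import Pool.Agent.BIR.Targets2
import Pool.Agent.BIR.P_KER

set_option autoImplicit false

/-!
# BIR-KE1: representation of the ball sums of an axially symmetric function
-/

namespace Pool.Agent.BIR

open MeasureTheory FourierTransform Set Filter Topology
open scoped ENNReal NNReal ComplexConjugate
open Pool.Agent.MBS (E ex S)
open Pool.Agent.CAR (e1)
open Pool.Agent.CRN (sg T_POLN)
open Pool.Agent.CYL (Spl T_SPL)
open Pool.Agent.VRR (BN)

namespace KE1_

open KER_

/-- the line -/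
noncomputable def ln : ℝ ≃ₗᵢ[ℝ] E 1 := (OrthonormalBasis.singleton (Fin 1) ℝ).repr

theorem ln_apply (τ : ℝ) : (ln τ) 0 = τ := by
  unfold ln
  exact OrthonormalBasis.singleton_repr τ 0

theorem ln_norm (τ : ℝ) : ‖ln τ‖ = |τ| := by
  rw [LinearIsometryEquiv.norm_map, Real.norm_eq_abs]

theorem ln_mp : MeasurePreserving ln volume volume :=
  (OrthonormalBasis.singleton (Fin 1) ℝ).measurePreserving_repr

theorem lint_ln (Φ : E 1 → ℝ≥0∞) (hΦ : Measurable Φ) :
    ∫⁻ t, Φ t = ∫⁻ τ : ℝ, Φ (ln τ) :=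
  (ln_mp.lintegral_comp hΦ).symm

theorem int_ln (Φ : E 1 → ℂ) : ∫ t, Φ t = ∫ τ : ℝ, Φ (ln τ) :=
  (ln_mp.integral_comp ln.toHomeomorph.measurableEmbedding Φ).symm

theorem ex_ln (t : E 1) (τ : ℝ) : ex t (ln τ) = e1 (t 0 * τ) := by
  unfold ex e1
  have h : inner ℝ t (ln τ) = t 0 * τ := by
    rw [PiLp.inner_apply, Fin.sum_univ_one, ln_apply]
    simp [mul_comm]
  rw [h]

theorem norm_e1 (u : ℝ) : ‖e1 u‖ = 1 := by
  unfold e1
  have : (2 * Real.pi * Complex.I * (u : ℂ)) =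
      ((2 * Real.pi * u : ℝ) : ℂ) * Complex.I := by
    push_cast
    ring
  rw [this, Complex.norm_exp_ofReal_mul_I]

theorem meas_e1 (c : ℝ) : Measurable (fun z : ℝ × ℝ => e1 (c * z.1)) := by
  unfold e1
  fun_prop

theorem cylrad (h1 : T_SPL) (h2 : T_POLN) {n m : ℕ} (a : E 1 →ₗᵢ[ℝ] E n) (b : E m →ₗᵢ[ℝ] E n)
    (hs : Spl a b) (hm : 0 < m) (F : E n → ℝ≥0∞) (hF : Measurable F)
    (K : ℝ → ℝ → ℝ≥0∞) (hK : Measurable (fun z : ℝ × ℝ => K z.1 z.2))
    (hFK : ∀ r s : ℝ, 0 < s → ∀ (ω' : Metric.sphere (0 : E m) 1),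
      F (a (ln r) + b (s • (ω' : E m))) = K r s) :
    ∫⁻ ξ, F ξ = sg m univ * ∫⁻ r : ℝ, ∫⁻ s in Ioi (0 : ℝ),
      ENNReal.ofReal (s ^ (m - 1)) * K r s := by
  have hab : Measurable (fun q : E 1 × E m => a q.1 + b q.2) := by
    have h3 : Continuous (fun q : E 1 × E m => a q.1 + b q.2) :=
      (a.continuous.comp continuous_fst).add (b.continuous.comp continuous_snd)
    exact h3.measurable
  have hP : Measurable (fun t : E 1 => ∫⁻ y : E m, F (a t + b y)) :=
    Measurable.lintegral_prod_right' (f := fun q : E 1 × E m => F (a q.1 + b q.2)) (hF.comp hab)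
  have hJ : Measurable (fun r : ℝ =>
      ∫⁻ s in Ioi (0 : ℝ), ENNReal.ofReal (s ^ (m - 1)) * K r s) := by
    refine Measurable.lintegral_prod_right'
      (f := fun z : ℝ × ℝ => ENNReal.ofReal (z.2 ^ (m - 1)) * K z.1 z.2) ?_
    exact ((measurable_snd.pow_const _).ennreal_ofReal).mul hK
  rw [(h1 n 1 m a b hs).2.1 F hF, lint_ln _ hP, ← lintegral_const_mul _ hJ]
  refine lintegral_congr fun r => ?_
  exact inner_pol h2 hm _ (hF.comp (hab.comp (measurable_const.prodMk measurable_id)))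
      (fun s => K r s) (hK.comp (measurable_const.prodMk measurable_id))
      (fun s hs' ω' => hFK r s hs' ω')

theorem lint_split (κ : ℝ → ℝ≥0∞) (hκ : Measurable κ) :
    ∫⁻ τ : ℝ, κ τ = (∫⁻ ρ in Ioi (0 : ℝ), κ ρ) + ∫⁻ ρ in Ioi (0 : ℝ), κ (-ρ) := by
  rw [← lintegral_add_compl κ (measurableSet_Ioi (a := (0 : ℝ))), compl_Ioi]
  congr 1
  have h3 := (Measure.measurePreserving_neg (volume : Measure ℝ)).setLIntegral_comp_preimage
    (measurableSet_Iic (a := (0 : ℝ))) hκ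
  rw [← h3]
  have h4 : (Neg.neg : ℝ → ℝ) ⁻¹' (Iic 0) = Ici 0 := by
    ext x
    simp
  rw [h4]
  exact (setLIntegral_congr Ioi_ae_eq_Ici).symm

theorem int_split (V : ℝ → ℂ) (hV : Integrable V) :
    ∫ τ : ℝ, V τ = (∫ ρ in Ioi (0 : ℝ), V ρ) + ∫ ρ in Ioi (0 : ℝ), V (-ρ) := by
  rw [integral_comp_neg_Ioi, neg_zero, add_comm]
  exact (intervalIntegral.integral_Iic_add_Ioi hV.integrableOn hV.integrableOn).symm

theorem hQ : (volume : Measure (ℝ × ℝ)).restrict Q =
    (volume.restrict (Ioi (0 : ℝ))).prod (volume.restrict (Ioi (0 : ℝ))) := by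
  rw [Measure.prod_restrict]
  rfl

theorem hQm : MeasurableSet Q := by
  have : Q = Ioi (0 : ℝ) ×ˢ Ioi (0 : ℝ) := rfl
  rw [this]
  exact measurableSet_Ioi.prod measurableSet_Ioi

theorem partP (U : ℝ → ℝ → ℂ) (hU : Integrable (fun z : ℝ × ℝ => U z.1 z.2)
    ((volume : Measure ℝ).prod (volume.restrict (Ioi (0 : ℝ))))) :
    ∫ ρ in Ioi (0 : ℝ), ∫ s in Ioi (0 : ℝ), U ρ s = ∫ z in Q, U z.1 z.2 := by
  have h3 : Integrable (fun z : ℝ × ℝ => U z.1 z.2)
      ((volume.restrict (Ioi (0 : ℝ))).prod (volume.restrict (Ioi (0 : ℝ)))) := by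
    have h4 := hU.restrict (s := Ioi (0 : ℝ) ×ˢ univ)
    rw [← Measure.prod_restrict, Measure.restrict_univ] at h4
    exact h4
  rw [hQ, integral_prod _ h3]

theorem partI (U : ℝ → ℝ → ℂ) (hU : Integrable (fun z : ℝ × ℝ => U z.1 z.2)
    ((volume : Measure ℝ).prod (volume.restrict (Ioi (0 : ℝ))))) :
    ∫ r : ℝ, ∫ s in Ioi (0 : ℝ), U r s =
      (∫ z in Q, U z.1 z.2) + ∫ z in Q, U (-z.1) z.2 := by
  have hV : Integrable (fun r : ℝ => ∫ s in Ioi (0 : ℝ), U r s) := hU.integral_prod_left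
  have hN : Integrable (fun z : ℝ × ℝ => U (-z.1) z.2)
      ((volume : Measure ℝ).prod (volume.restrict (Ioi (0 : ℝ)))) := by
    have hmp : MeasurePreserving (Prod.map (Neg.neg : ℝ → ℝ) (id : ℝ → ℝ))
        ((volume : Measure ℝ).prod (volume.restrict (Ioi (0 : ℝ))))
        ((volume : Measure ℝ).prod (volume.restrict (Ioi (0 : ℝ)))) :=
      (Measure.measurePreserving_neg volume).prod (MeasurePreserving.id _)
    exact (hmp.integrable_comp hU.aestronglyMeasurable).2 hU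
  rw [int_split _ hV, partP U hU, partP (fun r s => U (-r) s) hN]

theorem partL {m : ℕ} (hm : 1 ≤ m) (K : ℝ → ℝ → ℂ) (hK : Measurable (fun z : ℝ × ℝ => K z.1 z.2)) :
    ∫⁻ r in Ioi (0 : ℝ), ∫⁻ s in Ioi (0 : ℝ), ENNReal.ofReal (s ^ (m - 1)) * ‖K r s‖ₑ ^ 2 =
      ∫⁻ z in Q, ‖K z.1 z.2 * ((z.2 ^ (((m : ℝ) - 1) / 2) : ℝ) : ℂ)‖ₑ ^ 2 := by
  have hpm : ∀ γ : ℝ, Measurable (fun r : ℝ => ((r ^ γ : ℝ) : ℂ)) := fun γ =>
    Complex.measurable_ofReal.comp (measurable_id.pow_const γ)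
  rw [hQ, lintegral_prod]
  · refine lintegral_congr fun r => ?_
    refine setLIntegral_congr_fun measurableSet_Ioi fun s hs' => ?_
    have hs'' : 0 < s := hs'
    change ENNReal.ofReal (s ^ (m - 1)) * ‖K r s‖ₑ ^ 2 =
      ‖K r s * ((s ^ (((m : ℝ) - 1) / 2) : ℝ) : ℂ)‖ₑ ^ 2
    rw [enorm_mul, enorm_real (Real.rpow_nonneg hs''.le _), ← rpow_half_sq m hm hs'',
      ENNReal.ofReal_mul (Real.rpow_nonneg hs''.le _)]
    ring
  · exact ((hK.mul ((hpm _).comp measurable_snd)).enorm.pow_const 2).aemeasurable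

theorem jjp {m : ℕ} (hm : 1 ≤ m) (K : ℝ → ℝ → ℂ) (A2 k : ℝ → ℂ) (W : ℝ × ℝ → ℂ) (R r ν : ℝ)
    (hν : 0 < ν)
    (hW1 : ∀ z ∈ Q, z.1 ^ 2 + z.2 ^ 2 ≤ R ^ 2 → W z =
      k (z.1 * r) * (((z.2 ^ (m - 1) : ℝ) : ℂ) * (K z.1 z.2 * A2 (z.2 * ν))))
    (hW2 : ∀ z ∈ Q, ¬ z.1 ^ 2 + z.2 ^ 2 ≤ R ^ 2 → W z = 0) :
    JJ k (kk m A2) (fun ρ σ => K ρ σ * ((σ ^ (((m : ℝ) - 1) / 2) : ℝ) : ℂ)) R r ν =
      ((ν ^ (((m : ℝ) - 1) / 2) : ℝ) : ℂ) * ∫ z in Q, W z := by
  have hset : QD R = Q ∩ {z : ℝ × ℝ | z.1 ^ 2 + z.2 ^ 2 ≤ R ^ 2} := by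
    ext z
    simp only [QD, Q, Set.mem_ofPred_eq, mem_inter_iff]
    tauto
  have hmset : MeasurableSet {z : ℝ × ℝ | z.1 ^ 2 + z.2 ^ 2 ≤ R ^ 2} :=
    measurableSet_le (by fun_prop) measurable_const
  unfold JJ
  rw [hset, ← setIntegral_indicator hmset, ← integral_const_mul]
  refine setIntegral_congr_fun hQm fun z hz => ?_
  have hz2 : 0 < z.2 := hz.2
  by_cases hc : z.1 ^ 2 + z.2 ^ 2 ≤ R ^ 2
  · have hz' : z ∈ {z : ℝ × ℝ | z.1 ^ 2 + z.2 ^ 2 ≤ R ^ 2} := hc
    simp only [indicator_of_mem hz', kk]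
    rw [hW1 z hz hc, Real.mul_rpow hz2.le hν.le, ← rpow_half_sq m hm hz2]
    push_cast
    ring
  · have hz' : z ∉ {z : ℝ × ℝ | z.1 ^ 2 + z.2 ^ 2 ≤ R ^ 2} := hc
    simp only [indicator_of_notMem hz']
    rw [hW2 z hz hc, mul_zero]

end KE1_

open KER_ KE1_ in
theorem p_KE1 (h1 : T_SPL) (h2 : T_POLN) : T_KE1 := by
  intro n m a b g A2 hm hs hg hfin hinv hA2 hAA2
  have : Nonempty (Fin m) := ⟨⟨0, hm⟩⟩
  have hfm : IsFiniteMeasure (sg m) := (h2 m hm).2.2
  obtain ⟨e', he'⟩ : ∃ e : E m, ‖e‖ = 1 := ⟨EuclideanSpace.single ⟨0, hm⟩ 1, by simp⟩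
  set G : ℝ → ℝ → ℂ := fun r s => g (a (ln r) + b (s • e')) with hGdef
  have hab : Continuous (fun q : E 1 × E m => a q.1 + b q.2) :=
    (a.continuous.comp continuous_fst).add (b.continuous.comp continuous_snd)
  have hGm : Measurable (fun z : ℝ × ℝ => G z.1 z.2) := by
    have h3 : Continuous (fun z : ℝ × ℝ => a (ln z.1) + b (z.2 • e')) :=
      (a.continuous.comp (ln.continuous.comp continuous_fst)).add
        (b.continuous.comp (continuous_snd.smul continuous_const))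
    exact hg.comp h3.measurable
  have hGm' : Measurable (fun z : ℝ × ℝ => G (-z.1) z.2) :=
    hGm.comp (measurable_fst.neg.prodMk measurable_snd)
  have hGinv : ∀ (r s : ℝ) (ω' : Metric.sphere (0 : E m) 1),
      g (a (ln r) + b (s • (ω' : E m))) = G r s := by
    intro r s ω'
    refine hinv _ _ _ ?_
    rw [norm_smul, norm_smul, he', mem_sphere_zero_iff_norm.1 ω'.2]
  have hpm : ∀ γ : ℝ, Measurable (fun r : ℝ => ((r ^ γ : ℝ) : ℂ)) := fun γ =>
    Complex.measurable_ofReal.comp (measurable_id.pow_const γ)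
  refine ⟨fun ρ σ => G ρ σ * ((σ ^ (((m : ℝ) - 1) / 2) : ℝ) : ℂ),
    fun ρ σ => G (-ρ) σ * ((σ ^ (((m : ℝ) - 1) / 2) : ℝ) : ℂ), ?_, ?_, ?_, ?_⟩
  · exact hGm.mul ((hpm _).comp measurable_snd)
  · exact hGm'.mul ((hpm _).comp measurable_snd)
  · rw [cylrad h1 h2 a b hs hm (fun ξ => ‖g ξ‖ₑ ^ 2) (hg.enorm.pow_const 2)
      (fun r s => ‖G r s‖ₑ ^ 2) (hGm.enorm.pow_const 2) (fun r s _ ω' => by
        rw [hGinv r s ω'])]
    congr 1
    have hJ : Measurable (fun r : ℝ =>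
        ∫⁻ s in Ioi (0 : ℝ), ENNReal.ofReal (s ^ (m - 1)) * ‖G r s‖ₑ ^ 2) := by
      refine Measurable.lintegral_prod_right'
        (f := fun z : ℝ × ℝ => ENNReal.ofReal (z.2 ^ (m - 1)) * ‖G z.1 z.2‖ₑ ^ 2) ?_
      exact ((measurable_snd.pow_const _).ennreal_ofReal).mul (hGm.enorm.pow_const 2)
    rw [lint_split _ hJ, partL hm G hGm, partL hm (fun r s => G (-r) s) hGm']
  · intro R r δ t y hR hr hδ ht0 hy
    have hny : 0 < ‖y‖ := norm_pos_iff.2 hy
    set x : E n := a t + b y with hx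
    set F : E n → ℂ := (Metric.closedBall (0 : E n) R).indicator (fun ξ => g ξ * ex x ξ) with hF
    have hgex : Measurable (fun ξ => g ξ * ex x ξ) := hg.mul (cont_ex x).measurable
    have hFm : Measurable F := hgex.indicator measurableSet_closedBall
    have hFint : Integrable F := by
      rw [hF, integrable_indicator_iff measurableSet_closedBall]
      have hL2 : MemLp g 2 volume := by
        refine ⟨hg.aestronglyMeasurable, ?_⟩
        rw [eLpNorm_lt_top_iff_lintegral_rpow_enorm_lt_top (by norm_num) (by norm_num)]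
        have h3 : (fun ξ => ‖g ξ‖ₑ ^ (2 : ℝ≥0∞).toReal) = fun ξ => ‖g ξ‖ₑ ^ 2 := by
          funext ξ
          rw [ENNReal.toReal_ofNat, ENNReal.rpow_ofNat]
        rw [h3]
        exact lt_top_iff_ne_top.2 hfin
      have : IsFiniteMeasure ((volume : Measure (E n)).restrict (Metric.closedBall 0 R)) :=
        ⟨by rw [Measure.restrict_apply_univ]; exact measure_closedBall_lt_top⟩
      have hg1 : Integrable g ((volume : Measure (E n)).restrict (Metric.closedBall 0 R)) :=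
        (hL2.restrict _).integrable (by norm_num)
      refine hg1.norm.mono' hgex.aestronglyMeasurable (ae_of_all _ fun ξ => ?_)
      rw [norm_mul, norm_ex, mul_one]
    have hBN : BN g R x = ∫ ξ, F ξ := by
      unfold BN
      rw [hF, integral_indicator measurableSet_closedBall]
    -- the cut off function
    set D : ℝ → ℝ → ℂ := fun r s => if r ^ 2 + s ^ 2 ≤ R ^ 2 then G r s else 0 with hD
    have hDm : Measurable (fun z : ℝ × ℝ => D z.1 z.2) := by
      refine Measurable.ite ?_ hGm measurable_const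
      exact measurableSet_le (by fun_prop) measurable_const
    obtain ⟨-, hspl2, hspl3, hspl4, hspl5⟩ := h1 n 1 m a b hs
    have hFD : ∀ r s : ℝ, 0 < s → ∀ (ω' : Metric.sphere (0 : E m) 1),
        F (a (ln r) + b (s • (ω' : E m))) =
          D r s * (e1 (t 0 * r) * ex y (s • (ω' : E m))) := by
      intro r s hs' ω'
      have hn : ‖a (ln r) + b (s • (ω' : E m))‖ ^ 2 = r ^ 2 + s ^ 2 := by
        rw [hspl5, norm_smul, ln_norm, mem_sphere_zero_iff_norm.1 ω'.2,
          Real.norm_of_nonneg hs'.le, mul_one, sq_abs]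
      have hmem : a (ln r) + b (s • (ω' : E m)) ∈ Metric.closedBall (0 : E n) R ↔
          r ^ 2 + s ^ 2 ≤ R ^ 2 := by
        rw [mem_closedBall_zero_iff, ← hn]
        exact (sq_le_sq₀ (norm_nonneg _) hR.le).symm
      by_cases hc : r ^ 2 + s ^ 2 ≤ R ^ 2
      · rw [hF, indicator_of_mem (hmem.2 hc), hD]
        simp only [if_pos hc]
        rw [hGinv r s ω', hx, hspl4, ex_ln]
      · rw [hF, indicator_of_notMem (fun h => hc (hmem.1 h)), hD]
        simp only [if_neg hc, zero_mul]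
    -- finiteness
    have hfinI : ∫⁻ r : ℝ,
        ∫⁻ s in Ioi (0 : ℝ), ENNReal.ofReal (s ^ (m - 1)) * ‖D r s‖ₑ ≠ ⊤ := by
      have h3 := cylrad h1 h2 a b hs hm (fun ξ => ‖F ξ‖ₑ) hFm.enorm
        (fun r s => ‖D r s‖ₑ) hDm.enorm (fun r s hs' ω' => by
          rw [hFD r s hs' ω', enorm_mul, enorm_mul]
          rw [← ofReal_norm (e1 _), ← ofReal_norm (ex y _), norm_ex, norm_e1]
          simp)
      intro h4
      rw [h4] at h3
      have h5 : ∫⁻ ξ, ‖F ξ‖ₑ ≠ ⊤ := (hasFiniteIntegral_iff_enorm.1 hFint.2).ne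
      rw [h3] at h5
      exact h5 (ENNReal.mul_top (sg_ne h2 hm))
    -- the integrand of two variables
    set U : ℝ → ℝ → ℂ := fun r s => e1 (t 0 * r) *
      (((s ^ (m - 1) : ℝ) : ℂ) * (D r s * A2 (s * ‖y‖))) with hU
    have hUm : Measurable (fun z : ℝ × ℝ => U z.1 z.2) := by
      have k2 : Measurable (fun z : ℝ × ℝ => ((z.2 ^ (m - 1) : ℝ) : ℂ)) :=
        Complex.measurable_ofReal.comp (measurable_snd.pow_const _)
      have k4 : Measurable (fun z : ℝ × ℝ => A2 (z.2 * ‖y‖)) :=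
        (hA2.comp (continuous_snd.mul continuous_const)).measurable
      exact (meas_e1 (t 0)).mul (k2.mul (hDm.mul k4))
    have hIm : Measurable (fun r : ℝ =>
        ∫⁻ s in Ioi (0 : ℝ), ENNReal.ofReal (s ^ (m - 1)) * ‖D r s‖ₑ) := by
      refine Measurable.lintegral_prod_right'
        (f := fun z : ℝ × ℝ => ENNReal.ofReal (z.2 ^ (m - 1)) * ‖D z.1 z.2‖ₑ) ?_
      exact ((measurable_snd.pow_const _).ennreal_ofReal).mul hDm.enorm
    have hUint : Integrable (fun z : ℝ × ℝ => U z.1 z.2)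
        ((volume : Measure ℝ).prod (volume.restrict (Ioi (0 : ℝ)))) := by
      obtain ⟨M2, hM2, hb2⟩ := bdd A2 hA2 (R * ‖y‖)
      refine ⟨hUm.aestronglyMeasurable, ?_⟩
      rw [hasFiniteIntegral_iff_enorm, lintegral_prod _ hUm.enorm.aemeasurable]
      have hle : ∫⁻ r : ℝ, ∫⁻ s in Ioi (0 : ℝ), ‖U r s‖ₑ ≤ ∫⁻ r : ℝ, ENNReal.ofReal M2 *
          ∫⁻ s in Ioi (0 : ℝ), (ENNReal.ofReal (s ^ (m - 1)) * ‖D r s‖ₑ) := by
        refine lintegral_mono fun r => ?_
        have hmm : Measurable (fun s : ℝ => ENNReal.ofReal (s ^ (m - 1)) * ‖D r s‖ₑ) :=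
          ((measurable_id.pow_const _).ennreal_ofReal).mul
            (hDm.comp (measurable_const.prodMk measurable_id)).enorm
        rw [← lintegral_const_mul _ hmm]
        refine setLIntegral_mono' measurableSet_Ioi fun s hs' => ?_
        have hz2 : 0 < s := hs'
        by_cases hc : r ^ 2 + s ^ 2 ≤ R ^ 2
        · have hs' : s ≤ R := by nlinarith [sq_nonneg r]
          have k2 : ‖A2 (s * ‖y‖)‖ ≤ M2 :=
            hb2 _ (by positivity) (mul_le_mul_of_nonneg_right hs' hny.le)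
          have k3 : ‖U r s‖ₑ = ENNReal.ofReal (s ^ (m - 1)) *
                (‖D r s‖ₑ * ENNReal.ofReal ‖A2 (s * ‖y‖)‖) := by
            rw [hU]
            simp only [enorm_mul]
            rw [enorm_real (pow_nonneg hz2.le _), ofReal_norm, ← ofReal_norm (e1 _), norm_e1,
              ENNReal.ofReal_one, one_mul]
          rw [k3]
          calc ENNReal.ofReal (s ^ (m - 1)) * (‖D r s‖ₑ * ENNReal.ofReal ‖A2 (s * ‖y‖)‖) ≤
              ENNReal.ofReal (s ^ (m - 1)) * (‖D r s‖ₑ * ENNReal.ofReal M2) := by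
                gcongr
            _ = _ := by ring
        · have k4 : D r s = 0 := by
            rw [hD]
            simp only [if_neg hc]
          rw [hU]
          simp only [k4, zero_mul, mul_zero, enorm_zero, le_refl]
      refine lt_of_le_of_lt hle ?_
      rw [lintegral_const_mul _ hIm]
      exact ENNReal.mul_lt_top ENNReal.ofReal_lt_top (lt_top_iff_ne_top.2 hfinI)
    -- the ball sum
    have hball : ∫ ξ, F ξ = ∫ r : ℝ, ∫ s in Ioi (0 : ℝ), U r s := by
      obtain ⟨hprod, hsum⟩ := hspl3 F hFint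
      rw [hsum, int_ln]
      refine integral_congr_ae ?_
      have hae := ae_lt_top hIm hfinI
      filter_upwards [hae] with r hr1
      have hmeas : Measurable (fun η : E m => F (a (ln r) + b η)) :=
        hFm.comp (hab.measurable.comp (measurable_const.prodMk measurable_id))
      have hint : Integrable (fun η : E m => F (a (ln r) + b η)) := by
        refine ⟨hmeas.aestronglyMeasurable, ?_⟩
        rw [hasFiniteIntegral_iff_enorm, inner_pol h2 hm _ hmeas.enorm (fun s => ‖D r s‖ₑ)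
          (hDm.comp (measurable_const.prodMk measurable_id)).enorm (fun s hs' ω' => ?_)]
        · exact ENNReal.mul_lt_top (measure_lt_top _ _) hr1
        · rw [hFD r s hs' ω', enorm_mul, enorm_mul, ← ofReal_norm (e1 _),
            ← ofReal_norm (ex y _), norm_ex, norm_e1]
          simp
      rw [inner_polC h2 hm _ hint y (fun s => D r s * e1 (t 0 * r))
        (fun s hs' ω' => by rw [hFD r s hs' ω']; ring)]
      refine setIntegral_congr_fun measurableSet_Ioi fun s hs' => ?_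
      have hs0 : 0 < s := hs'
      change ((s ^ (m - 1) : ℝ) : ℂ) * (D r s * e1 (t 0 * r) * AA m (s • y)) =
        e1 (t 0 * r) * (((s ^ (m - 1) : ℝ) : ℂ) * (D r s * A2 (s * ‖y‖)))
      rw [hAA2, norm_smul, Real.norm_of_nonneg hs0.le]
      ring
    have hJ1 := jjp hm G A2 (fun u => e1 (δ * u)) (fun z => U z.1 z.2) R r ‖y‖ hny
      (fun z hz hc => by
        have k4 : D z.1 z.2 = G z.1 z.2 := by
          rw [hD]
          simp only [if_pos hc]
        simp only [hU, k4]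
        rw [ht0]
        congr 2
        ring)
      (fun z hz hc => by
        have k4 : D z.1 z.2 = 0 := by
          rw [hD]
          simp only [if_neg hc]
        simp only [hU, k4, zero_mul, mul_zero])
    have hJ2 := jjp hm (fun ρ σ => G (-ρ) σ) A2 (fun u => e1 (-δ * u))
      (fun z => U (-z.1) z.2) R r ‖y‖ hny
      (fun z hz hc => by
        have hc' : (-z.1) ^ 2 + z.2 ^ 2 ≤ R ^ 2 := by
          rw [neg_sq]
          exact hc
        have k4 : D (-z.1) z.2 = G (-z.1) z.2 := by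
          rw [hD]
          simp only [if_pos hc']
        simp only [hU, k4]
        rw [ht0]
        congr 2
        ring)
      (fun z hz hc => by
        have hc' : ¬ (-z.1) ^ 2 + z.2 ^ 2 ≤ R ^ 2 := by
          rw [neg_sq]
          exact hc
        have k4 : D (-z.1) z.2 = 0 := by
          rw [hD]
          simp only [if_neg hc']
        simp only [hU, k4, zero_mul, mul_zero])
    rw [hJ1, hJ2, hBN, hball, partI U hUint, mul_add]

end Pool.Agent.BIR
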