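import Pool.Agent.BIR.Targets

set_option autoImplicit false

/-!
# BIR, PPL: the planar terms

The planar theorem (PGF) for the function `H` on the open quadrant, extended by zero.
-/

namespace Pool.Agent.BIR

open MeasureTheory FourierTransform Set Filter Topology
open scoped ENNReal NNReal ComplexConjugate
open Pool.Agent.MBS (E ex S)
open Pool.Agent.CAR (e1)
open Pool.Agent.CRW (L3 T_GRW T_GS1)
open Pool.Agent.VRR (BN)

namespace PPL_

/-- the equivalence of `ℝ × ℝ` with the Euclidean plane -/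
noncomputable def eqv : ℝ × ℝ ≃ᵐ E 2 :=
  MeasurableEquiv.finTwoArrow.symm.trans (MeasurableEquiv.toLp 2 (Fin 2 → ℝ))

theorem mp : MeasurePreserving eqv (volume : Measure (ℝ × ℝ)) (volume : Measure (E 2)) := by
  have h1 := (volume_preserving_finTwoArrow ℝ).symm MeasurableEquiv.finTwoArrow
  have h2 := (EuclideanSpace.volume_preserving_symm_measurableEquiv_toLp (Fin 2)).symm
  exact h2.comp h1

theorem eqv_zero (z : ℝ × ℝ) : eqv z 0 = z.1 := by simp [eqv, MeasurableEquiv.finTwoArrow]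

theorem eqv_one (z : ℝ × ℝ) : eqv z 1 = z.2 := by simp [eqv, MeasurableEquiv.finTwoArrow]

theorem norm_eqv (z : ℝ × ℝ) : ‖eqv z‖ = Real.sqrt (z.1 ^ 2 + z.2 ^ 2) := by
  rw [EuclideanSpace.norm_eq, Fin.sum_univ_two, eqv_zero, eqv_one, Real.norm_eq_abs,
    Real.norm_eq_abs, sq_abs, sq_abs]

/-- reflections of the line -/
theorem rfl_exists {ε : ℝ} (h : ε = 1 ∨ ε = -1) :
    ∃ e : ℝ ≃ᵐ ℝ, MeasurePreserving e volume volume ∧ ∀ u, e u = ε * u := by
  rcases h with rfl | rfl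
  · exact ⟨MeasurableEquiv.refl ℝ, MeasurePreserving.id _, fun u => by simp⟩
  · exact ⟨MeasurableEquiv.neg ℝ, Measure.measurePreserving_neg volume, fun u => by simp⟩

theorem meas_Q : MeasurableSet Q :=
  (measurableSet_lt measurable_const measurable_fst).inter
    (measurableSet_lt measurable_const measurable_snd)

theorem meas_QD (R : ℝ) : MeasurableSet (QD R) := by
  have h : Measurable fun z : ℝ × ℝ => z.1 ^ 2 + z.2 ^ 2 := by fun_prop
  exact (measurableSet_lt measurable_const measurable_fst).inter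
    ((measurableSet_lt measurable_const measurable_snd).inter
      (measurableSet_le h measurable_const))

/-- the function `H` on the quadrant, zero elsewhere -/
noncomputable def gH (H : ℝ → ℝ → ℂ) (ξ : E 2) : ℂ :=
  Q.indicator (fun z => H z.1 z.2) (ξ 0, ξ 1)

theorem gH_meas {H : ℝ → ℝ → ℂ} (hH : Measurable (fun z : ℝ × ℝ => H z.1 z.2)) :
    Measurable (gH H) := by
  have h1 : Continuous fun ξ : E 2 => (ξ 0, ξ 1) := by fun_prop
  exact (hH.indicator meas_Q).comp h1.measurable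

theorem gH_eqv (H : ℝ → ℝ → ℂ) (z : ℝ × ℝ) :
    gH H (eqv z) = Q.indicator (fun z => H z.1 z.2) z := by
  unfold gH
  rw [eqv_zero, eqv_one]

theorem gH_int (H : ℝ → ℝ → ℂ) : ∫⁻ ξ, ‖gH H ξ‖ₑ ^ 2 = ∫⁻ z in Q, ‖H z.1 z.2‖ₑ ^ 2 := by
  rw [← mp.lintegral_comp_emb eqv.measurableEmbedding, ← lintegral_indicator meas_Q]
  refine lintegral_congr fun z => ?_
  rw [gH_eqv]
  by_cases hz : z ∈ Q
  · rw [indicator_of_mem hz, indicator_of_mem hz]
  · rw [indicator_of_notMem hz, indicator_of_notMem hz, enorm_zero]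
    simp

theorem ex_eqv (x : E 2) (z : ℝ × ℝ) : ex x (eqv z) = e1 (x 0 * z.1) * e1 (x 1 * z.2) := by
  unfold ex e1
  rw [← Complex.exp_add]
  congr 1
  rw [PiLp.inner_apply, Fin.sum_univ_two, eqv_zero, eqv_one]
  simp only [RCLike.inner_apply, conj_trivial]
  push_cast
  ring

theorem BN_eq (H : ℝ → ℝ → ℂ) {R r s ε ε' : ℝ} (hR : 0 < R) (x : E 2) (h0 : x 0 = ε * r)
    (h1 : x 1 = ε' * s) :
    BN (gH H) R x = JJ (fun u => e1 (ε * u)) (fun u => e1 (ε' * u)) H R r s := by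
  unfold BN JJ
  rw [← integral_indicator Metric.isClosed_closedBall.measurableSet,
    ← mp.integral_comp eqv.measurableEmbedding, ← integral_indicator (meas_QD R)]
  congr 1
  funext z
  by_cases hz : z ∈ QD R
  · have hQ : z ∈ Q := ⟨hz.1, hz.2.1⟩
    have hb : eqv z ∈ Metric.closedBall (0 : E 2) R := by
      rw [mem_closedBall_zero_iff, norm_eqv]
      rw [Real.sqrt_le_left hR.le]
      exact hz.2.2
    have e2 : ε * r * z.1 = ε * (z.1 * r) := by ring
    have e3 : ε' * s * z.2 = ε' * (z.2 * s) := by ring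
    rw [indicator_of_mem hz, indicator_of_mem hb, gH_eqv, indicator_of_mem hQ, ex_eqv, h0, h1,
      e2, e3, ← mul_assoc]
  · rw [indicator_of_notMem hz]
    by_cases hQ : z ∈ Q
    · have hb : eqv z ∉ Metric.closedBall (0 : E 2) R := by
        rw [mem_closedBall_zero_iff, norm_eqv, Real.sqrt_le_left hR.le]
        exact fun h => hz ⟨hQ.1, hQ.2, h⟩
      rw [indicator_of_notMem hb]
    · have hg : gH H (eqv z) = 0 := by rw [gH_eqv, indicator_of_notMem hQ]
      by_cases hb : eqv z ∈ Metric.closedBall (0 : E 2) R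
      · rw [indicator_of_mem hb, hg, zero_mul]
      · rw [indicator_of_notMem hb]

end PPL_

open PPL_ in
/-- **PPL** -/
theorem p_PPL (h1 : T_PGF) (h2 : T_GRW) (h3 : T_GS1) : T_PPL := by
  obtain ⟨C, hC⟩ := h1 h2 h3
  refine ⟨C + 1, fun H ε ε' hH hε hε' => ?_⟩
  by_cases ht : ∫⁻ z in Q, ‖H z.1 z.2‖ₑ ^ 2 = ⊤
  · rw [ht]
    have : ((C + 1 : ℝ≥0) : ℝ≥0∞) ≠ 0 := by
      push_cast
      simp
    rw [ENNReal.mul_top this]
    exact le_top
  obtain ⟨e, he, he1⟩ := rfl_exists hε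
  obtain ⟨e', he', he1'⟩ := rfl_exists hε'
  have hg : ∫⁻ ξ, ‖gH H ξ‖ₑ ^ 2 ≠ ⊤ := by rwa [gH_int]
  have h := hC (gH H) (gH_meas hH) hg
  rw [gH_int] at h
  set F : E 2 → ℝ≥0∞ := fun x => (⨆ (R : ℝ) (_ : 0 < R),
    ‖BN (gH H) R x‖ₑ / ENNReal.ofReal (L3 (R * ‖x‖) ^ 6)) ^ 2 with hF
  let ψ : ℝ × ℝ ≃ᵐ E 2 := (MeasurableEquiv.prodCongr e e').trans eqv
  have hψ : MeasurePreserving ψ (volume : Measure (ℝ × ℝ)) (volume : Measure (E 2)) :=
    mp.comp (he.prod he')
  have hsq : ε ^ 2 = 1 := by rcases hε with rfl | rfl <;> norm_num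
  have hsq' : ε' ^ 2 = 1 := by rcases hε' with rfl | rfl <;> norm_num
  have hval : ∀ z : ℝ × ℝ, ψ z = eqv (ε * z.1, ε' * z.2) := by
    intro z
    have : ψ z = eqv (e z.1, e' z.2) := rfl
    rw [this, he1, he1']
  have hpt : ∀ z : ℝ × ℝ, (⨆ (R : ℝ) (_ : 0 < R),
      ‖JJ (fun u => e1 (ε * u)) (fun u => e1 (ε' * u)) H R z.1 z.2‖ₑ /
      ENNReal.ofReal (L3 (R * Real.sqrt (z.1 ^ 2 + z.2 ^ 2)) ^ 6)) ^ 2 = F (ψ z) := by
    intro z
    rw [hF, hval]
    have hn : ‖eqv (ε * z.1, ε' * z.2)‖ = Real.sqrt (z.1 ^ 2 + z.2 ^ 2) := by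
      rw [norm_eqv]
      congr 1
      simp only [mul_pow, hsq, hsq', one_mul]
    simp only [hn]
    congr 1
    refine iSup_congr fun R => iSup_congr fun hR => ?_
    rw [BN_eq H hR (eqv (ε * z.1, ε' * z.2)) (eqv_zero _) (eqv_one _)]
  simp only [hpt]
  calc ∫⁻ z in Q, F (ψ z) ≤ ∫⁻ z, F (ψ z) := setLIntegral_le_lintegral _ _
    _ = ∫⁻ x, F x := hψ.lintegral_comp_emb ψ.measurableEmbedding F
    _ ≤ C * ∫⁻ z in Q, ‖H z.1 z.2‖ₑ ^ 2 := h
    _ ≤ _ := by
        refine mul_le_mul' ?_ le_rfl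
        push_cast
        exact le_self_add

end Pool.Agent.BIR
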