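import Pool.Agent.BIR.Targets2
import Pool.Agent.BIR.P_PPL

set_option autoImplicit false

/-!
# BIR, NI1: the three terms
-/

namespace Pool.Agent.BIR

open MeasureTheory FourierTransform Set Filter Topology
open scoped ENNReal NNReal ComplexConjugate
open Pool.Agent.CAR (e1)
open Pool.Agent.CRN (T_CARLS)
open Pool.Agent.CRW (L3)

namespace NI1_

theorem norm_e1 (x : ℝ) : ‖e1 x‖ = 1 := by
  unfold e1
  rw [show (2 * Real.pi * Complex.I * (x : ℂ)) = ((2 * Real.pi * x : ℝ) : ℂ) * Complex.I by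
    push_cast; ring, Complex.norm_exp_ofReal_mul_I]

theorem continuous_e1 : Continuous e1 := by
  unfold e1
  fun_prop

theorem one_le_L3 {t : ℝ} (ht : 0 ≤ t) : 1 ≤ L3 t := by
  unfold L3
  have h1 : 0 ≤ Real.log (3 + t) := Real.log_nonneg (by linarith)
  rw [Real.le_log_iff_exp_le (by linarith)]
  linarith [Real.exp_one_lt_d9]

theorem W_pos {R : ℝ} (hR : 0 ≤ R) (z : ℝ × ℝ) :
    1 ≤ L3 (R * Real.sqrt (z.1 ^ 2 + z.2 ^ 2)) ^ 6 :=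
  one_le_pow₀ (one_le_L3 (mul_nonneg hR (Real.sqrt_nonneg _)))

theorem W_cont {R : ℝ} (hR : 0 ≤ R) :
    Continuous (fun z : ℝ × ℝ => L3 (R * Real.sqrt (z.1 ^ 2 + z.2 ^ 2)) ^ 6) := by
  have h0 : ∀ z : ℝ × ℝ, 0 ≤ R * Real.sqrt (z.1 ^ 2 + z.2 ^ 2) := fun z =>
    mul_nonneg hR (Real.sqrt_nonneg _)
  have h1 : Continuous (fun z : ℝ × ℝ => Real.log (3 + R * Real.sqrt (z.1 ^ 2 + z.2 ^ 2))) := by
    refine Continuous.log (by fun_prop) fun z => ?_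
    have := h0 z
    positivity
  have h2 : ∀ z : ℝ × ℝ, 0 ≤ Real.log (3 + R * Real.sqrt (z.1 ^ 2 + z.2 ^ 2)) := fun z =>
    Real.log_nonneg (by linarith [h0 z])
  unfold L3
  refine Continuous.pow (Continuous.log (by fun_prop) fun z => ?_) 6
  have := h2 z
  positivity

theorem QD_fin (R : ℝ) : volume (QD R) < ⊤ := by
  have h : QD R ⊆ Icc (0 : ℝ) |R| ×ˢ Icc (0 : ℝ) |R| := by
    rintro z ⟨h1, h2, h3⟩
    refine ⟨⟨h1.le, ?_⟩, ⟨h2.le, ?_⟩⟩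
    · have : z.1 ^ 2 ≤ R ^ 2 := by nlinarith [sq_nonneg z.2]
      exact (le_abs_self _).trans (sq_le_sq.mp this)
    · have : z.2 ^ 2 ≤ R ^ 2 := by nlinarith [sq_nonneg z.1]
      exact (le_abs_self _).trans (sq_le_sq.mp this)
  exact lt_of_le_of_lt (measure_mono h) (isCompact_Icc.prod isCompact_Icc).measure_lt_top

theorem le_one_add_sq (x : ℝ≥0∞) : x ≤ 1 + x ^ 2 := by
  rcases le_total x 1 with h | h
  · exact h.trans le_self_add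
  · calc x = x * 1 := (mul_one x).symm
      _ ≤ x * x := by gcongr
      _ = x ^ 2 := (sq x).symm
      _ ≤ _ := le_add_self

theorem H_int {H : ℝ → ℝ → ℂ} (hH : Measurable (fun z : ℝ × ℝ => H z.1 z.2))
    (hf : ∫⁻ z in Q, ‖H z.1 z.2‖ₑ ^ 2 ≠ ⊤) (R : ℝ) :
    Integrable (fun z : ℝ × ℝ => H z.1 z.2) (volume.restrict (QD R)) := by
  refine ⟨hH.aestronglyMeasurable, ?_⟩
  have hs : QD R ⊆ Q := fun z hz => ⟨hz.1, hz.2.1⟩
  calc ∫⁻ z in QD R, ‖H z.1 z.2‖ₑ ≤ ∫⁻ z in QD R, (1 + ‖H z.1 z.2‖ₑ ^ 2) :=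
        lintegral_mono fun z => le_one_add_sq _
    _ = (∫⁻ _ in QD R, 1) + ∫⁻ z in QD R, ‖H z.1 z.2‖ₑ ^ 2 :=
        lintegral_add_left measurable_const _
    _ ≤ volume (QD R) + ∫⁻ z in Q, ‖H z.1 z.2‖ₑ ^ 2 := by
        refine add_le_add ?_ (lintegral_mono_set hs)
        rw [setLIntegral_one]
    _ < ⊤ := ENNReal.add_lt_top.mpr ⟨QD_fin R, lt_top_iff_ne_top.mpr hf⟩

theorem JJ_int {H : ℝ → ℝ → ℂ} (hH : Measurable (fun z : ℝ × ℝ => H z.1 z.2))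
    (hf : ∫⁻ z in Q, ‖H z.1 z.2‖ₑ ^ 2 ≠ ⊤) (R : ℝ) {k1 k2 : ℝ → ℂ} (h1 : Continuous k1)
    (h2 : Continuous k2) (hb1 : ∀ u, 0 < u → ‖k1 u‖ ≤ 1) (hb2 : ∀ u, 0 < u → ‖k2 u‖ ≤ 1)
    {r s : ℝ} (hr : 0 < r) (hs : 0 < s) :
    Integrable (fun z : ℝ × ℝ => H z.1 z.2 * k1 (z.1 * r) * k2 (z.2 * s))
      (volume.restrict (QD R)) := by
  have hc1 : Continuous fun z : ℝ × ℝ => k1 (z.1 * r) := by fun_prop
  have hc2 : Continuous fun z : ℝ × ℝ => k2 (z.2 * s) := by fun_prop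
  refine (H_int hH hf R).mono
    ((hH.mul hc1.measurable).mul hc2.measurable).aestronglyMeasurable ?_
  refine (ae_restrict_iff' (PPL_.meas_QD R)).mpr (Eventually.of_forall fun z hz => ?_)
  have e1' := hb1 (z.1 * r) (mul_pos hz.1 hr)
  have e2' := hb2 (z.2 * s) (mul_pos hz.2.1 hs)
  rw [norm_mul, norm_mul]
  calc ‖H z.1 z.2‖ * ‖k1 (z.1 * r)‖ * ‖k2 (z.2 * s)‖ ≤ ‖H z.1 z.2‖ * 1 * 1 := by gcongr
    _ = _ := by ring

theorem JJ_cont {H : ℝ → ℝ → ℂ} (hH : Measurable (fun z : ℝ × ℝ => H z.1 z.2))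
    (hf : ∫⁻ z in Q, ‖H z.1 z.2‖ₑ ^ 2 ≠ ⊤) (R : ℝ) {k1 k2 : ℝ → ℂ} (h1 : Continuous k1)
    (h2 : Continuous k2) (hb1 : ∀ u, ‖k1 u‖ ≤ 1) (hb2 : ∀ u, ‖k2 u‖ ≤ 1) :
    Continuous (fun p : ℝ × ℝ => JJ k1 k2 H R p.1 p.2) := by
  unfold JJ
  refine continuous_of_dominated (bound := fun z => ‖H z.1 z.2‖) ?_ ?_ (H_int hH hf R).norm ?_
  · intro p
    have hc1 : Continuous fun z : ℝ × ℝ => k1 (z.1 * p.1) := by fun_prop
    have hc2 : Continuous fun z : ℝ × ℝ => k2 (z.2 * p.2) := by fun_prop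
    exact ((hH.mul hc1.measurable).mul hc2.measurable).aestronglyMeasurable
  · intro p
    refine Eventually.of_forall fun z => ?_
    rw [norm_mul, norm_mul]
    calc ‖H z.1 z.2‖ * ‖k1 (z.1 * p.1)‖ * ‖k2 (z.2 * p.2)‖ ≤ ‖H z.1 z.2‖ * 1 * 1 := by
          gcongr
          · exact hb1 _
          · exact hb2 _
      _ = _ := by ring
  · refine Eventually.of_forall fun z => ?_
    have hc1 : Continuous fun p : ℝ × ℝ => k1 (z.1 * p.1) := by fun_prop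
    have hc2 : Continuous fun p : ℝ × ℝ => k2 (z.2 * p.2) := by fun_prop
    exact (continuous_const.mul hc1).mul hc2

theorem G_meas {H : ℝ → ℝ → ℂ} (hH : Measurable (fun z : ℝ × ℝ => H z.1 z.2))
    (hf : ∫⁻ z in Q, ‖H z.1 z.2‖ₑ ^ 2 ≠ ⊤) {k1 k2 : ℝ → ℂ} (h1 : Continuous k1)
    (h2 : Continuous k2) (hb1 : ∀ u, ‖k1 u‖ ≤ 1) (hb2 : ∀ u, ‖k2 u‖ ≤ 1) :
    Measurable (fun z : ℝ × ℝ => ⨆ (R : ℝ) (_ : 0 < R), ‖JJ k1 k2 H R z.1 z.2‖ₑ /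
      ENNReal.ofReal (L3 (R * Real.sqrt (z.1 ^ 2 + z.2 ^ 2)) ^ 6)) := by
  apply LowerSemicontinuous.measurable
  refine lowerSemicontinuous_iSup fun R => lowerSemicontinuous_iSup fun hR =>
    Continuous.lowerSemicontinuous ?_
  have hW : ∀ z : ℝ × ℝ, 0 < L3 (R * Real.sqrt (z.1 ^ 2 + z.2 ^ 2)) ^ 6 := fun z =>
    lt_of_lt_of_le one_pos (W_pos hR.le z)
  have he : (fun z : ℝ × ℝ => ‖JJ k1 k2 H R z.1 z.2‖ₑ /
      ENNReal.ofReal (L3 (R * Real.sqrt (z.1 ^ 2 + z.2 ^ 2)) ^ 6)) =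
      fun z : ℝ × ℝ => ENNReal.ofReal (‖JJ k1 k2 H R z.1 z.2‖ /
        L3 (R * Real.sqrt (z.1 ^ 2 + z.2 ^ 2)) ^ 6) := by
    funext z
    rw [ENNReal.ofReal_div_of_pos (hW z), ofReal_norm]
  rw [he]
  exact ENNReal.continuous_ofReal.comp
    ((JJ_cont hH hf R h1 h2 hb1 hb2).norm.div (W_cont hR.le) fun z => (hW z).ne')

theorem sq3 (a b c : ℝ≥0∞) : (a + b + c) ^ 2 ≤ 9 * (a ^ 2 + b ^ 2 + c ^ 2) := by
  have key : ∀ M : ℝ≥0∞, a ≤ M → b ≤ M → c ≤ M → M ^ 2 ≤ a ^ 2 + b ^ 2 + c ^ 2 →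
      (a + b + c) ^ 2 ≤ 9 * (a ^ 2 + b ^ 2 + c ^ 2) := by
    intro M ha hb hc hM
    calc (a + b + c) ^ 2 ≤ (M + M + M) ^ 2 := by gcongr
      _ = 9 * M ^ 2 := by ring
      _ ≤ _ := by gcongr
  rcases le_total a b with h | h
  · rcases le_total b c with h' | h'
    · exact key c (h.trans h') h' le_rfl le_add_self
    · exact key b h le_rfl h' (le_add_right le_add_self)
  · rcases le_total a c with h' | h'
    · exact key c h' (h.trans h') le_rfl le_add_self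
    · exact key a le_rfl h h' (le_add_right le_self_add)

end NI1_

open NI1_ in
/-- **NI1** -/
theorem p_NI1 (h1 : T_PPL) (h2 : T_PMX) (h3 : T_CARLS) : T_NI1 := by
  intro m _ hA
  obtain ⟨A, b, c1, c2, C0, hAc, hbc, hAA, hk⟩ := hA
  obtain ⟨CP, hCP⟩ := h1
  obtain ⟨CM, hCM⟩ := h2 h3
  set K : ℝ := |C0| + 1 with hKdef
  have hK : 0 < K := by positivity
  have hKC : (K : ℂ) ≠ 0 := by exact_mod_cast hK.ne'
  let k : ℝ → ℂ := fun u => b u / (K : ℂ)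
  have hkc : Continuous k := hbc.div_const _
  have hkb : ∀ u, 0 < u → ‖k u‖ ≤ 1 / (1 + u) := by
    intro u hu
    have h := (hk u hu).2
    have hu1 : 0 < 1 + u := by linarith
    change ‖b u / (K : ℂ)‖ ≤ _
    rw [norm_div, Complex.norm_real, Real.norm_of_nonneg hK.le, div_le_iff₀ hK]
    refine h.trans ?_
    rw [div_mul_eq_mul_div, one_mul]
    gcongr
    rw [hKdef]
    linarith [le_abs_self C0]
  have hkb1 : ∀ u, 0 < u → ‖k u‖ ≤ 1 := fun u hu => (hkb u hu).trans (by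
    rw [div_le_one (by linarith)]; linarith)
  refine ⟨A, 9 * (‖c1‖₊ ^ 2 * CP + ‖c2‖₊ ^ 2 * CP + K.toNNReal ^ 2 * CM), hAc, hAA, ?_⟩
  intro H ε hH hfin hε
  have hce : ∀ δ : ℝ, Continuous (fun u => e1 (δ * u)) := fun δ =>
    continuous_e1.comp (continuous_const.mul continuous_id)
  have hbe : ∀ δ u : ℝ, ‖e1 (δ * u)‖ ≤ 1 := fun δ u => (norm_e1 _).le
  set F1 : ℝ × ℝ → ℝ≥0∞ := fun z => ⨆ (R : ℝ) (_ : 0 < R),
    ‖JJ (fun u => e1 (ε * u)) (fun u => e1 (1 * u)) H R z.1 z.2‖ₑ /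
      ENNReal.ofReal (L3 (R * Real.sqrt (z.1 ^ 2 + z.2 ^ 2)) ^ 6) with hF1
  set F2 : ℝ × ℝ → ℝ≥0∞ := fun z => ⨆ (R : ℝ) (_ : 0 < R),
    ‖JJ (fun u => e1 (ε * u)) (fun u => e1 (-1 * u)) H R z.1 z.2‖ₑ /
      ENNReal.ofReal (L3 (R * Real.sqrt (z.1 ^ 2 + z.2 ^ 2)) ^ 6) with hF2
  set F3 : ℝ × ℝ → ℝ≥0∞ := fun z => ⨆ (R : ℝ) (_ : 0 < R),
    ‖JJ (fun u => e1 (ε * u)) k H R z.1 z.2‖ₑ with hF3
  have m1 : Measurable F1 := G_meas hH hfin (hce ε) (hce 1) (hbe ε) (hbe 1)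
  have m2 : Measurable F2 := G_meas hH hfin (hce ε) (hce (-1)) (hbe ε) (hbe (-1))
  have i1 := hCP H ε 1 hH hε (Or.inl rfl)
  have i2 := hCP H ε (-1) hH hε (Or.inr rfl)
  have i3 := (hCM H k k ε hH hkc hkc hkb hkb hε).2.1
  -- the decomposition
  have hdec : ∀ (R r s : ℝ), 0 < r → 0 < s →
      JJ (fun u => e1 (ε * u)) (kk m A) H R r s =
        c1 * JJ (fun u => e1 (ε * u)) (fun u => e1 (1 * u)) H R r s +
        c2 * JJ (fun u => e1 (ε * u)) (fun u => e1 (-1 * u)) H R r s +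
        (K : ℂ) * JJ (fun u => e1 (ε * u)) k H R r s := by
    intro R r s hr hs
    have j1 := JJ_int hH hfin R (hce ε) (hce 1) (fun u _ => hbe ε u) (fun u _ => hbe 1 u) hr hs
    have j2 := JJ_int hH hfin R (hce ε) (hce (-1)) (fun u _ => hbe ε u)
      (fun u _ => hbe (-1) u) hr hs
    have j3 := JJ_int hH hfin R (hce ε) hkc (fun u _ => hbe ε u) hkb1 hr hs
    set f1 : ℝ × ℝ → ℂ := fun z => H z.1 z.2 * e1 (ε * (z.1 * r)) * e1 (1 * (z.2 * s)) with hf1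
    set f2 : ℝ × ℝ → ℂ := fun z => H z.1 z.2 * e1 (ε * (z.1 * r)) * e1 (-1 * (z.2 * s)) with hf2
    set f3 : ℝ × ℝ → ℂ := fun z => H z.1 z.2 * e1 (ε * (z.1 * r)) * k (z.2 * s) with hf3
    have s1 : JJ (fun u => e1 (ε * u)) (fun u => e1 (1 * u)) H R r s = ∫ z in QD R, f1 z := rfl
    have s2 : JJ (fun u => e1 (ε * u)) (fun u => e1 (-1 * u)) H R r s = ∫ z in QD R, f2 z := rfl
    have s3 : JJ (fun u => e1 (ε * u)) k H R r s = ∫ z in QD R, f3 z := rfl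
    have t1 : ∫ z in QD R, (c1 * f1 z + c2 * f2 z + (K : ℂ) * f3 z) =
        c1 * (∫ z in QD R, f1 z) + c2 * (∫ z in QD R, f2 z) + (K : ℂ) * (∫ z in QD R, f3 z) := by
      rw [integral_add (f := fun z => c1 * f1 z + c2 * f2 z) (g := fun z => (K : ℂ) * f3 z)
          ((j1.const_mul c1).add (j2.const_mul c2)) (j3.const_mul (K : ℂ)),
        integral_add (f := fun z => c1 * f1 z) (g := fun z => c2 * f2 z)
          (j1.const_mul c1) (j2.const_mul c2), integral_const_mul, integral_const_mul,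
        integral_const_mul]
    rw [s1, s2, s3, ← t1]
    unfold JJ
    refine setIntegral_congr_fun (PPL_.meas_QD R) fun z hz => ?_
    have h := (hk (z.2 * s) (mul_pos hz.2.1 hs)).1
    have hkk : b (z.2 * s) = (K : ℂ) * k (z.2 * s) := by
      change b (z.2 * s) = (K : ℂ) * (b (z.2 * s) / (K : ℂ))
      field_simp
    simp only [hf1, hf2, hf3, h, hkk, one_mul, neg_mul]
    ring
  -- the pointwise bound
  have hpt : ∀ z ∈ Q, (⨆ (R : ℝ) (_ : 0 < R), ‖JJ (fun u => e1 (ε * u)) (kk m A) H R z.1 z.2‖ₑ /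
      ENNReal.ofReal (L3 (R * Real.sqrt (z.1 ^ 2 + z.2 ^ 2)) ^ 6)) ^ 2 ≤
      9 * ((‖c1‖ₑ ^ 2 * F1 z ^ 2 + ‖c2‖ₑ ^ 2 * F2 z ^ 2) + ‖(K : ℂ)‖ₑ ^ 2 * F3 z ^ 2) := by
    intro z hz
    have hle : (⨆ (R : ℝ) (_ : 0 < R), ‖JJ (fun u => e1 (ε * u)) (kk m A) H R z.1 z.2‖ₑ /
        ENNReal.ofReal (L3 (R * Real.sqrt (z.1 ^ 2 + z.2 ^ 2)) ^ 6)) ≤
        ‖c1‖ₑ * F1 z + ‖c2‖ₑ * F2 z + ‖(K : ℂ)‖ₑ * F3 z := by
      refine iSup_le fun R => iSup_le fun hR => ?_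
      set W := ENNReal.ofReal (L3 (R * Real.sqrt (z.1 ^ 2 + z.2 ^ 2)) ^ 6) with hW
      have hW1 : 1 ≤ W := by
        rw [hW, ← ENNReal.ofReal_one]
        exact ENNReal.ofReal_le_ofReal (W_pos hR.le z)
      have a1 : ‖JJ (fun u => e1 (ε * u)) (fun u => e1 (1 * u)) H R z.1 z.2‖ₑ / W ≤ F1 z :=
        le_iSup₂ (f := fun (R : ℝ) (_ : 0 < R) =>
          ‖JJ (fun u => e1 (ε * u)) (fun u => e1 (1 * u)) H R z.1 z.2‖ₑ /
          ENNReal.ofReal (L3 (R * Real.sqrt (z.1 ^ 2 + z.2 ^ 2)) ^ 6)) R hR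
      have a2 : ‖JJ (fun u => e1 (ε * u)) (fun u => e1 (-1 * u)) H R z.1 z.2‖ₑ / W ≤ F2 z :=
        le_iSup₂ (f := fun (R : ℝ) (_ : 0 < R) =>
          ‖JJ (fun u => e1 (ε * u)) (fun u => e1 (-1 * u)) H R z.1 z.2‖ₑ /
          ENNReal.ofReal (L3 (R * Real.sqrt (z.1 ^ 2 + z.2 ^ 2)) ^ 6)) R hR
      have a3 : ‖JJ (fun u => e1 (ε * u)) k H R z.1 z.2‖ₑ ≤ F3 z :=
        le_iSup₂ (f := fun (R : ℝ) (_ : 0 < R) =>
          ‖JJ (fun u => e1 (ε * u)) k H R z.1 z.2‖ₑ) R hR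
      have a3' : ‖JJ (fun u => e1 (ε * u)) k H R z.1 z.2‖ₑ / W ≤ F3 z :=
        (ENNReal.div_le_of_le_mul (le_mul_of_one_le_right' hW1)).trans a3
      rw [hdec R z.1 z.2 hz.1 hz.2]
      calc _ ≤ (‖c1‖ₑ * ‖JJ (fun u => e1 (ε * u)) (fun u => e1 (1 * u)) H R z.1 z.2‖ₑ +
            ‖c2‖ₑ * ‖JJ (fun u => e1 (ε * u)) (fun u => e1 (-1 * u)) H R z.1 z.2‖ₑ +
            ‖(K : ℂ)‖ₑ * ‖JJ (fun u => e1 (ε * u)) k H R z.1 z.2‖ₑ) / W := by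
            refine ENNReal.div_le_div_right ?_ W
            refine (enorm_add_le _ _).trans (add_le_add ((enorm_add_le _ _).trans
              (add_le_add ?_ ?_)) ?_)
            · rw [enorm_mul]
            · rw [enorm_mul]
            · rw [enorm_mul]
        _ = ‖c1‖ₑ * (‖JJ (fun u => e1 (ε * u)) (fun u => e1 (1 * u)) H R z.1 z.2‖ₑ / W) +
            ‖c2‖ₑ * (‖JJ (fun u => e1 (ε * u)) (fun u => e1 (-1 * u)) H R z.1 z.2‖ₑ / W) +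
            ‖(K : ℂ)‖ₑ * (‖JJ (fun u => e1 (ε * u)) k H R z.1 z.2‖ₑ / W) := by
            simp only [ENNReal.add_div, mul_div_assoc]
        _ ≤ _ := by gcongr
    calc _ ≤ (‖c1‖ₑ * F1 z + ‖c2‖ₑ * F2 z + ‖(K : ℂ)‖ₑ * F3 z) ^ 2 := by gcongr
      _ ≤ 9 * ((‖c1‖ₑ * F1 z) ^ 2 + (‖c2‖ₑ * F2 z) ^ 2 + (‖(K : ℂ)‖ₑ * F3 z) ^ 2) := sq3 _ _ _
      _ = _ := by rw [mul_pow, mul_pow, mul_pow]
  have hKe : ‖(K : ℂ)‖ₑ = (K.toNNReal : ℝ≥0∞) := by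
    rw [← ofReal_norm, Complex.norm_real, Real.norm_of_nonneg hK.le]
    rfl
  have n1 : (‖c1‖ₑ ^ 2) ≠ ⊤ := ENNReal.pow_ne_top enorm_ne_top
  have n2 : (‖c2‖ₑ ^ 2) ≠ ⊤ := ENNReal.pow_ne_top enorm_ne_top
  have n3 : (‖(K : ℂ)‖ₑ ^ 2) ≠ ⊤ := ENNReal.pow_ne_top enorm_ne_top
  calc _ ≤ ∫⁻ z in Q, 9 * ((‖c1‖ₑ ^ 2 * F1 z ^ 2 + ‖c2‖ₑ ^ 2 * F2 z ^ 2) +
        ‖(K : ℂ)‖ₑ ^ 2 * F3 z ^ 2) := setLIntegral_mono' PPL_.meas_Q hpt
    _ = 9 * ((‖c1‖ₑ ^ 2 * ∫⁻ z in Q, F1 z ^ 2) + (‖c2‖ₑ ^ 2 * ∫⁻ z in Q, F2 z ^ 2) +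
        ‖(K : ℂ)‖ₑ ^ 2 * ∫⁻ z in Q, F3 z ^ 2) := by
        rw [lintegral_const_mul' _ _ (by norm_num), lintegral_add_left (by fun_prop),
          lintegral_add_left (by fun_prop), lintegral_const_mul' _ _ n1,
          lintegral_const_mul' _ _ n2, lintegral_const_mul' _ _ n3]
    _ ≤ 9 * ((‖c1‖ₑ ^ 2 * (CP * ∫⁻ z in Q, ‖H z.1 z.2‖ₑ ^ 2)) +
        (‖c2‖ₑ ^ 2 * (CP * ∫⁻ z in Q, ‖H z.1 z.2‖ₑ ^ 2)) +
        ‖(K : ℂ)‖ₑ ^ 2 * (CM * ∫⁻ z in Q, ‖H z.1 z.2‖ₑ ^ 2)) := by gcongr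
    _ = _ := by
        rw [hKe]
        push_cast
        simp only [enorm_eq_nnnorm]
        ring

end Pool.Agent.BIR
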