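import Pool.Agent.BIR.Targets

set_option autoImplicit false

/-! The nine terms of the product of two asymptotic expansions (target `T_NIN`). -/

namespace Pool.Agent.BIR.NIN_

open MeasureTheory FourierTransform Set Filter Topology
open scoped ENNReal NNReal ComplexConjugate
open Pool.Agent.MBS (E ex S)
open Pool.Agent.CAR (e1)
open Pool.Agent.CRN (T_CARLS)
open Pool.Agent.CRW (L3)

theorem norm_e1 (x : ℝ) : ‖e1 x‖ = 1 := by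
  unfold e1
  rw [show 2 * (Real.pi : ℂ) * Complex.I * (x : ℂ) = ((2 * Real.pi * x : ℝ) : ℂ) * Complex.I by
    push_cast; ring]
  exact Complex.norm_exp_ofReal_mul_I _

theorem cont_e1 : Continuous e1 := by
  unfold e1
  fun_prop

theorem log3_ge {y : ℝ} (hy : 0 ≤ y) : 1 ≤ Real.log (3 + y) := by
  rw [Real.le_log_iff_exp_le (by linarith)]
  have := Real.exp_one_lt_d9
  linarith

theorem one_le_L3 {t : ℝ} (ht : 0 ≤ t) : 1 ≤ L3 t := by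
  unfold L3
  exact log3_ge (by have := log3_ge ht; linarith)

theorem meas_QD (R : ℝ) : MeasurableSet (QD R) := by
  unfold QD
  exact (measurableSet_lt measurable_const measurable_fst).inter
    ((measurableSet_lt measurable_const measurable_snd).inter
      (measurableSet_le ((measurable_fst.pow_const 2).add (measurable_snd.pow_const 2))
        measurable_const))

theorem meas_Q : MeasurableSet Q := by
  unfold Q
  exact (measurableSet_lt measurable_const measurable_fst).inter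
    (measurableSet_lt measurable_const measurable_snd)

theorem QD_sub (R : ℝ) : QD R ⊆ Q := fun _ hz => ⟨hz.1, hz.2.1⟩

theorem vol_QD (R : ℝ) : volume (QD R) < ⊤ := by
  refine lt_of_le_of_lt (measure_mono ?_)
    (isCompact_Icc (a := ((0 : ℝ), (0 : ℝ))) (b := (|R|, |R|))).measure_lt_top
  intro z hz
  obtain ⟨h1, h2, h3⟩ := hz
  have e1 : z.1 ^ 2 ≤ R ^ 2 := by nlinarith [sq_nonneg z.2]
  have e2 : z.2 ^ 2 ≤ R ^ 2 := by nlinarith [sq_nonneg z.1]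
  exact ⟨⟨h1.le, h2.le⟩, ⟨(le_abs_self _).trans (sq_le_sq.1 e1),
    (le_abs_self _).trans (sq_le_sq.1 e2)⟩⟩

theorem le_one_add_sq (x : ℝ≥0∞) : x ≤ 1 + x ^ 2 := by
  rcases le_total x 1 with h | h
  · exact h.trans le_self_add
  · refine le_trans ?_ le_add_self
    rw [sq]
    exact le_mul_of_one_le_left (by simp) h

theorem int_H {H : ℝ → ℝ → ℂ} (hH : Measurable (fun z : ℝ × ℝ => H z.1 z.2))
    (hf : ∫⁻ z in Q, ‖H z.1 z.2‖ₑ ^ 2 ≠ ⊤) (R : ℝ) :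
    IntegrableOn (fun z : ℝ × ℝ => H z.1 z.2) (QD R) := by
  refine ⟨hH.aestronglyMeasurable, ?_⟩
  rw [hasFiniteIntegral_iff_enorm]
  calc ∫⁻ z in QD R, ‖H z.1 z.2‖ₑ ≤ ∫⁻ z in QD R, (1 + ‖H z.1 z.2‖ₑ ^ 2) :=
        lintegral_mono (fun z => le_one_add_sq _)
    _ = volume (QD R) + ∫⁻ z in QD R, ‖H z.1 z.2‖ₑ ^ 2 := by
        rw [lintegral_add_left measurable_const, lintegral_one, Measure.restrict_apply_univ]
    _ < ⊤ := ENNReal.add_lt_top.2 ⟨vol_QD R,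
        lt_of_le_of_lt (lintegral_mono_set (QD_sub R)) (lt_top_iff_ne_top.2 hf)⟩

theorem norm_term {H : ℝ → ℝ → ℂ} {k l : ℝ → ℂ} {M : ℝ} (hkM : ∀ u, ‖k u‖ ≤ M)
    (hlM : ∀ u, ‖l u‖ ≤ M) (r s : ℝ) (z : ℝ × ℝ) :
    ‖H z.1 z.2 * k (z.1 * r) * l (z.2 * s)‖ ≤ M * M * ‖H z.1 z.2‖ := by
  have hM : 0 ≤ M := (norm_nonneg _).trans (hkM 0)
  rw [norm_mul, norm_mul]
  calc ‖H z.1 z.2‖ * ‖k (z.1 * r)‖ * ‖l (z.2 * s)‖ ≤ ‖H z.1 z.2‖ * M * M := by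
        gcongr
        · exact hkM _
        · exact hlM _
    _ = _ := by ring

theorem sm_term {H : ℝ → ℝ → ℂ} (hH : Measurable (fun z : ℝ × ℝ => H z.1 z.2))
    {k l : ℝ → ℂ} (hk : Continuous k) (hl : Continuous l) (r s : ℝ) :
    Measurable (fun z : ℝ × ℝ => H z.1 z.2 * k (z.1 * r) * l (z.2 * s)) := by
  refine (hH.mul ?_).mul ?_
  · exact hk.measurable.comp (by fun_prop)
  · exact hl.measurable.comp (by fun_prop)

theorem int_term {H : ℝ → ℝ → ℂ} (hH : Measurable (fun z : ℝ × ℝ => H z.1 z.2))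
    (hf : ∫⁻ z in Q, ‖H z.1 z.2‖ₑ ^ 2 ≠ ⊤) {k l : ℝ → ℂ} (hk : Continuous k)
    (hl : Continuous l) {M : ℝ} (hkM : ∀ u, ‖k u‖ ≤ M) (hlM : ∀ u, ‖l u‖ ≤ M) (R r s : ℝ) :
    IntegrableOn (fun z : ℝ × ℝ => H z.1 z.2 * k (z.1 * r) * l (z.2 * s)) (QD R) :=
  ((int_H hH hf R).norm.const_mul (M * M)).mono' (sm_term hH hk hl r s).aestronglyMeasurable
    (ae_of_all _ (fun z => norm_term hkM hlM r s z))

theorem cont_JJ {H : ℝ → ℝ → ℂ} (hH : Measurable (fun z : ℝ × ℝ => H z.1 z.2))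
    (hf : ∫⁻ z in Q, ‖H z.1 z.2‖ₑ ^ 2 ≠ ⊤) {k l : ℝ → ℂ} (hk : Continuous k)
    (hl : Continuous l) {M : ℝ} (hkM : ∀ u, ‖k u‖ ≤ M) (hlM : ∀ u, ‖l u‖ ≤ M) (R : ℝ) :
    Continuous (fun z : ℝ × ℝ => JJ k l H R z.1 z.2) := by
  unfold JJ
  refine continuous_of_dominated (bound := fun z : ℝ × ℝ => M * M * ‖H z.1 z.2‖) ?_ ?_ ?_ ?_
  · intro p
    exact (sm_term hH hk hl p.1 p.2).aestronglyMeasurable
  · intro p
    exact ae_of_all _ (fun z => norm_term hkM hlM p.1 p.2 z)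
  · exact (int_H hH hf R).norm.const_mul (M * M)
  · refine ae_of_all _ (fun z => ?_)
    exact (continuous_const.mul (hk.comp (by fun_prop))).mul (hl.comp (by fun_prop))

/-- the maximal function -/
noncomputable def XX (k l : ℝ → ℂ) (H : ℝ → ℝ → ℂ) (z : ℝ × ℝ) : ℝ≥0∞ :=
  ⨆ (R : ℝ) (_ : 0 < R), ‖JJ k l H R z.1 z.2‖ₑ /
    ENNReal.ofReal (L3 (R * Real.sqrt (z.1 ^ 2 + z.2 ^ 2)) ^ 6)

theorem meas_XX {H : ℝ → ℝ → ℂ} (hH : Measurable (fun z : ℝ × ℝ => H z.1 z.2))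
    (hf : ∫⁻ z in Q, ‖H z.1 z.2‖ₑ ^ 2 ≠ ⊤) {k l : ℝ → ℂ} (hk : Continuous k)
    (hl : Continuous l) {M : ℝ} (hkM : ∀ u, ‖k u‖ ≤ M) (hlM : ∀ u, ‖l u‖ ≤ M) :
    Measurable (XX k l H) := by
  refine LowerSemicontinuous.measurable ?_
  unfold XX
  refine lowerSemicontinuous_iSup (fun R => lowerSemicontinuous_iSup (fun hR => ?_))
  refine Continuous.lowerSemicontinuous ?_
  have hLpos : ∀ z : ℝ × ℝ, 0 < L3 (R * Real.sqrt (z.1 ^ 2 + z.2 ^ 2)) ^ 6 := by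
    intro z
    have := one_le_L3 (t := R * Real.sqrt (z.1 ^ 2 + z.2 ^ 2)) (by positivity)
    positivity
  have hLc : Continuous fun z : ℝ × ℝ => L3 (R * Real.sqrt (z.1 ^ 2 + z.2 ^ 2)) := by
    unfold L3
    have g0 : ∀ z : ℝ × ℝ, 0 ≤ R * Real.sqrt (z.1 ^ 2 + z.2 ^ 2) := fun z => by positivity
    refine Continuous.log (continuous_const.add (Continuous.log (by fun_prop) ?_)) ?_
    · intro z
      have := g0 z
      linarith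
    · intro z
      have := log3_ge (g0 z)
      linarith
  have heq : (fun z : ℝ × ℝ => ‖JJ k l H R z.1 z.2‖ₑ /
      ENNReal.ofReal (L3 (R * Real.sqrt (z.1 ^ 2 + z.2 ^ 2)) ^ 6)) =
      fun z : ℝ × ℝ => ENNReal.ofReal (‖JJ k l H R z.1 z.2‖ /
        L3 (R * Real.sqrt (z.1 ^ 2 + z.2 ^ 2)) ^ 6) := by
    funext z
    rw [ENNReal.ofReal_div_of_pos (hLpos z), ofReal_norm]
  rw [heq]
  refine ENNReal.continuous_ofReal.comp ?_
  exact ((cont_JJ hH hf hk hl hkM hlM R).norm).div (hLc.pow 6) (fun z => (hLpos z).ne')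

theorem sq_sum {ι : Type*} (s : Finset ι) (f : ι → ℝ≥0∞) :
    (∑ i ∈ s, f i) ^ 2 ≤ (s.card : ℝ≥0∞) ^ 2 * ∑ i ∈ s, f i ^ 2 := by
  have h1 : ∑ i ∈ s, f i ≤ (s.card : ℝ≥0∞) * s.sup f := by
    rw [← nsmul_eq_mul]
    exact Finset.sum_le_card_nsmul s f _ (fun i hi => Finset.le_sup hi)
  have h2 : (s.sup f) ^ 2 ≤ ∑ i ∈ s, f i ^ 2 := by
    rcases s.eq_empty_or_nonempty with rfl | hs
    · simp
    · obtain ⟨i, hi, h⟩ := Finset.exists_mem_eq_sup s hs f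
      rw [h]
      exact Finset.single_le_sum (f := fun i => f i ^ 2) (fun _ _ => by simp) hi
  calc _ ≤ ((s.card : ℝ≥0∞) * s.sup f) ^ 2 := by gcongr
    _ = (s.card : ℝ≥0∞) ^ 2 * (s.sup f) ^ 2 := mul_pow _ _ _
    _ ≤ _ := by gcongr

/-- normalisation of the error kernel -/
theorem norml {b : ℝ → ℂ} {C : ℝ} (hb : Continuous b) (hC : ∀ u, 0 < u → ‖b u‖ ≤ C / (1 + u)) :
    ∃ (k : ℝ → ℂ) (K : ℂ) (M : ℝ), Continuous k ∧ (∀ u, 0 < u → ‖k u‖ ≤ 1 / (1 + u)) ∧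
      1 ≤ M ∧ (∀ u, ‖k u‖ ≤ M) ∧ ∀ u, 0 < u → b u = K * k u := by
  have hK : (0 : ℝ) < |C| + 1 := by positivity
  have hKc : ((|C| + 1 : ℝ) : ℂ) ≠ 0 := by exact_mod_cast hK.ne'
  have hdec : ∀ u : ℝ, 0 < u → ‖b u / ((|C| + 1 : ℝ) : ℂ)‖ ≤ 1 / (1 + u) := by
    intro u hu
    rw [norm_div, Complex.norm_real, Real.norm_of_nonneg hK.le, div_le_iff₀ hK]
    refine (hC u hu).trans ?_
    rw [div_mul_eq_mul_div, one_mul]
    have : C ≤ |C| + 1 := (le_abs_self C).trans (by linarith)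
    gcongr
  refine ⟨fun u => b |u| / ((|C| + 1 : ℝ) : ℂ), ((|C| + 1 : ℝ) : ℂ),
    1 + ‖b |0| / ((|C| + 1 : ℝ) : ℂ)‖, ?_, ?_, ?_, ?_, ?_⟩
  · exact (hb.comp continuous_abs).div_const _
  · intro u hu
    simp only [abs_of_pos hu]
    exact hdec u hu
  · have := norm_nonneg (b |0| / ((|C| + 1 : ℝ) : ℂ))
    linarith
  · intro u
    rcases eq_or_ne u 0 with rfl | hu
    · linarith
    · have h1 := hdec |u| (abs_pos.2 hu)
      have h2 : 1 / (1 + |u|) ≤ 1 := by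
        rw [div_le_one (by positivity)]
        have := abs_nonneg u
        linarith
      have h3 := norm_nonneg (b |0| / ((|C| + 1 : ℝ) : ℂ))
      simp only
      linarith
  · intro u hu
    simp only [abs_of_pos hu]
    field_simp

/-- the kernels -/
def Good (k : ℝ → ℂ) : Prop :=
  (∃ ε : ℝ, (ε = 1 ∨ ε = -1) ∧ k = fun u => e1 (ε * u)) ∨
    (Continuous k ∧ ∀ u, 0 < u → ‖k u‖ ≤ 1 / (1 + u))

theorem XX_le {k l : ℝ → ℂ} {H : ℝ → ℝ → ℂ} (z : ℝ × ℝ) :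
    XX k l H z ≤ ⨆ (R : ℝ) (_ : 0 < R), ‖JJ k l H R z.1 z.2‖ₑ := by
  unfold XX
  refine iSup₂_mono (fun R hR => ?_)
  have hD : (1 : ℝ≥0∞) ≤ ENNReal.ofReal (L3 (R * Real.sqrt (z.1 ^ 2 + z.2 ^ 2)) ^ 6) :=
    ENNReal.one_le_ofReal.2 (one_le_pow₀ (one_le_L3 (by positivity)))
  exact (ENNReal.div_le_div_left hD _).trans_eq (div_one _)

theorem bound {Cp Cm : ℝ≥0}
    (HP : ∀ (H : ℝ → ℝ → ℂ) (ε ε' : ℝ),
      Measurable (fun z : ℝ × ℝ => H z.1 z.2) → (ε = 1 ∨ ε = -1) → (ε' = 1 ∨ ε' = -1) →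
      ∫⁻ z in Q, (⨆ (R : ℝ) (_ : 0 < R),
        ‖JJ (fun u => e1 (ε * u)) (fun u => e1 (ε' * u)) H R z.1 z.2‖ₑ /
        ENNReal.ofReal (L3 (R * Real.sqrt (z.1 ^ 2 + z.2 ^ 2)) ^ 6)) ^ 2 ≤
      Cp * ∫⁻ z in Q, ‖H z.1 z.2‖ₑ ^ 2)
    (HM : ∀ (H : ℝ → ℝ → ℂ) (k l : ℝ → ℂ) (ε : ℝ),
      Measurable (fun z : ℝ × ℝ => H z.1 z.2) → Continuous k → Continuous l →
      (∀ u, 0 < u → ‖k u‖ ≤ 1 / (1 + u)) → (∀ u, 0 < u → ‖l u‖ ≤ 1 / (1 + u)) →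
      (ε = 1 ∨ ε = -1) →
      ∫⁻ z in Q, (⨆ (R : ℝ) (_ : 0 < R), ‖JJ k (fun u => e1 (ε * u)) H R z.1 z.2‖ₑ) ^ 2 ≤
        Cm * ∫⁻ z in Q, ‖H z.1 z.2‖ₑ ^ 2 ∧
      ∫⁻ z in Q, (⨆ (R : ℝ) (_ : 0 < R), ‖JJ (fun u => e1 (ε * u)) k H R z.1 z.2‖ₑ) ^ 2 ≤
        Cm * ∫⁻ z in Q, ‖H z.1 z.2‖ₑ ^ 2 ∧
      ∫⁻ z in Q, (⨆ (R : ℝ) (_ : 0 < R), ‖JJ k l H R z.1 z.2‖ₑ) ^ 2 ≤
        Cm * ∫⁻ z in Q, ‖H z.1 z.2‖ₑ ^ 2)
    {H : ℝ → ℝ → ℂ} (hH : Measurable (fun z : ℝ × ℝ => H z.1 z.2)) {k l : ℝ → ℂ}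
    (hk : Good k) (hl : Good l) :
    ∫⁻ z in Q, XX k l H z ^ 2 ≤ ((Cp + Cm : ℝ≥0) : ℝ≥0∞) * ∫⁻ z in Q, ‖H z.1 z.2‖ₑ ^ 2 := by
  have hp : ((Cp : ℝ≥0) : ℝ≥0∞) * ∫⁻ z in Q, ‖H z.1 z.2‖ₑ ^ 2 ≤
      ((Cp + Cm : ℝ≥0) : ℝ≥0∞) * ∫⁻ z in Q, ‖H z.1 z.2‖ₑ ^ 2 := by
    rw [ENNReal.coe_add, add_mul]
    exact le_self_add
  have hm : ((Cm : ℝ≥0) : ℝ≥0∞) * ∫⁻ z in Q, ‖H z.1 z.2‖ₑ ^ 2 ≤
      ((Cp + Cm : ℝ≥0) : ℝ≥0∞) * ∫⁻ z in Q, ‖H z.1 z.2‖ₑ ^ 2 := by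
    rw [ENNReal.coe_add, add_mul]
    exact le_add_self
  have hmono : ∀ k l : ℝ → ℂ, ∫⁻ z in Q, XX k l H z ^ 2 ≤
      ∫⁻ z in Q, (⨆ (R : ℝ) (_ : 0 < R), ‖JJ k l H R z.1 z.2‖ₑ) ^ 2 := by
    intro k l
    exact lintegral_mono (fun z => pow_le_pow_left' (XX_le z) 2)
  rcases hk with ⟨ε, hε, rfl⟩ | ⟨kc, kb⟩
  · rcases hl with ⟨ε', hε', rfl⟩ | ⟨lc, lb⟩
    · exact (HP H ε ε' hH hε hε').trans hp
    · exact (hmono _ _).trans ((HM H l l ε hH lc lc lb lb hε).2.1.trans hm)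
  · rcases hl with ⟨ε', hε', rfl⟩ | ⟨lc, lb⟩
    · exact (hmono _ _).trans ((HM H k k ε' hH kc kc kb kb hε').1.trans hm)
    · exact (hmono _ _).trans ((HM H k l 1 hH kc lc kb lb (Or.inl rfl)).2.2.trans hm)

theorem expand {H : ℝ → ℝ → ℂ} {k l : ℝ → ℂ} {κ μ : Fin 3 → ℝ → ℂ} {α β : Fin 3 → ℂ}
    (hk : ∀ u, 0 < u → k u = ∑ i, α i * κ i u) (hl : ∀ u, 0 < u → l u = ∑ i, β i * μ i u)
    {R r s : ℝ} (hr : 0 < r) (hs : 0 < s)
    (hint : ∀ i j, IntegrableOn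
      (fun z : ℝ × ℝ => H z.1 z.2 * κ i (z.1 * r) * μ j (z.2 * s)) (QD R)) :
    JJ k l H R r s = ∑ p : Fin 3 × Fin 3, α p.1 * β p.2 * JJ (κ p.1) (μ p.2) H R r s := by
  unfold JJ
  rw [setIntegral_congr_fun (meas_QD R) (g := fun z : ℝ × ℝ => ∑ p : Fin 3 × Fin 3,
    α p.1 * β p.2 * (H z.1 z.2 * κ p.1 (z.1 * r) * μ p.2 (z.2 * s))) ?_]
  · rw [integral_finsetSum _ (fun p _ => (hint p.1 p.2).const_mul _)]
    exact Finset.sum_congr rfl (fun p _ => integral_const_mul _ _)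
  · intro z hz
    simp only
    rw [hk _ (mul_pos hz.1 hr), hl _ (mul_pos hz.2.1 hs), Fintype.sum_prod_type]
    simp only [Fin.sum_univ_three]
    ring

theorem main (h1 : T_PPL) (h2 : T_PMX) (h3 : T_CARLS) : T_NIN := by
  rintro d m - - ⟨A1, b1, c1, c2, C1, hA1, hb1, hr1, has1⟩
    ⟨A2, b2, d1, d2, C2, hA2, hb2, hr2, has2⟩
  obtain ⟨Cp, HP⟩ := h1
  obtain ⟨Cm, HM⟩ := h2 h3
  obtain ⟨k1, K1, M1, k1c, k1b, M11, k1M, k1e⟩ := norml hb1 (fun u hu => (has1 u hu).2)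
  obtain ⟨k2, K2, M2, k2c, k2b, M21, k2M, k2e⟩ := norml hb2 (fun u hu => (has2 u hu).2)
  set M : ℝ := max M1 M2 with hM
  have hM1 : M1 ≤ M := le_max_left _ _
  have hM2 : M2 ≤ M := le_max_right _ _
  set κ : Fin 3 → ℝ → ℂ := ![fun u => e1 (1 * u), fun u => e1 ((-1) * u), k1] with hκ
  set μ : Fin 3 → ℝ → ℂ := ![fun u => e1 (1 * u), fun u => e1 ((-1) * u), k2] with hμ
  set α : Fin 3 → ℂ := ![c1, c2, K1] with hα
  set β : Fin 3 → ℂ := ![d1, d2, K2] with hβ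
  have ce : ∀ ε : ℝ, Continuous fun u : ℝ => e1 (ε * u) := fun ε =>
    cont_e1.comp (continuous_const.mul continuous_id)
  have κc : ∀ i, Continuous (κ i) := by
    intro i
    fin_cases i
    · exact ce 1
    · exact ce (-1)
    · exact k1c
  have μc : ∀ i, Continuous (μ i) := by
    intro i
    fin_cases i
    · exact ce 1
    · exact ce (-1)
    · exact k2c
  have κM : ∀ i u, ‖κ i u‖ ≤ M := by
    intro i u
    fin_cases i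
    · exact (norm_e1 _).le.trans (M11.trans hM1)
    · exact (norm_e1 _).le.trans (M11.trans hM1)
    · exact (k1M u).trans hM1
  have μM : ∀ i u, ‖μ i u‖ ≤ M := by
    intro i u
    fin_cases i
    · exact (norm_e1 _).le.trans (M21.trans hM2)
    · exact (norm_e1 _).le.trans (M21.trans hM2)
    · exact (k2M u).trans hM2
  have κg : ∀ i, Good (κ i) := by
    intro i
    fin_cases i
    · exact Or.inl ⟨1, Or.inl rfl, rfl⟩
    · exact Or.inl ⟨-1, Or.inr rfl, rfl⟩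
    · exact Or.inr ⟨k1c, k1b⟩
  have μg : ∀ i, Good (μ i) := by
    intro i
    fin_cases i
    · exact Or.inl ⟨1, Or.inl rfl, rfl⟩
    · exact Or.inl ⟨-1, Or.inr rfl, rfl⟩
    · exact Or.inr ⟨k2c, k2b⟩
  have hk : ∀ u, 0 < u → kk d A1 u = ∑ i, α i * κ i u := by
    intro u hu
    rw [(has1 u hu).1, k1e u hu, Fin.sum_univ_three]
    simp [hα, hκ]
  have hl : ∀ u, 0 < u → kk m A2 u = ∑ i, β i * μ i u := by
    intro u hu
    rw [(has2 u hu).1, k2e u hu, Fin.sum_univ_three]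
    simp [hβ, hμ]
  refine ⟨A1, A2, 81 * ∑ p : Fin 3 × Fin 3, (‖α p.1‖₊ * ‖β p.2‖₊) ^ 2 * (Cp + Cm), hA1, hA2,
    hr1, hr2, ?_⟩
  intro H hH hf
  have hpt : ∀ z ∈ Q, XX (kk d A1) (kk m A2) H z ≤
      ∑ p : Fin 3 × Fin 3, ((‖α p.1‖₊ * ‖β p.2‖₊ : ℝ≥0) : ℝ≥0∞) * XX (κ p.1) (μ p.2) H z := by
    intro z hz
    refine iSup₂_le (fun R hR => ?_)
    rw [expand hk hl hz.1 hz.2 (fun i j => int_term hH hf (κc i) (μc j) (κM i) (μM j) R _ _)]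
    refine (ENNReal.div_le_div_right (enorm_sum_le _ _) _).trans ?_
    rw [div_eq_mul_inv, Finset.sum_mul]
    refine Finset.sum_le_sum (fun p _ => ?_)
    rw [enorm_mul, enorm_mul, ENNReal.coe_mul, mul_assoc, ← div_eq_mul_inv]
    refine mul_le_mul' (le_of_eq rfl) ?_
    exact le_iSup₂ (f := fun (R : ℝ) (_ : 0 < R) => ‖JJ (κ p.1) (μ p.2) H R z.1 z.2‖ₑ /
      ENNReal.ofReal (L3 (R * Real.sqrt (z.1 ^ 2 + z.2 ^ 2)) ^ 6)) R hR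
  have hcard : ((Finset.univ : Finset (Fin 3 × Fin 3)).card : ℝ≥0∞) ^ 2 = 81 := by
    simp only [Finset.card_univ, Fintype.card_prod, Fintype.card_fin]
    norm_num
  calc ∫⁻ z in Q, XX (kk d A1) (kk m A2) H z ^ 2
      ≤ ∫⁻ z in Q, 81 * ∑ p : Fin 3 × Fin 3,
        (((‖α p.1‖₊ * ‖β p.2‖₊ : ℝ≥0) : ℝ≥0∞) * XX (κ p.1) (μ p.2) H z) ^ 2 := by
        refine setLIntegral_mono' meas_Q (fun z hz => ?_)
        refine (pow_le_pow_left' (hpt z hz) 2).trans ?_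
        rw [← hcard]
        exact sq_sum _ _
    _ = 81 * ∑ p : Fin 3 × Fin 3, ((‖α p.1‖₊ * ‖β p.2‖₊ : ℝ≥0) : ℝ≥0∞) ^ 2 *
        ∫⁻ z in Q, XX (κ p.1) (μ p.2) H z ^ 2 := by
        have hms : ∀ p : Fin 3 × Fin 3, Measurable (XX (κ p.1) (μ p.2) H) := fun p =>
          meas_XX hH hf (κc _) (μc _) (κM _) (μM _)
        rw [lintegral_const_mul' _ _ (by norm_num), lintegral_finsetSum]
        · congr 1
          refine Finset.sum_congr rfl (fun p _ => ?_)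
          rw [← lintegral_const_mul' _ _ (by
            exact ENNReal.pow_ne_top ENNReal.coe_ne_top)]
          simp only [mul_pow]
        · intro p _
          exact (measurable_const.mul (hms p)).pow_const 2
    _ ≤ 81 * ∑ p : Fin 3 × Fin 3, ((‖α p.1‖₊ * ‖β p.2‖₊ : ℝ≥0) : ℝ≥0∞) ^ 2 *
        (((Cp + Cm : ℝ≥0) : ℝ≥0∞) * ∫⁻ z in Q, ‖H z.1 z.2‖ₑ ^ 2) := by
        gcongr with p _
        exact bound HP HM hH (κg _) (μg _)
    _ = _ := by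
        push_cast
        rw [Finset.mul_sum, Finset.mul_sum, Finset.sum_mul]
        refine Finset.sum_congr rfl (fun p _ => ?_)
        ring

end Pool.Agent.BIR.NIN_

namespace Pool.Agent.BIR

open Pool.Agent.CRN (T_CARLS)

theorem p_NIN (h1 : T_PPL) (h2 : T_PMX) (h3 : T_CARLS) : T_NIN := NIN_.main h1 h2 h3

end Pool.Agent.BIR
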