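import Pool.Agent.BIR.Targets

set_option autoImplicit false

/-!
# BIR: asymptotics of the solutions of `w'' + 4π² w = κ u⁻² w`
-/

namespace Pool.Agent.BIR

open MeasureTheory FourierTransform Set Filter Topology
open scoped ENNReal NNReal ComplexConjugate
open Pool.Agent.CAR (e1)

namespace ODE_

theorem norm_e1 (x : ℝ) : ‖e1 x‖ = 1 := by
  unfold e1
  have h : (2 * Real.pi * Complex.I * (x : ℂ)) = ((2 * Real.pi * x : ℝ) : ℂ) * Complex.I := by
    push_cast
    ring
  rw [h, Complex.norm_exp_ofReal_mul_I]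

theorem e1_mul_neg (x : ℝ) : e1 x * e1 (-x) = 1 := by
  unfold e1
  rw [← Complex.exp_add]
  have h : (2 * Real.pi * Complex.I * (x : ℂ)) + 2 * Real.pi * Complex.I * ((-x : ℝ) : ℂ) = 0 := by
    push_cast
    ring
  rw [h, Complex.exp_zero]

theorem e1_deriv (c u : ℝ) : HasDerivAt (fun u : ℝ => e1 (c * u))
    (2 * Real.pi * Complex.I * (c : ℂ) * e1 (c * u)) u := by
  unfold e1
  have h1 : HasDerivAt (fun u : ℝ => 2 * Real.pi * Complex.I * ((c * u : ℝ) : ℂ))
      (2 * Real.pi * Complex.I * (c : ℂ)) u := by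
    have h2 : HasDerivAt (fun u : ℝ => ((c * u : ℝ) : ℂ)) (c : ℂ) u := by
      have h3 : HasDerivAt (fun u : ℝ => c * u) c u := by
        simpa using (hasDerivAt_id u).const_mul c
      exact h3.ofReal_comp
    exact h2.const_mul _
  exact h1.cexp.congr_deriv (by ring)

/-- a function with derivative `O(u⁻²)` has a limit -/
theorem lim {f f' : ℝ → ℂ} {C : ℝ} (hC : 0 ≤ C) (hf : ∀ u : ℝ, 1 ≤ u → HasDerivAt f (f' u) u)
    (hb : ∀ u : ℝ, 1 ≤ u → ‖f' u‖ ≤ C / u ^ 2) :
    ∃ c : ℂ, ∀ u : ℝ, 1 ≤ u → ‖f u - c‖ ≤ C / u := by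
  have hinc : ∀ u v : ℝ, 1 ≤ u → u ≤ v → ‖f v - f u‖ ≤ C / u := by
    intro u v hu huv
    have hu0 : 0 < u := by linarith
    have key := image_norm_le_of_norm_deriv_right_le_deriv_boundary'
      (f := fun x => f x - f u) (f' := f') (a := u) (b := v)
      (B := fun x => C / u - C / x) (B' := fun x => C / x ^ 2)
      (fun x hx => ((hf x (hu.trans hx.1)).continuousAt.sub
        continuousAt_const).continuousWithinAt)
      (fun x hx => ((hf x (hu.trans hx.1)).sub_const (f u)).hasDerivWithinAt)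
      (by simp)
      (fun x hx => by
        have hx0 : x ≠ 0 := by
          have := hu.trans hx.1
          linarith
        exact (continuousAt_const.sub (continuousAt_const.div continuousAt_id
          hx0)).continuousWithinAt)
      (fun x hx => by
        have hx0 : x ≠ 0 := by
          have := hu.trans hx.1
          linarith
        have h1 : HasDerivAt (fun x : ℝ => C / u - C / x) (C / x ^ 2) x := by
          have h2 := ((hasDerivAt_inv hx0).const_mul C).const_sub (C / u)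
          refine h2.congr_deriv ?_
          ring
        exact h1.hasDerivWithinAt)
      (fun x hx => hb x (hu.trans hx.1))
    have h1 := key (right_mem_Icc.2 huv)
    have h2 : 0 ≤ C / v := div_nonneg hC (by linarith)
    have h3 : ‖f v - f u‖ ≤ C / u - C / v := h1
    linarith
  have hcau : CauchySeq fun n : ℕ => f ((n : ℝ) + 1) := by
    refine cauchySeq_of_le_tendsto_0 (fun n : ℕ => C / ((n : ℝ) + 1)) ?_ ?_
    · have hle : ∀ n m N : ℕ, N ≤ n → n ≤ m →
          dist (f ((n : ℝ) + 1)) (f ((m : ℝ) + 1)) ≤ C / ((N : ℝ) + 1) := by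
        intro n m N h1 h2
        have h1' : (N : ℝ) ≤ n := by exact_mod_cast h1
        have h2' : (n : ℝ) ≤ m := by exact_mod_cast h2
        have hN : (0 : ℝ) ≤ N := Nat.cast_nonneg N
        rw [dist_comm, dist_eq_norm]
        refine (hinc _ _ (by linarith) (by linarith)).trans ?_
        exact div_le_div_of_nonneg_left hC (by linarith) (by linarith)
      intro n m N h1 h2
      rcases le_total n m with h | h
      · exact hle n m N h1 h
      · rw [dist_comm]
        exact hle m n N h2 h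
    · have h1 : Tendsto (fun n : ℕ => (n : ℝ) + 1) atTop atTop :=
        tendsto_atTop_add_const_right _ _ tendsto_natCast_atTop_atTop
      exact h1.const_div_atTop C
  obtain ⟨c, hc⟩ := cauchySeq_tendsto_of_complete hcau
  refine ⟨c, fun u hu => ?_⟩
  have h1 : Tendsto (fun n : ℕ => ‖f ((n : ℝ) + 1) - f u‖) atTop (𝓝 ‖c - f u‖) :=
    (hc.sub_const (f u)).norm
  rw [norm_sub_rev]
  refine le_of_tendsto h1 ?_
  filter_upwards [eventually_ge_atTop ⌈u⌉₊] with n hn
  refine hinc u _ hu ?_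
  have h2 : u ≤ n := (Nat.le_ceil u).trans (by exact_mod_cast hn)
  linarith

/-- the solutions are bounded -/
theorem bdd {κ : ℝ} {w w' : ℝ → ℂ} (h : ∀ u : ℝ, 1 ≤ u → HasDerivAt w (w' u) u ∧
    HasDerivAt w' (-(4 * Real.pi ^ 2 * w u) + ((κ / u ^ 2 : ℝ) : ℂ) * w u) u) :
    ∃ M : ℝ, 0 ≤ M ∧ ∀ u : ℝ, 1 ≤ u → ‖w u‖ ≤ M := by
  set P : ℝ := 4 * Real.pi ^ 2 with hP
  have hP1 : 1 ≤ P := by
    have := Real.pi_gt_three
    nlinarith
  have hw'' : ∀ u : ℝ, -(4 * Real.pi ^ 2 * w u) + ((κ / u ^ 2 : ℝ) : ℂ) * w u =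
      (-P + κ / u ^ 2) • w u := by
    intro u
    rw [Complex.real_smul, hP]
    push_cast
    ring
  set En : ℝ → ℝ := fun u => ‖w' u‖ ^ 2 + P * ‖w u‖ ^ 2 with hEn
  have hEd : ∀ u : ℝ, 1 ≤ u → HasDerivAt En (2 * (κ / u ^ 2) * inner ℝ (w' u) (w u)) u := by
    intro u hu
    obtain ⟨h1, h2⟩ := h u hu
    rw [hw''] at h2
    have h3 := h2.norm_sq
    have h4 := (h1.norm_sq).const_mul P
    refine (h3.add h4).congr_deriv ?_
    rw [real_inner_smul_right, real_inner_comm (w' u) (w u)]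
    ring
  have hEb : ∀ u : ℝ, 1 ≤ u → 2 * (κ / u ^ 2) * inner ℝ (w' u) (w u) ≤ |κ| / u ^ 2 * En u := by
    intro u hu
    have h1 : |inner ℝ (w' u) (w u)| ≤ ‖w' u‖ * ‖w u‖ := abs_real_inner_le_norm _ _
    have h2 : |κ / u ^ 2| = |κ| / u ^ 2 := by
      rw [abs_div, abs_of_pos (by positivity : (0 : ℝ) < u ^ 2)]
    have h3 : 2 * (κ / u ^ 2) * inner ℝ (w' u) (w u) ≤
        2 * |κ / u ^ 2| * |inner ℝ (w' u) (w u)| := by
      have := le_abs_self (κ / u ^ 2 * inner ℝ (w' u) (w u))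
      rw [abs_mul] at this
      linarith
    have h4 : 2 * (‖w' u‖ * ‖w u‖) ≤ En u := by
      rw [hEn]
      show 2 * (‖w' u‖ * ‖w u‖) ≤ ‖w' u‖ ^ 2 + P * ‖w u‖ ^ 2
      nlinarith [sq_nonneg (‖w' u‖ - ‖w u‖), sq_nonneg ‖w u‖]
    have h5 : 0 ≤ |κ| / u ^ 2 := by positivity
    rw [h2] at h3
    nlinarith [mul_le_mul_of_nonneg_left h1 h5, mul_le_mul_of_nonneg_left h4 h5]
  set F : ℝ → ℝ := fun u => En u * Real.exp (|κ| / u) with hF
  have hFd : ∀ u : ℝ, 1 ≤ u → HasDerivAt F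
      ((2 * (κ / u ^ 2) * inner ℝ (w' u) (w u) - |κ| / u ^ 2 * En u) * Real.exp (|κ| / u)) u := by
    intro u hu
    have hu0 : u ≠ 0 := by linarith
    have h1 : HasDerivAt (fun u : ℝ => |κ| / u) (-(|κ| / u ^ 2)) u := by
      have h2 := (hasDerivAt_inv hu0).const_mul |κ|
      refine h2.congr_deriv ?_
      ring
    refine ((hEd u hu).mul h1.exp).congr_deriv ?_
    ring
  have hanti : AntitoneOn F (Ici 1) := by
    refine antitoneOn_of_deriv_nonpos (convex_Ici 1) ?_ ?_ ?_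
    · exact fun u hu => (hFd u hu).continuousAt.continuousWithinAt
    · rw [interior_Ici]
      exact fun u hu => (hFd u (le_of_lt hu)).differentiableAt.differentiableWithinAt
    · rw [interior_Ici]
      intro u hu
      rw [(hFd u (le_of_lt hu)).deriv]
      refine mul_nonpos_of_nonpos_of_nonneg ?_ (Real.exp_pos _).le
      linarith [hEb u (le_of_lt hu)]
  have hE0 : ∀ u, 0 ≤ En u := fun u => by
    show 0 ≤ ‖w' u‖ ^ 2 + P * ‖w u‖ ^ 2
    positivity
  refine ⟨Real.sqrt (F 1), Real.sqrt_nonneg _, fun u hu => ?_⟩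
  have h1 : F u ≤ F 1 := hanti (mem_Ici.2 le_rfl) (mem_Ici.2 hu) hu
  have h2 : En u ≤ F u := by
    have h3 : 1 ≤ Real.exp (|κ| / u) := Real.one_le_exp (div_nonneg (abs_nonneg _) (by linarith))
    show En u ≤ En u * Real.exp (|κ| / u)
    nlinarith [hE0 u]
  have h3 : ‖w u‖ ^ 2 ≤ En u := by
    show ‖w u‖ ^ 2 ≤ ‖w' u‖ ^ 2 + P * ‖w u‖ ^ 2
    nlinarith [sq_nonneg ‖w' u‖, sq_nonneg ‖w u‖]
  exact Real.le_sqrt_of_sq_le ((h3.trans h2).trans h1)

end ODE_

open ODE_ in
/-- **ODE** -/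
theorem p_ODE : T_ODE := by
  intro κ w w' h
  obtain ⟨M, hM0, hM⟩ := bdd h
  have hC : 0 ≤ |κ| * M := mul_nonneg (abs_nonneg _) hM0
  have hnb : ∀ (z : ℂ) (u : ℝ), 1 ≤ u → ‖z‖ = 1 →
      ‖z * (((κ / u ^ 2 : ℝ) : ℂ) * w u)‖ ≤ |κ| * M / u ^ 2 := by
    intro z u hu hz
    rw [norm_mul, hz, one_mul, norm_mul, Complex.norm_real, Real.norm_eq_abs, abs_div,
      abs_of_pos (by positivity : (0 : ℝ) < u ^ 2), div_mul_eq_mul_div]
    have := mul_le_mul_of_nonneg_left (hM u hu) (abs_nonneg κ)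
    gcongr
  -- the two slowly varying combinations
  obtain ⟨c, hc⟩ := lim hC (f := fun u => e1 ((-1) * u) * (w' u + 2 * Real.pi * Complex.I * w u))
    (f' := fun u => e1 ((-1) * u) * (((κ / u ^ 2 : ℝ) : ℂ) * w u))
    (fun u hu => by
      obtain ⟨h1, h2⟩ := h u hu
      refine ((e1_deriv (-1) u).mul
        (h2.add (h1.const_mul (2 * Real.pi * Complex.I)))).congr_deriv ?_
      simp only [Pi.add_apply]
      push_cast
      linear_combination (-(4 : ℂ) * Real.pi ^ 2 * w u * e1 (-1 * u)) * Complex.I_sq)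
    (fun u hu => hnb _ u hu (norm_e1 _))
  obtain ⟨d, hd⟩ := lim hC (f := fun u => e1 (1 * u) * (w' u - 2 * Real.pi * Complex.I * w u))
    (f' := fun u => e1 (1 * u) * (((κ / u ^ 2 : ℝ) : ℂ) * w u))
    (fun u hu => by
      obtain ⟨h1, h2⟩ := h u hu
      refine ((e1_deriv 1 u).mul
        (h2.sub (h1.const_mul (2 * Real.pi * Complex.I)))).congr_deriv ?_
      simp only [Pi.sub_apply]
      push_cast
      linear_combination (-(4 : ℂ) * Real.pi ^ 2 * w u * e1 (1 * u)) * Complex.I_sq)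
    (fun u hu => hnb _ u hu (norm_e1 _))
  have hpi : (4 * Real.pi * Complex.I : ℂ) ≠ 0 := by
    simp [Real.pi_ne_zero]
  refine ⟨c / (4 * Real.pi * Complex.I), -d / (4 * Real.pi * Complex.I), |κ| * M, fun u hu => ?_⟩
  have hcu := hc u hu
  have hdu := hd u hu
  simp only [neg_mul, one_mul] at hcu hdu
  have hu0 : 0 < u := by linarith
  have hw : w u - (c / (4 * Real.pi * Complex.I) * e1 u +
      -d / (4 * Real.pi * Complex.I) * e1 (-u)) =
      (e1 u * (e1 (-u) * (w' u + 2 * Real.pi * Complex.I * w u) - c) -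
        e1 (-u) * (e1 u * (w' u - 2 * Real.pi * Complex.I * w u) - d)) /
          (4 * Real.pi * Complex.I) := by
    rw [eq_div_iff hpi]
    have he := e1_mul_neg u
    have e2 : (c / (4 * Real.pi * Complex.I)) * (4 * Real.pi * Complex.I) = c :=
      div_mul_cancel₀ _ hpi
    have e3 : (-d / (4 * Real.pi * Complex.I)) * (4 * Real.pi * Complex.I) = -d :=
      div_mul_cancel₀ _ hpi
    linear_combination (-(e1 u)) * e2 - e1 (-u) * e3 - (4 * Real.pi * Complex.I * w u) * he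
  rw [hw, norm_div]
  have hn : ‖(4 * Real.pi * Complex.I : ℂ)‖ = 4 * Real.pi := by
    rw [norm_mul, norm_mul, Complex.norm_I, mul_one, Complex.norm_real, Real.norm_eq_abs,
      abs_of_pos Real.pi_pos]
    simp
  rw [hn]
  have h1 : ‖e1 u * (e1 (-u) * (w' u + 2 * Real.pi * Complex.I * w u) - c) -
        e1 (-u) * (e1 u * (w' u - 2 * Real.pi * Complex.I * w u) - d)‖ ≤
      |κ| * M / u + |κ| * M / u := by
    refine (norm_sub_le _ _).trans ?_
    rw [norm_mul, norm_mul, norm_e1, norm_e1, one_mul, one_mul]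
    exact add_le_add hcu hdu
  have h2 : 0 ≤ |κ| * M / u := div_nonneg hC hu0.le
  rw [div_le_iff₀ (by positivity)]
  have h3 := Real.pi_gt_three
  nlinarith

end Pool.Agent.BIR
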