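import Pool.Agent.BIR.Targets
import Pool.Agent.GRO.P_GLC
import Pool.Agent.VRR.P_LIN

set_option autoImplicit false

/-!
# BIR, target PGF: the planar theorem for all square integrable functions on the Fourier side
-/

namespace Pool.Agent.BIR

open MeasureTheory FourierTransform Set Filter Topology SchwartzMap
open scoped ENNReal NNReal ComplexConjugate
open Pool.Agent.MBS (E ex S)
open Pool.Agent.CRN (sg SH Nice)
open Pool.Agent.CRN.RMN_ (planch0)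
open Pool.Agent.CRW (L3 T_GRW T_GS1)
open Pool.Agent.VRR (BN)

namespace PGF_

theorem L3_pos {t : ℝ} (ht : 0 ≤ t) : 0 < L3 t := by
  unfold L3
  have h1 : 0 ≤ Real.log (3 + t) := Real.log_nonneg (by linarith)
  exact Real.log_pos (by linarith)

theorem L3_cont {R : ℝ} (hR : 0 < R) : Continuous fun x : E 2 => L3 (R * ‖x‖) := by
  unfold L3
  have h0 : ∀ x : E 2, 0 ≤ R * ‖x‖ := fun x => by positivity
  have h1 : Continuous fun x : E 2 => Real.log (3 + R * ‖x‖) :=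
    Continuous.log (by fun_prop) fun x => by
      have := h0 x
      linarith
  refine Continuous.log (continuous_const.add h1) fun x => ?_
  have h2 : 0 ≤ Real.log (3 + R * ‖x‖) := Real.log_nonneg (by
    have := h0 x
    linarith)
  linarith

/-- the maximal function -/
noncomputable def F (h : E 2 → ℂ) (x : E 2) : ℝ≥0∞ :=
  ⨆ (R : ℝ) (_ : 0 < R), ‖BN h R x‖ₑ / ENNReal.ofReal (L3 (R * ‖x‖) ^ 6)

theorem term_eq (h : E 2 → ℂ) {R : ℝ} (hR : 0 < R) (x : E 2) :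
    ‖BN h R x‖ₑ / ENNReal.ofReal (L3 (R * ‖x‖) ^ 6) =
      ENNReal.ofReal (‖BN h R x‖ / L3 (R * ‖x‖) ^ 6) := by
  rw [← ofReal_norm, ENNReal.ofReal_div_of_pos (pow_pos (L3_pos (by positivity)) 6)]

theorem F_meas {h : E 2 → ℂ}
    (hi : ∀ R, Integrable h (volume.restrict (Metric.closedBall (0 : E 2) R))) :
    Measurable (F h) := by
  refine LowerSemicontinuous.measurable ?_
  refine lowerSemicontinuous_iSup fun R => lowerSemicontinuous_iSup fun hR => ?_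
  have e : (fun x => ‖BN h R x‖ₑ / ENNReal.ofReal (L3 (R * ‖x‖) ^ 6)) =
      fun x => ENNReal.ofReal (‖BN h R x‖ / L3 (R * ‖x‖) ^ 6) := by
    funext x
    exact term_eq h hR x
  rw [e]
  refine Continuous.lowerSemicontinuous ?_
  refine ENNReal.continuous_ofReal.comp ?_
  refine (VRR.LIN_.BN_cont (hi R)).norm.div ((L3_cont hR).pow 6) fun x => ?_
  exact (pow_pos (L3_pos (by positivity)) 6).ne'

theorem fatou {g : E 2 → ℂ} {h : ℕ → E 2 → ℂ} (x : E 2)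
    (hl : ∀ R, Tendsto (fun n => ‖BN (h n) R x‖ₑ) atTop (𝓝 ‖BN g R x‖ₑ)) :
    F g x ^ 2 ≤ liminf (fun n => F (h n) x ^ 2) atTop := by
  have h2 : F g x ≤ liminf (fun n => F (h n) x) atTop := by
    refine iSup₂_le fun R hR => ?_
    have h3 : Tendsto (fun n => ‖BN (h n) R x‖ₑ / ENNReal.ofReal (L3 (R * ‖x‖) ^ 6)) atTop
        (𝓝 (‖BN g R x‖ₑ / ENNReal.ofReal (L3 (R * ‖x‖) ^ 6))) := by
      refine ENNReal.Tendsto.div_const (hl R) (Or.inr ?_)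
      exact (ENNReal.ofReal_pos.2 (pow_pos (L3_pos (by positivity)) 6)).ne'
    rw [← h3.liminf_eq]
    refine liminf_le_liminf (Filter.Eventually.of_forall fun n => ?_)
    exact le_iSup₂_of_le (f := fun (R : ℝ) (_ : 0 < R) =>
      ‖BN (h n) R x‖ₑ / ENNReal.ofReal (L3 (R * ‖x‖) ^ 6)) R hR le_rfl
  have h4 : Monotone fun y : ℝ≥0∞ => y ^ 2 := fun a b hab => pow_le_pow_left' hab 2
  have h5 := Monotone.map_liminf_of_continuousAt (F := atTop) h4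
    (fun n : ℕ => F (h n) x) ((ENNReal.continuous_pow 2).continuousAt)
  exact (h4 h2).trans (le_of_eq h5)

theorem core {C : ℝ≥0} (hC : ∀ f : E 2 → ℂ, Nice f →
    ∫⁻ x, (⨆ (R : ℝ) (_ : 0 < R), ‖S f R x‖ₑ / ENNReal.ofReal (L3 (R * ‖x‖) ^ 6)) ^ 2 ≤
      C * ∫⁻ x, ‖f x‖ₑ ^ 2) (φ : 𝓢(E 2, ℂ)) :
    ∫⁻ x, F (φ : E 2 → ℂ) x ^ 2 ≤ C * eLpNorm (φ : E 2 → ℂ) 2 ^ 2 := by
  let f : 𝓢(E 2, ℂ) := 𝓕⁻ φ
  have hF : 𝓕 (f : E 2 → ℂ) = (φ : E 2 → ℂ) := by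
    have h1 : (𝓕 f : 𝓢(E 2, ℂ)) = φ := FourierTransform.fourier_fourierInv_eq φ
    rw [← SchwartzMap.fourier_coe, h1]
  have hS : ∀ (R : ℝ) (x : E 2), S (f : E 2 → ℂ) R x = BN (φ : E 2 → ℂ) R x := by
    intro R x
    rw [S, hF]
    rfl
  have hint : Integrable (f : E 2 → ℂ) := f.integrable
  have hL2 : MemLp (f : E 2 → ℂ) 2 := f.memLp 2
  have h1 := hC (f : E 2 → ℂ) ⟨f.continuous.measurable, hint, hL2⟩
  have h2 : ∫⁻ x, ‖f x‖ₑ ^ 2 = eLpNorm (φ : E 2 → ℂ) 2 ^ 2 := by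
    rw [GRO.GLC_.sq_norm, ← planch0 hint hL2, hF]
  rw [h2] at h1
  refine le_trans (le_of_eq (lintegral_congr fun x => ?_)) h1
  unfold F
  simp only [hS]

theorem m1 {g : E 2 → ℂ} (hg : MemLp g 2) {h : ℕ → E 2 → ℂ} (hh : ∀ n, MemLp (h n) 2)
    (hi : ∀ n R, Integrable (h n) (volume.restrict (Metric.closedBall (0 : E 2) R)))
    (hφ : ∀ n : ℕ, eLpNorm (g - h n) 2 ≤ ENNReal.ofReal (1 / ((n : ℝ) + 1))) :
    ∫⁻ x, F g x ^ 2 ≤ liminf (fun n => ∫⁻ x, F (h n) x ^ 2) atTop := by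
  have h8 : ∀ x : E 2, F g x ^ 2 ≤ liminf (fun n => F (h n) x ^ 2) atTop :=
    fun x => fatou x fun R => GRO.GLC_.Sg_lim hg hh hφ R x
  exact (lintegral_mono h8).trans
    (lintegral_liminf_le fun n => (F_meas (hi n)).pow_const 2)

theorem m2 {C : ℝ≥0} {g : E 2 → ℂ} (hg : MemLp g 2) {h : ℕ → E 2 → ℂ}
    (hh : ∀ n, MemLp (h n) 2)
    (hi : ∀ n R, Integrable (h n) (volume.restrict (Metric.closedBall (0 : E 2) R)))
    (hφ : ∀ n : ℕ, eLpNorm (g - h n) 2 ≤ ENNReal.ofReal (1 / ((n : ℝ) + 1)))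
    (hm : ∀ n, ∫⁻ x, F (h n) x ^ 2 ≤ C * eLpNorm (h n) 2 ^ 2) :
    ∫⁻ x, F g x ^ 2 ≤ C * eLpNorm g 2 ^ 2 :=
  GRO.GLC_.bd (m1 hg hh hi hφ) hm
    fun n => (GRO.GLC_.norm_tri hg (hh n)).trans (add_le_add le_rfl (hφ n))

theorem m3 {C : ℝ≥0} (hC : ∀ f : E 2 → ℂ, Nice f →
    ∫⁻ x, (⨆ (R : ℝ) (_ : 0 < R), ‖S f R x‖ₑ / ENNReal.ofReal (L3 (R * ‖x‖) ^ 6)) ^ 2 ≤
      C * ∫⁻ x, ‖f x‖ₑ ^ 2) {g : E 2 → ℂ} (hg : MemLp g 2) (φ : ℕ → 𝓢(E 2, ℂ))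
    (hφ : ∀ n : ℕ, eLpNorm (g - (φ n : E 2 → ℂ)) 2 ≤ ENNReal.ofReal (1 / ((n : ℝ) + 1))) :
    ∫⁻ x, F g x ^ 2 ≤ C * eLpNorm g 2 ^ 2 := by
  have h1 : ∀ n, MemLp (φ n : E 2 → ℂ) 2 := fun n => (φ n).memLp 2
  have h2 : ∀ n, ∫⁻ x, F (φ n : E 2 → ℂ) x ^ 2 ≤ C * eLpNorm (φ n : E 2 → ℂ) 2 ^ 2 :=
    fun n => core hC (φ n)
  have h3 : ∀ n R, Integrable (φ n : E 2 → ℂ)
      (volume.restrict (Metric.closedBall (0 : E 2) R)) :=
    fun n R => (φ n).integrable.integrableOn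
  exact m2 hg h1 h3 hφ h2

end PGF_

open PGF_ in
theorem p_PGF : T_PGF := by
  intro h1 h2
  obtain ⟨C, hC⟩ := h1 h2
  refine ⟨C, fun g hg hg2 => ?_⟩
  have hgL : MemLp g 2 := VRR.LIN_.memLp hg hg2
  obtain ⟨φ, hφ⟩ := GRO.GLC_.seq hgL
  have h11 := m3 hC hgL φ hφ
  rw [GRO.GLC_.sq_norm] at h11
  exact h11

end Pool.Agent.BIR
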