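import Pool.Agent.BIR.Targets

set_option autoImplicit false

/-!
# PMX: the mixed terms
-/

namespace Pool.Agent.BIR

open MeasureTheory FourierTransform Set Filter Topology
open scoped ENNReal NNReal ComplexConjugate
open Pool.Agent.MBS (E ex S)
open Pool.Agent.CAR (e1)
open Pool.Agent.CRN (sg SH Nice T_CARLS T_POLN T_HELN T_RAYN)

namespace PMX_

theorem norm_e1 (x : ℝ) : ‖e1 x‖ = 1 := by
  unfold e1
  rw [show (2 * Real.pi * Complex.I * (x : ℂ)) = ((2 * Real.pi * x : ℝ) : ℂ) * Complex.I by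
    push_cast; ring]
  exact Complex.norm_exp_ofReal_mul_I _

theorem enorm_e1 (x : ℝ) : ‖e1 x‖ₑ = 1 := by
  rw [← ofReal_norm, norm_e1, ENNReal.ofReal_one]

theorem cont_e1 : Continuous e1 := by
  unfold e1
  fun_prop

theorem meas_QD (R : ℝ) : MeasurableSet (QD R) :=
  (measurableSet_lt measurable_const measurable_fst).inter
    ((measurableSet_lt measurable_const measurable_snd).inter
      (measurableSet_le ((measurable_fst.pow_const 2).add (measurable_snd.pow_const 2))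
        measurable_const))

theorem Q_eq : Q = Ioi (0 : ℝ) ×ˢ Ioi (0 : ℝ) := by
  ext z
  simp [Q]

theorem meas_Q : MeasurableSet Q := by
  rw [Q_eq]
  exact measurableSet_Ioi.prod measurableSet_Ioi

theorem restr_Q : (volume : Measure (ℝ × ℝ)).restrict Q =
    ((volume : Measure ℝ).restrict (Ioi 0)).prod ((volume : Measure ℝ).restrict (Ioi 0)) := by
  rw [Q_eq, Measure.volume_eq_prod, Measure.prod_restrict]

theorem majo (h1 : T_HIL) (H : ℝ → ℝ → ℂ) (M : ℝ → ℝ → ℝ≥0∞) (Φ : ℝ × ℝ → ℝ≥0∞) (C : ℝ≥0∞)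
    (hH : Measurable (fun z : ℝ × ℝ => H z.1 z.2))
    (hM : Measurable (fun z : ℝ × ℝ => M z.1 z.2))
    (hΦ : ∀ z ∈ Q, Φ z ≤ ∫⁻ ρ in Ioi (0 : ℝ), ENNReal.ofReal (1 / (1 + ρ * z.1)) * M ρ z.2)
    (hC : ∀ ρ : ℝ, 0 < ρ → ∫⁻ s in Ioi (0 : ℝ), M ρ s ^ 2 ≤
      C * ∫⁻ σ in Ioi (0 : ℝ), ‖H ρ σ‖ₑ ^ 2) :
    ∫⁻ z in Q, Φ z ^ 2 ≤ 16 * C * ∫⁻ z in Q, ‖H z.1 z.2‖ₑ ^ 2 := by
  have hG : Measurable (fun z : ℝ × ℝ =>
      ∫⁻ ρ in Ioi (0 : ℝ), ENNReal.ofReal (1 / (1 + ρ * z.1)) * M ρ z.2) := by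
    have h : Measurable (fun p : (ℝ × ℝ) × ℝ =>
        ENNReal.ofReal (1 / (1 + p.2 * p.1.1)) * M p.2 p.1.2) := by
      apply Measurable.mul
      · apply ENNReal.measurable_ofReal.comp
        fun_prop
      · exact hM.comp (measurable_snd.prodMk (measurable_snd.comp measurable_fst))
    exact h.lintegral_prod_right'
  have hH2 : Measurable (fun z : ℝ × ℝ => ‖H z.1 z.2‖ₑ ^ 2) := hH.enorm.pow_const 2
  calc ∫⁻ z in Q, Φ z ^ 2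
      ≤ ∫⁻ z in Q, (∫⁻ ρ in Ioi (0 : ℝ), ENNReal.ofReal (1 / (1 + ρ * z.1)) * M ρ z.2) ^ 2 :=
        setLIntegral_mono' meas_Q fun z hz => by
          have := hΦ z hz
          gcongr
    _ = ∫⁻ s in Ioi (0 : ℝ), ∫⁻ r in Ioi (0 : ℝ),
        (∫⁻ ρ in Ioi (0 : ℝ), ENNReal.ofReal (1 / (1 + ρ * r)) * M ρ s) ^ 2 := by
        rw [restr_Q, lintegral_prod_symm _ (hG.pow_const 2).aemeasurable]
    _ ≤ ∫⁻ s in Ioi (0 : ℝ), 16 * ∫⁻ ρ in Ioi (0 : ℝ), M ρ s ^ 2 :=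
        lintegral_mono fun s => h1 (fun ρ => M ρ s)
          (hM.comp (measurable_id.prodMk measurable_const))
    _ = 16 * ∫⁻ s in Ioi (0 : ℝ), ∫⁻ ρ in Ioi (0 : ℝ), M ρ s ^ 2 :=
        lintegral_const_mul' _ _ (by norm_num)
    _ = 16 * ∫⁻ ρ in Ioi (0 : ℝ), ∫⁻ s in Ioi (0 : ℝ), M ρ s ^ 2 := by
        rw [lintegral_lintegral_swap]
        exact ((hM.comp measurable_swap).pow_const 2).aemeasurable
    _ ≤ 16 * ∫⁻ ρ in Ioi (0 : ℝ), C * ∫⁻ σ in Ioi (0 : ℝ), ‖H ρ σ‖ₑ ^ 2 := by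
        gcongr 16 * ?_
        exact setLIntegral_mono' measurableSet_Ioi fun ρ hρ => hC ρ hρ
    _ = 16 * C * ∫⁻ z in Q, ‖H z.1 z.2‖ₑ ^ 2 := by
        rw [lintegral_const_mul C hH2.lintegral_prod_right', restr_Q,
          lintegral_prod _ hH2.aemeasurable, mul_assoc]

/-! ### continuity of primitives -/

theorem le_one_add_sq (x : ℝ≥0∞) : x ≤ 1 + x ^ 2 := by
  rcases le_total x 1 with h | h
  · exact h.trans le_self_add
  · calc x = x * 1 := (mul_one x).symm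
      _ ≤ x * x := by gcongr
      _ = x ^ 2 := (sq x).symm
      _ ≤ 1 + x ^ 2 := le_add_self

theorem cont_prim (g : ℝ → ℂ) (hg : Measurable g)
    (h : ∫⁻ σ in Ioi (0 : ℝ), ‖g σ‖ₑ ^ 2 ≠ ⊤) :
    Continuous fun V : ℝ => ∫ σ in Ioc (0 : ℝ) V, g σ := by
  have hm : Measurable ((Ioi (0 : ℝ)).indicator g) := hg.indicator measurableSet_Ioi
  have h2 : ∫⁻ σ, ‖(Ioi (0 : ℝ)).indicator g σ‖ₑ ^ 2 ≠ ⊤ := by
    have : (fun σ => ‖(Ioi (0 : ℝ)).indicator g σ‖ₑ ^ 2) =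
        (Ioi (0 : ℝ)).indicator (fun σ => ‖g σ‖ₑ ^ 2) := by
      funext σ
      by_cases hσ : σ ∈ Ioi (0 : ℝ)
      · rw [indicator_of_mem hσ, indicator_of_mem hσ]
      · rw [indicator_of_notMem hσ, indicator_of_notMem hσ]
        simp
    rw [this, lintegral_indicator measurableSet_Ioi]
    exact h
  have hint : ∀ a b : ℝ, IntervalIntegrable ((Ioi (0 : ℝ)).indicator g) volume a b := by
    intro a b
    rw [intervalIntegrable_iff]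
    refine ⟨hm.aestronglyMeasurable, ?_⟩
    have h3 : ∫⁻ σ in uIoc a b, ‖(Ioi (0 : ℝ)).indicator g σ‖ₑ ≤
        volume (uIoc a b) + ∫⁻ σ, ‖(Ioi (0 : ℝ)).indicator g σ‖ₑ ^ 2 := by
      calc ∫⁻ σ in uIoc a b, ‖(Ioi (0 : ℝ)).indicator g σ‖ₑ
          ≤ ∫⁻ σ in uIoc a b, (1 + ‖(Ioi (0 : ℝ)).indicator g σ‖ₑ ^ 2) :=
            lintegral_mono fun σ => le_one_add_sq _
        _ = volume (uIoc a b) + ∫⁻ σ in uIoc a b, ‖(Ioi (0 : ℝ)).indicator g σ‖ₑ ^ 2 := by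
            rw [lintegral_add_left measurable_const, lintegral_const, one_mul,
              Measure.restrict_apply_univ]
        _ ≤ _ := add_le_add le_rfl (setLIntegral_le_lintegral _ _)
    have h4 : volume (uIoc a b) ≠ ⊤ := by
      rw [uIoc, Real.volume_Ioc]
      exact ENNReal.ofReal_ne_top
    exact lt_of_le_of_lt h3 (ENNReal.add_lt_top.2 ⟨h4.lt_top, h2.lt_top⟩)
  have hc := intervalIntegral.continuous_primitive hint 0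
  have heq : (fun V : ℝ => ∫ σ in Ioc (0 : ℝ) V, g σ) =
      fun V : ℝ => ∫ x in (0 : ℝ)..(max 0 V), (Ioi (0 : ℝ)).indicator g x := by
    funext V
    rw [intervalIntegral.integral_of_le (le_max_left 0 V)]
    have hs : Ioc (0 : ℝ) (max 0 V) = Ioc (0 : ℝ) V := by
      ext x
      simp only [mem_Ioc, le_max_iff]
      constructor
      · rintro ⟨h5, h6 | h6⟩
        · linarith
        · exact ⟨h5, h6⟩
      · rintro ⟨h5, h6⟩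
        exact ⟨h5, Or.inr h6⟩
    rw [hs]
    exact setIntegral_congr_fun measurableSet_Ioc fun x hx => (indicator_of_mem hx.1 g).symm
  rw [heq]
  exact hc.comp (continuous_const.max continuous_id)

/-! ### the maximal function of one variable -/

/-- the maximal function in the second variable, over rational numbers -/
noncomputable def MM (ε : ℝ) (H : ℝ → ℝ → ℂ) (ρ s : ℝ) : ℝ≥0∞ :=
  ⨆ V : ℚ, ‖∫ σ in Ioc (0 : ℝ) (V : ℝ), H ρ σ * e1 (ε * (σ * s))‖ₑ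

theorem MM_meas (ε : ℝ) (H : ℝ → ℝ → ℂ) (hH : Measurable (fun z : ℝ × ℝ => H z.1 z.2)) :
    Measurable (fun z : ℝ × ℝ => MM ε H z.1 z.2) := by
  unfold MM
  refine Measurable.iSup fun V => ?_
  have h : Measurable (fun p : (ℝ × ℝ) × ℝ => H p.1.1 p.2 * e1 (ε * (p.2 * p.1.2))) := by
    apply Measurable.mul
    · exact hH.comp ((measurable_fst.comp measurable_fst).prodMk measurable_snd)
    · exact cont_e1.measurable.comp (by fun_prop)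
  exact (h.stronglyMeasurable.integral_prod_right'
    (ν := (volume : Measure ℝ).restrict (Ioc (0 : ℝ) (V : ℝ)))).measurable.enorm

theorem meas_row {H : ℝ → ℝ → ℂ} (hH : Measurable (fun z : ℝ × ℝ => H z.1 z.2)) (ρ : ℝ) :
    Measurable (H ρ) := hH.comp (measurable_const.prodMk measurable_id)

theorem le_MM (ε : ℝ) (H : ℝ → ℝ → ℂ) (hH : Measurable (fun z : ℝ × ℝ => H z.1 z.2)) (ρ s V : ℝ)
    (h : ∫⁻ σ in Ioi (0 : ℝ), ‖H ρ σ‖ₑ ^ 2 ≠ ⊤) :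
    ‖∫ σ in Ioc (0 : ℝ) V, H ρ σ * e1 (ε * (σ * s))‖ₑ ≤ MM ε H ρ s := by
  have hg : Measurable (fun σ : ℝ => H ρ σ * e1 (ε * (σ * s))) :=
    (meas_row hH ρ).mul (cont_e1.measurable.comp (by fun_prop))
  have hg2 : ∫⁻ σ in Ioi (0 : ℝ), ‖H ρ σ * e1 (ε * (σ * s))‖ₑ ^ 2 ≠ ⊤ := by
    simpa only [enorm_mul, enorm_e1, mul_one] using h
  refine Rat.denseRange_cast.induction_on
    (p := fun V : ℝ => ‖∫ σ in Ioc (0 : ℝ) V, H ρ σ * e1 (ε * (σ * s))‖ₑ ≤ MM ε H ρ s) V ?_ ?_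
  · exact isClosed_le (continuous_enorm.comp (cont_prim _ hg hg2)) continuous_const
  · intro q
    exact le_iSup (fun V : ℚ => ‖∫ σ in Ioc (0 : ℝ) (V : ℝ), H ρ σ * e1 (ε * (σ * s))‖ₑ) q

theorem MM_le (ε : ℝ) (H : ℝ → ℝ → ℂ) (C : ℝ≥0)
    (hC : ∀ (B : ℝ → ℂ) (a s : ℝ), Measurable B → (s = 1 ∨ s = -1) →
      ∫⁻ ρ, (⨆ R : ℝ, ‖∫ r in Ioc a R, B r * e1 (s * (r * ρ))‖ₑ) ^ 2 ≤
        C * ∫⁻ r in Ioi a, ‖B r‖ₑ ^ 2) (hε : ε = 1 ∨ ε = -1)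
    (hH : Measurable (fun z : ℝ × ℝ => H z.1 z.2)) (ρ : ℝ) :
    ∫⁻ s in Ioi (0 : ℝ), MM ε H ρ s ^ 2 ≤ C * ∫⁻ σ in Ioi (0 : ℝ), ‖H ρ σ‖ₑ ^ 2 := by
  calc ∫⁻ s in Ioi (0 : ℝ), MM ε H ρ s ^ 2 ≤ ∫⁻ s, MM ε H ρ s ^ 2 :=
        setLIntegral_le_lintegral _ _
    _ ≤ ∫⁻ s, (⨆ R : ℝ, ‖∫ σ in Ioc (0 : ℝ) R, H ρ σ * e1 (ε * (σ * s))‖ₑ) ^ 2 := by
        refine lintegral_mono fun s => ?_
        have : MM ε H ρ s ≤ ⨆ R : ℝ, ‖∫ σ in Ioc (0 : ℝ) R, H ρ σ * e1 (ε * (σ * s))‖ₑ :=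
          iSup_le fun V => le_iSup
            (fun R : ℝ => ‖∫ σ in Ioc (0 : ℝ) R, H ρ σ * e1 (ε * (σ * s))‖ₑ) (V : ℝ)
        show MM ε H ρ s ^ 2 ≤ _
        gcongr
    _ ≤ C * ∫⁻ σ in Ioi (0 : ℝ), ‖H ρ σ‖ₑ ^ 2 := hC (H ρ) 0 ε (meas_row hH ρ) hε

theorem enorm_k {k : ℝ → ℂ} (hk : ∀ u, 0 < u → ‖k u‖ ≤ 1 / (1 + u)) {u : ℝ} (hu : 0 < u) :
    ‖k u‖ₑ ≤ ENNReal.ofReal (1 / (1 + u)) := by
  rw [← ofReal_norm]
  exact ENNReal.ofReal_le_ofReal (hk u hu)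

theorem bound1 (ε : ℝ) (H : ℝ → ℝ → ℂ) (k : ℝ → ℂ) (R r s : ℝ) (hr : 0 < r)
    (hH : Measurable (fun z : ℝ × ℝ => H z.1 z.2))
    (hk : ∀ u, 0 < u → ‖k u‖ ≤ 1 / (1 + u))
    (hae : ∀ᵐ ρ : ℝ, 0 < ρ → ∫⁻ σ in Ioi (0 : ℝ), ‖H ρ σ‖ₑ ^ 2 ≠ ⊤) :
    ‖JJ k (fun u => e1 (ε * u)) H R r s‖ₑ ≤
      ∫⁻ ρ in Ioi (0 : ℝ), ENNReal.ofReal (1 / (1 + ρ * r)) * MM ε H ρ s := by
  unfold JJ
  by_cases hF : IntegrableOn (fun z : ℝ × ℝ => H z.1 z.2 * k (z.1 * r) * e1 (ε * (z.2 * s)))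
      (QD R) volume
  · rw [← integral_indicator (meas_QD R)]
    have hI := (integrable_indicator_iff (meas_QD R)).2 hF
    rw [Measure.volume_eq_prod] at hI ⊢
    rw [integral_prod _ hI, ← lintegral_indicator measurableSet_Ioi]
    refine (enorm_integral_le_lintegral_enorm _).trans (lintegral_mono_ae ?_)
    filter_upwards [hae] with ρ hρ
    by_cases h0 : 0 < ρ
    · have hin : (fun σ : ℝ => (QD R).indicator
          (fun z : ℝ × ℝ => H z.1 z.2 * k (z.1 * r) * e1 (ε * (z.2 * s))) (ρ, σ)) =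
          (Ioc (0 : ℝ) (Real.sqrt (R ^ 2 - ρ ^ 2))).indicator
            (fun σ : ℝ => k (ρ * r) * (H ρ σ * e1 (ε * (σ * s)))) := by
        funext σ
        have hiff : (ρ, σ) ∈ QD R ↔ σ ∈ Ioc (0 : ℝ) (Real.sqrt (R ^ 2 - ρ ^ 2)) := by
          unfold QD
          simp only [mem_ofPred_eq, mem_Ioc]
          constructor
          · rintro ⟨_, h5, h6⟩
            refine ⟨h5, (Real.le_sqrt' h5).2 ?_⟩
            linarith
          · rintro ⟨h5, h6⟩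
            have h7 := (Real.le_sqrt' h5).1 h6
            exact ⟨h0, h5, by linarith⟩
        by_cases hσ : (ρ, σ) ∈ QD R
        · rw [indicator_of_mem hσ, indicator_of_mem (hiff.1 hσ)]
          ring
        · rw [indicator_of_notMem hσ, indicator_of_notMem (fun h => hσ (hiff.2 h))]
      rw [hin, integral_indicator measurableSet_Ioc, integral_const_mul,
        indicator_of_mem (show ρ ∈ Ioi (0 : ℝ) from h0), enorm_mul]
      gcongr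
      · exact enorm_k hk (mul_pos h0 hr)
      · exact le_MM ε H hH ρ s _ (hρ h0)
    · have hin : (fun σ : ℝ => (QD R).indicator
          (fun z : ℝ × ℝ => H z.1 z.2 * k (z.1 * r) * e1 (ε * (z.2 * s))) (ρ, σ)) =
          fun _ => 0 := by
        funext σ
        exact indicator_of_notMem (fun h => h0 h.1) _
      rw [hin, integral_zero, enorm_zero]
      exact zero_le
  · rw [integral_undef hF, enorm_zero]
    exact zero_le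

theorem bound3 (H : ℝ → ℝ → ℂ) (k l : ℝ → ℂ) (R r s : ℝ) (hr : 0 < r) (hs : 0 < s)
    (hH : Measurable (fun z : ℝ × ℝ => H z.1 z.2))
    (hk : ∀ u, 0 < u → ‖k u‖ ≤ 1 / (1 + u)) (hl : ∀ u, 0 < u → ‖l u‖ ≤ 1 / (1 + u)) :
    ‖JJ k l H R r s‖ₑ ≤ ∫⁻ ρ in Ioi (0 : ℝ), ENNReal.ofReal (1 / (1 + ρ * r)) *
      ∫⁻ σ in Ioi (0 : ℝ), ENNReal.ofReal (1 / (1 + σ * s)) * ‖H ρ σ‖ₑ := by
  unfold JJ
  have hm : Measurable (fun z : ℝ × ℝ => ENNReal.ofReal (1 / (1 + z.1 * r)) *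
      (ENNReal.ofReal (1 / (1 + z.2 * s)) * ‖H z.1 z.2‖ₑ)) := by
    have a1 : Measurable (fun z : ℝ × ℝ => ENNReal.ofReal (1 / (1 + z.1 * r))) :=
      ENNReal.measurable_ofReal.comp (by fun_prop)
    have a2 : Measurable (fun z : ℝ × ℝ => ENNReal.ofReal (1 / (1 + z.2 * s))) :=
      ENNReal.measurable_ofReal.comp (by fun_prop)
    exact a1.mul (a2.mul hH.enorm)
  calc ‖∫ z in QD R, H z.1 z.2 * k (z.1 * r) * l (z.2 * s)‖ₑ
      ≤ ∫⁻ z in QD R, ‖H z.1 z.2 * k (z.1 * r) * l (z.2 * s)‖ₑ :=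
        enorm_integral_le_lintegral_enorm _
    _ ≤ ∫⁻ z in QD R, ENNReal.ofReal (1 / (1 + z.1 * r)) *
        (ENNReal.ofReal (1 / (1 + z.2 * s)) * ‖H z.1 z.2‖ₑ) := by
        refine setLIntegral_mono' (meas_QD R) fun z hz => ?_
        rw [enorm_mul, enorm_mul]
        calc ‖H z.1 z.2‖ₑ * ‖k (z.1 * r)‖ₑ * ‖l (z.2 * s)‖ₑ
            ≤ ‖H z.1 z.2‖ₑ * ENNReal.ofReal (1 / (1 + z.1 * r)) *
              ENNReal.ofReal (1 / (1 + z.2 * s)) := by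
              gcongr
              · exact enorm_k hk (mul_pos hz.1 hr)
              · exact enorm_k hl (mul_pos hz.2.1 hs)
          _ = _ := by ring
    _ ≤ ∫⁻ z in Q, ENNReal.ofReal (1 / (1 + z.1 * r)) *
        (ENNReal.ofReal (1 / (1 + z.2 * s)) * ‖H z.1 z.2‖ₑ) :=
        lintegral_mono_set fun z hz => ⟨hz.1, hz.2.1⟩
    _ = ∫⁻ ρ in Ioi (0 : ℝ), ∫⁻ σ in Ioi (0 : ℝ), ENNReal.ofReal (1 / (1 + ρ * r)) *
        (ENNReal.ofReal (1 / (1 + σ * s)) * ‖H ρ σ‖ₑ) := by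
        rw [restr_Q, lintegral_prod _ hm.aemeasurable]
    _ = _ := by
        refine lintegral_congr fun ρ => ?_
        exact lintegral_const_mul' _ _ ENNReal.ofReal_ne_top

theorem first (h1 : T_HIL) (C : ℝ≥0)
    (hC : ∀ (B : ℝ → ℂ) (a s : ℝ), Measurable B → (s = 1 ∨ s = -1) →
      ∫⁻ ρ, (⨆ R : ℝ, ‖∫ r in Ioc a R, B r * e1 (s * (r * ρ))‖ₑ) ^ 2 ≤
        C * ∫⁻ r in Ioi a, ‖B r‖ₑ ^ 2)
    (H : ℝ → ℝ → ℂ) (k : ℝ → ℂ) (ε : ℝ) (hH : Measurable (fun z : ℝ × ℝ => H z.1 z.2))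
    (hk : ∀ u, 0 < u → ‖k u‖ ≤ 1 / (1 + u)) (hε : ε = 1 ∨ ε = -1)
    (hfin : ∫⁻ z in Q, ‖H z.1 z.2‖ₑ ^ 2 ≠ ⊤) :
    ∫⁻ z in Q, (⨆ (R : ℝ) (_ : 0 < R), ‖JJ k (fun u => e1 (ε * u)) H R z.1 z.2‖ₑ) ^ 2 ≤
      16 * C * ∫⁻ z in Q, ‖H z.1 z.2‖ₑ ^ 2 := by
  have hH2 : Measurable (fun z : ℝ × ℝ => ‖H z.1 z.2‖ₑ ^ 2) := hH.enorm.pow_const 2
  have hae : ∀ᵐ ρ : ℝ, 0 < ρ → ∫⁻ σ in Ioi (0 : ℝ), ‖H ρ σ‖ₑ ^ 2 ≠ ⊤ := by
    rw [restr_Q, lintegral_prod _ hH2.aemeasurable] at hfin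
    have h2 := ae_lt_top hH2.lintegral_prod_right' hfin
    have h3 := (ae_restrict_iff' measurableSet_Ioi).1 h2
    filter_upwards [h3] with ρ hρ h0
    exact (hρ h0).ne
  refine majo h1 H (MM ε H) _ C hH (MM_meas ε H hH) ?_ (fun ρ _ => MM_le ε H C hC hε hH ρ)
  intro z hz
  exact iSup₂_le fun R _ => bound1 ε H k R z.1 z.2 hz.1 hH hk hae

theorem third (h1 : T_HIL) (H : ℝ → ℝ → ℂ) (k l : ℝ → ℂ)
    (hH : Measurable (fun z : ℝ × ℝ => H z.1 z.2))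
    (hk : ∀ u, 0 < u → ‖k u‖ ≤ 1 / (1 + u)) (hl : ∀ u, 0 < u → ‖l u‖ ≤ 1 / (1 + u)) :
    ∫⁻ z in Q, (⨆ (R : ℝ) (_ : 0 < R), ‖JJ k l H R z.1 z.2‖ₑ) ^ 2 ≤
      16 * 16 * ∫⁻ z in Q, ‖H z.1 z.2‖ₑ ^ 2 := by
  have hM : Measurable (fun z : ℝ × ℝ =>
      ∫⁻ σ in Ioi (0 : ℝ), ENNReal.ofReal (1 / (1 + σ * z.2)) * ‖H z.1 σ‖ₑ) := by
    have h : Measurable (fun p : (ℝ × ℝ) × ℝ =>
        ENNReal.ofReal (1 / (1 + p.2 * p.1.2)) * ‖H p.1.1 p.2‖ₑ) := by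
      have a1 : Measurable (fun p : (ℝ × ℝ) × ℝ => ENNReal.ofReal (1 / (1 + p.2 * p.1.2))) :=
        ENNReal.measurable_ofReal.comp (by fun_prop)
      have a2 : Measurable (fun p : (ℝ × ℝ) × ℝ => ‖H p.1.1 p.2‖ₑ) :=
        (hH.comp ((measurable_fst.comp measurable_fst).prodMk measurable_snd)).enorm
      exact a1.mul a2
    exact h.lintegral_prod_right'
  refine majo h1 H (fun ρ s => ∫⁻ σ in Ioi (0 : ℝ), ENNReal.ofReal (1 / (1 + σ * s)) *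
    ‖H ρ σ‖ₑ) _ 16 hH hM ?_ (fun ρ _ => h1 (fun σ => ‖H ρ σ‖ₑ) (meas_row hH ρ).enorm)
  intro z hz
  exact iSup₂_le fun R _ => bound3 H k l R z.1 z.2 hz.1 hz.2 hH hk hl

/-! ### symmetry -/

theorem swap_QD (R : ℝ) : Prod.swap ⁻¹' QD R = QD R := by
  ext z
  unfold QD
  simp only [mem_preimage, mem_ofPred_eq, Prod.fst_swap, Prod.snd_swap]
  constructor
  · rintro ⟨a, b, c⟩
    exact ⟨b, a, by linarith⟩
  · rintro ⟨a, b, c⟩
    exact ⟨b, a, by linarith⟩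

theorem swap_Q : Prod.swap ⁻¹' Q = Q := by
  ext z
  unfold Q
  simp only [mem_preimage, mem_ofPred_eq, Prod.fst_swap, Prod.snd_swap]
  exact and_comm

theorem mp_swap : MeasurePreserving (Prod.swap : ℝ × ℝ → ℝ × ℝ) volume volume :=
  Measure.measurePreserving_swap

theorem me_swap : MeasurableEmbedding (Prod.swap : ℝ × ℝ → ℝ × ℝ) :=
  (MeasurableEquiv.prodComm (α := ℝ) (β := ℝ)).measurableEmbedding

theorem JJ_swap (k1 k2 : ℝ → ℂ) (H : ℝ → ℝ → ℂ) (R r s : ℝ) :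
    JJ k1 k2 H R r s = JJ k2 k1 (fun a b => H b a) R s r := by
  unfold JJ
  have h := mp_swap.setIntegral_preimage_emb me_swap
    (fun z : ℝ × ℝ => H z.1 z.2 * k1 (z.1 * r) * k2 (z.2 * s)) (QD R)
  rw [swap_QD] at h
  rw [← h]
  refine integral_congr_ae (Eventually.of_forall fun z => ?_)
  simp only [Prod.fst_swap, Prod.snd_swap]
  ring

theorem lint_swap (f : ℝ × ℝ → ℝ≥0∞) : ∫⁻ z in Q, f z.swap = ∫⁻ z in Q, f z := by
  have h := mp_swap.setLIntegral_comp_preimage_emb me_swap f Q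
  rw [swap_Q] at h
  exact h

end PMX_

open PMX_ in
theorem p_PMX (h1 : T_HIL) (h2 : T_RAYN) : T_PMX := by
  intro hcar
  obtain ⟨C, hC⟩ := h2 hcar
  refine ⟨16 * C + 256, ?_⟩
  intro H k l ε hH hkc hlc hk hl hε
  have hC1 : (16 * (C : ℝ≥0∞)) ≤ ((16 * C + 256 : ℝ≥0) : ℝ≥0∞) := by
    push_cast
    exact le_self_add
  have hC2 : (16 * 16 : ℝ≥0∞) ≤ ((16 * C + 256 : ℝ≥0) : ℝ≥0∞) := by
    push_cast
    calc (16 * 16 : ℝ≥0∞) = 256 := by norm_num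
      _ ≤ _ := le_add_self
  by_cases hfin : ∫⁻ z in Q, ‖H z.1 z.2‖ₑ ^ 2 = ⊤
  · have hne : ((16 * C + 256 : ℝ≥0) : ℝ≥0∞) ≠ 0 := by
      rw [ENNReal.coe_ne_zero]
      positivity
    rw [hfin, ENNReal.mul_top hne]
    exact ⟨le_top, le_top, le_top⟩
  · refine ⟨?_, ?_, ?_⟩
    · refine (first h1 C hC H k ε hH hk hε hfin).trans ?_
      gcongr
    · have hH' : Measurable (fun z : ℝ × ℝ => (fun a b => H b a) z.1 z.2) :=
        hH.comp measurable_swap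
      have e2 : ∫⁻ z in Q, ‖(fun a b => H b a) z.1 z.2‖ₑ ^ 2 = ∫⁻ z in Q, ‖H z.1 z.2‖ₑ ^ 2 :=
        lint_swap (fun z : ℝ × ℝ => ‖H z.1 z.2‖ₑ ^ 2)
      have e1' : ∫⁻ z in Q, (⨆ (R : ℝ) (_ : 0 < R),
          ‖JJ (fun u => e1 (ε * u)) k H R z.1 z.2‖ₑ) ^ 2 =
          ∫⁻ z in Q, (⨆ (R : ℝ) (_ : 0 < R),
            ‖JJ k (fun u => e1 (ε * u)) (fun a b => H b a) R z.1 z.2‖ₑ) ^ 2 := by
        rw [← lint_swap (fun z : ℝ × ℝ => (⨆ (R : ℝ) (_ : 0 < R),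
            ‖JJ k (fun u => e1 (ε * u)) (fun a b => H b a) R z.1 z.2‖ₑ) ^ 2)]
        refine lintegral_congr fun z => ?_
        simp only [JJ_swap (fun u => e1 (ε * u)) k H, Prod.fst_swap, Prod.snd_swap]
      rw [e1', ← e2]
      refine (first h1 C hC (fun a b => H b a) k ε hH' hk hε (by rw [e2]; exact hfin)).trans ?_
      gcongr
    · refine (third h1 H k l hH hk hl).trans ?_
      gcongr

end Pool.Agent.BIR
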