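import Pool.Agent.BIR.Targets
import Pool.Agent.CRN.P_ADFN

set_option autoImplicit false

/-!
# BIR, target RAD: the Fourier transform of the surface measure is radial and continuous
-/

namespace Pool.Agent.BIR

open MeasureTheory FourierTransform Set Filter Topology
open scoped ENNReal NNReal ComplexConjugate
open Pool.Agent.MBS (E ex S ex_norm ex_continuous)
open Pool.Agent.CAR (e1)
open Pool.Agent.CRN (sg SH Nice T_CARLS T_POLN T_HELN T_RAYN)

namespace RAD_

open Pool.Agent.CRN.ADFN_ (sm sm_pres sm_continuous ex_iso)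

variable {d : ℕ}

theorem ex_cont_right (x : E d) :
    Continuous fun ω : Metric.sphere (0 : E d) 1 => ex x (ω : E d) := by
  unfold ex
  fun_prop

theorem ex_cont_left (ξ : E d) : Continuous fun x : E d => ex x ξ := by
  unfold ex
  fun_prop

theorem ex_nrm (x ξ : E d) : ‖ex x ξ‖ = 1 := by
  unfold ex
  have h : 2 * (Real.pi : ℂ) * Complex.I * ((inner ℝ x ξ : ℝ) : ℂ) =
      ((2 * Real.pi * inner ℝ x ξ : ℝ) : ℂ) * Complex.I := by
    push_cast
    ring
  rw [h, Complex.norm_exp_ofReal_mul_I]

theorem AA_iso (A : E d ≃ₗᵢ[ℝ] E d) (x : E d) : AA d (A x) = AA d x := by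
  unfold AA
  have h := integral_map (μ := sg d) (φ := sm A) (sm_continuous A).measurable.aemeasurable
    (f := fun ω : Metric.sphere (0 : E d) 1 => ex (A x) (ω : E d))
    (ex_cont_right (A x)).aestronglyMeasurable
  rw [(sm_pres A).map_eq] at h
  rw [h]
  refine integral_congr_ae ?_
  filter_upwards with ω
  exact ex_iso A x ω

theorem AA_norm {x y : E d} (h : ‖x‖ = ‖y‖) : AA d x = AA d y := by
  have h1 := Submodule.reflection_sub h
  rw [← h1, AA_iso]

theorem AA_cont : Continuous (AA d) := by
  have : IsFiniteMeasure (sg d) := by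
    unfold sg
    infer_instance
  unfold AA
  refine continuous_of_dominated (bound := fun _ => (1 : ℝ)) ?_ ?_ ?_ ?_
  · intro x
    exact (ex_cont_right x).aestronglyMeasurable
  · intro x
    filter_upwards with ω
    rw [ex_nrm]
  · exact integrable_const _
  · filter_upwards with ω
    exact ex_cont_left _

end RAD_

theorem p_RAD : T_RAD := by
  intro d hd
  set e : E d := EuclideanSpace.single ⟨0, hd⟩ 1 with he
  have hn : ‖e‖ = 1 := by rw [he, PiLp.norm_single, norm_one]
  refine ⟨fun u => AA d (u • e), ?_, fun u => ?_, fun x => ?_⟩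
  · exact RAD_.AA_cont.comp (continuous_id.smul continuous_const)
  · apply RAD_.AA_norm
    rw [norm_smul, norm_smul, norm_neg]
  · apply RAD_.AA_norm
    rw [norm_smul, hn, mul_one, norm_norm]

end Pool.Agent.BIR
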