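import Pool.Agent.CRW.All
import Pool.Agent.CYL.P_SPL
import Pool.Agent.CYL.P_GEO
import Pool.Agent.CRN.P_HELN
import Pool.Agent.CRN.P_RAYN
import Pool.Agent.BIR.P_PGF
import Pool.Agent.BIR.P_RAD
import Pool.Agent.BIR.P_AS1
import Pool.Agent.BIR.P_ODE
import Pool.Agent.BIR.P_AS2
import Pool.Agent.BIR.P_KER
import Pool.Agent.BIR.P_HIL
import Pool.Agent.BIR.P_PPL
import Pool.Agent.BIR.P_PMX
import Pool.Agent.BIR.P_NIN
import Pool.Agent.BIR.P_BIA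
import Pool.Agent.BIR.P_BIF
import Pool.Agent.BIR.P_NI1
import Pool.Agent.BIR.P_KE1
import Pool.Agent.BIR.P_BI1
import Pool.Agent.BIR.P_BF1

set_option autoImplicit false

/-!
# BIR: assembly (MP_ee701d_an): functions of two radii and axially symmetric functions, all dimensions
-/

namespace Pool.Agent.BIR

theorem q_AS1 : T_AS1 := p_AS1 p_RAD Pool.Agent.CRN.p_POLN

theorem q_AS2 : T_AS2 := p_AS2 p_RAD Pool.Agent.CRN.p_HELN p_ODE

theorem q_Asy : ∀ d : ℕ, 1 ≤ d → Asy d := by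
  intro d hd
  rcases Nat.lt_or_ge d 2 with h | h
  · have e : d = 1 := by omega
    subst e
    exact q_AS1
  · exact q_AS2 d h

theorem q_KER : T_KER := p_KER Pool.Agent.CYL.p_SPL Pool.Agent.CRN.p_POLN

theorem q_PPL : T_PPL := p_PPL p_PGF Pool.Agent.CRW.q_GRW Pool.Agent.CRW.q_GS1

theorem q_PMX : T_PMX := p_PMX p_HIL Pool.Agent.CRN.p_RAYN

theorem q_NIN : T_NIN := p_NIN q_PPL q_PMX Pool.Agent.CRR.q_CARLS

theorem q_BIA : T_BIA := p_BIA q_NIN q_KER Pool.Agent.CYL.p_SPL Pool.Agent.CRN.p_POLN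

theorem q_BIF : T_BIF := p_BIF q_BIA Pool.Agent.CYL.p_GEO

theorem q_NI1 : T_NI1 := p_NI1 q_PPL q_PMX Pool.Agent.CRR.q_CARLS

theorem q_KE1 : T_KE1 := p_KE1 Pool.Agent.CYL.p_SPL Pool.Agent.CRN.p_POLN

theorem q_BI1 : T_BI1 := p_BI1 q_NI1 q_KE1 Pool.Agent.CYL.p_SPL Pool.Agent.CRN.p_POLN

theorem q_BF1 : T_BF1 := p_BF1 q_BI1

end Pool.Agent.BIR
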