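import Pool.Agent.BIR.Targets3
import Pool.Agent.GRO.P_GDC

set_option autoImplicit false

/-!
# BIR, DE1: the disc partial sums on one interval of radii (MP_ee701d_an)
-/

namespace Pool.Agent.BIR

open MeasureTheory FourierTransform Set Filter Topology
open scoped ENNReal NNReal ComplexConjugate
open Pool.Agent.MBS (E ex S)
open Pool.Agent.CRW (L3)
open Pool.Agent.VRR (BN T_CVG)

namespace DE1_

/-- the annulus -/
def An (u v : ℝ) : Set (E 2) := {ξ : E 2 | u < ‖ξ‖ ∧ ‖ξ‖ ≤ v}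

theorem meas_An (u v : ℝ) : MeasurableSet (An u v) :=
  (measurableSet_lt measurable_const measurable_norm).inter
    (measurableSet_le measurable_norm measurable_const)

theorem BN_sub {g : E 2 → ℂ} (hg : Measurable g) (h : ∫⁻ ξ, ‖g ξ‖ₑ ^ 2 ≠ ⊤) (x : E 2)
    {u v R : ℝ} (h1 : u ≤ R) (h2 : R ≤ v) :
    BN g R x - BN g u x =
      ∫ ξ in Metric.closedBall (0 : E 2) R, (An u v).indicator g ξ * ex x ξ := by
  have hint := Pool.Agent.GRO.GDC_.int_ex hg h x R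
  have hsub : Metric.closedBall (0 : E 2) u ⊆ Metric.closedBall (0 : E 2) R :=
    Metric.closedBall_subset_closedBall h1
  have e1 : ∀ ξ : E 2, (An u v).indicator g ξ * ex x ξ =
      (An u v).indicator (fun ξ => g ξ * ex x ξ) ξ := by
    intro ξ
    by_cases hx : ξ ∈ An u v
    · rw [indicator_of_mem hx, indicator_of_mem hx]
    · rw [indicator_of_notMem hx, indicator_of_notMem hx, zero_mul]
  have e2 : Metric.closedBall (0 : E 2) R ∩ An u v =
      Metric.closedBall (0 : E 2) R \ Metric.closedBall (0 : E 2) u := by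
    ext ξ
    simp only [An, mem_inter_iff, mem_diff, mem_ofPred_eq, mem_closedBall_zero_iff, not_le]
    constructor
    · rintro ⟨a, b, -⟩
      exact ⟨a, b⟩
    · rintro ⟨a, b⟩
      exact ⟨a, b, a.trans h2⟩
  unfold BN
  rw [← setIntegral_sdiff Metric.isClosed_closedBall.measurableSet hint hsub]
  simp only [e1]
  rw [setIntegral_indicator (meas_An u v), e2]

/-- a unit vector -/
theorem exists_unit : ∃ e : E 2, ‖e‖ = 1 := by
  obtain ⟨e, he⟩ := exists_norm_eq (E 2) (c := 1) zero_le_one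
  exact ⟨e, he⟩

theorem L3_eq (t : ℝ) : Pool.Agent.GRO.LL t = L3 t := rfl

theorem L3_mono {s t : ℝ} (hs : 0 < s) (h : s ≤ t) : L3 s ≤ L3 t := by
  unfold L3
  have h1 : 0 ≤ Real.log (3 + s) := Real.log_nonneg (by linarith)
  have h2 : Real.log (3 + s) ≤ Real.log (3 + t) := Real.log_le_log (by linarith) (by linarith)
  exact Real.log_le_log (by linarith) (by linarith)

theorem w_mono {s t : ℝ} (hs : 0 < s) (h : s ≤ t) :
    Pool.Agent.GRO.w (12 / 2) s ≤ Pool.Agent.GRO.w (12 / 2) t := by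
  unfold Pool.Agent.GRO.w
  refine ENNReal.ofReal_le_ofReal ?_
  rw [L3_eq, L3_eq]
  have h0 : 1 ≤ L3 s := Pool.Agent.GRO.GDC_.one_le_LL hs.le
  exact Real.rpow_le_rpow (by linarith) (L3_mono hs h) (by norm_num)

theorem w_sq {t : ℝ} (ht : 0 < t) :
    Pool.Agent.GRO.w (12 / 2) t ^ 2 = ENNReal.ofReal (L3 t ^ 12) := by
  unfold Pool.Agent.GRO.w
  have h0 : 1 ≤ L3 t := Pool.Agent.GRO.GDC_.one_le_LL ht.le
  rw [← ENNReal.ofReal_pow (Real.rpow_nonneg (by rw [L3_eq]; linarith) _), L3_eq]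
  congr 1
  have h1 : (12 / 2 : ℝ) = ((6 : ℕ) : ℝ) := by norm_num
  rw [h1, Real.rpow_natCast]
  ring

/-- the bound at one point -/
theorem ptw {g : E 2 → ℂ} (hg : Measurable g) (h : ∫⁻ ξ, ‖g ξ‖ₑ ^ 2 ≠ ⊤) (x : E 2)
    {u v : ℝ} (hu : 0 < u) :
    (⨆ (R : ℝ) (_ : R ∈ Icc u v), ‖BN g R x - BN g u x‖ₑ) ≤
      Pool.Agent.GRO.Ma 12 ((An u v).indicator g) x * Pool.Agent.GRO.w (12 / 2) v := by
  refine iSup₂_le fun R hR => ?_
  have hR0 : 0 < R := lt_of_lt_of_le hu hR.1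
  rw [BN_sub hg h x hR.1 hR.2]
  have h1 : ‖∫ ξ in Metric.closedBall (0 : E 2) R, (An u v).indicator g ξ * ex x ξ‖ₑ /
      Pool.Agent.GRO.w (12 / 2) R ≤ Pool.Agent.GRO.Ma 12 ((An u v).indicator g) x := by
    unfold Pool.Agent.GRO.Ma
    exact le_iSup₂ (f := fun (R : ℝ) (_ : 0 < R) =>
      ‖∫ ξ in Metric.closedBall (0 : E 2) R, (An u v).indicator g ξ * ex x ξ‖ₑ /
        Pool.Agent.GRO.w (12 / 2) R) R hR0
  have hw1 : 1 ≤ Pool.Agent.GRO.w (12 / 2) R :=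
    Pool.Agent.GRO.GDC_.one_le_w (by norm_num) hR0.le
  have hw0 : Pool.Agent.GRO.w (12 / 2) R ≠ 0 := by
    intro h0
    rw [h0] at hw1
    exact absurd hw1 (by norm_num)
  have hwt : Pool.Agent.GRO.w (12 / 2) R ≠ ⊤ := by
    unfold Pool.Agent.GRO.w
    exact ENNReal.ofReal_ne_top
  calc ‖∫ ξ in Metric.closedBall (0 : E 2) R, (An u v).indicator g ξ * ex x ξ‖ₑ
      = ‖∫ ξ in Metric.closedBall (0 : E 2) R, (An u v).indicator g ξ * ex x ξ‖ₑ /
          Pool.Agent.GRO.w (12 / 2) R * Pool.Agent.GRO.w (12 / 2) R :=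
        (ENNReal.div_mul_cancel hw0 hwt).symm
    _ ≤ Pool.Agent.GRO.Ma 12 ((An u v).indicator g) x * Pool.Agent.GRO.w (12 / 2) v :=
        mul_le_mul' h1 (w_mono hR0 hR.2)

end DE1_

open DE1_ in
theorem p_DE1 (h1 : Pool.Agent.GRO.T_GSS) : T_DE1 := by
  obtain ⟨C, hC⟩ := h1
  obtain ⟨e, he⟩ := exists_unit
  refine ⟨C, fun g x0 u v hg hs hu huv => ?_⟩
  have hv : 0 < v := lt_of_lt_of_le hu huv
  have h2 := hC 12 {e} (Finset.singleton_nonempty e) ((An u v).indicator g) x0 (by norm_num)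
    le_rfl (by simpa using he) (hg.indicator (meas_An u v))
  have e1 : ∫⁻ ξ, ‖(An u v).indicator g ξ‖ₑ ^ 2 *
      Pool.Agent.GRO.w (12 - 12) (({e} : Finset (E 2)).inf' (Finset.singleton_nonempty e)
        (fun e => Pool.Agent.CRF.dl e ξ)) = ∫⁻ ξ in An u v, ‖g ξ‖ₑ ^ 2 := by
    rw [← lintegral_indicator (meas_An u v)]
    refine lintegral_congr fun ξ => ?_
    have hw : ∀ t : ℝ, Pool.Agent.GRO.w (12 - 12) t = 1 := by
      intro t
      unfold Pool.Agent.GRO.w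
      rw [sub_self, Real.rpow_zero, ENNReal.ofReal_one]
    rw [hw, mul_one]
    by_cases hx : ξ ∈ An u v
    · rw [indicator_of_mem hx, indicator_of_mem hx]
    · rw [indicator_of_notMem hx, indicator_of_notMem hx, enorm_zero]
      norm_num
  rw [e1, Finset.card_singleton, Nat.cast_one, mul_one] at h2
  have hwt : Pool.Agent.GRO.w (12 / 2) v ^ 2 ≠ ⊤ := by
    rw [w_sq hv]
    exact ENNReal.ofReal_ne_top
  calc ∫⁻ x in Metric.closedBall x0 1,
        (⨆ (R : ℝ) (_ : R ∈ Icc u v), ‖BN g R x - BN g u x‖ₑ) ^ 2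
      ≤ ∫⁻ x in Metric.closedBall x0 1, Pool.Agent.GRO.w (12 / 2) v ^ 2 *
          Pool.Agent.GRO.Ma 12 ((An u v).indicator g) x ^ 2 := by
        refine lintegral_mono fun x => ?_
        rw [mul_comm, ← mul_pow]
        exact pow_le_pow_left' (ptw hg hs x hu) 2
    _ = Pool.Agent.GRO.w (12 / 2) v ^ 2 * ∫⁻ x in Metric.closedBall x0 1,
          Pool.Agent.GRO.Ma 12 ((An u v).indicator g) x ^ 2 := lintegral_const_mul' _ _ hwt
    _ ≤ Pool.Agent.GRO.w (12 / 2) v ^ 2 * (C * ∫⁻ ξ in An u v, ‖g ξ‖ₑ ^ 2) :=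
        mul_le_mul_right h2 _
    _ = C * ENNReal.ofReal (L3 v ^ 12) * ∫⁻ ξ in An u v, ‖g ξ‖ₑ ^ 2 := by
        rw [w_sq hv]
        ring

end Pool.Agent.BIR
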