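import Pool.Agent.BIR.Targets3

/-!
# BIR, target DE2: selection
-/

set_option autoImplicit false

namespace Pool.Agent.BIR

open MeasureTheory FourierTransform Set Filter Topology
open scoped ENNReal NNReal ComplexConjugate
open Pool.Agent.CRW (L3)

namespace DE2_

theorem L3_le (i : ℕ) : 0 ≤ L3 (2 ^ ((i + 1) ^ 2)) ∧
    L3 (2 ^ ((i + 1) ^ 2)) ≤ 2 * Real.log ((i : ℝ) + 4) := by
  have h1 : (1 : ℝ) ≤ 2 ^ ((i + 1) ^ 2) := one_le_pow₀ (by norm_num)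
  have h2 : Real.log (3 + 2 ^ ((i + 1) ^ 2)) ≤ 2 + ((i : ℝ) + 1) ^ 2 := by
    have h3 : Real.log (3 + 2 ^ ((i + 1) ^ 2)) ≤ Real.log (2 ^ 2 * 2 ^ ((i + 1) ^ 2)) :=
      Real.log_le_log (by positivity) (by linarith)
    refine h3.trans ?_
    rw [← pow_add, Real.log_pow]
    have h4 := Real.log_two_lt_d9
    have h5 : (0 : ℝ) ≤ ((2 + (i + 1) ^ 2 : ℕ) : ℝ) := by positivity
    calc ((2 + (i + 1) ^ 2 : ℕ) : ℝ) * Real.log 2 ≤ ((2 + (i + 1) ^ 2 : ℕ) : ℝ) * 1 := by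
          refine mul_le_mul_of_nonneg_left ?_ h5
          linarith
      _ = 2 + ((i : ℝ) + 1) ^ 2 := by
          push_cast
          ring
  have h6 : 0 ≤ Real.log (3 + 2 ^ ((i + 1) ^ 2)) := Real.log_nonneg (by linarith)
  unfold Pool.Agent.CRW.L3
  refine ⟨Real.log_nonneg (by linarith), ?_⟩
  have h7 : (2 : ℝ) * Real.log ((i : ℝ) + 4) = Real.log (((i : ℝ) + 4) ^ 2) := by
    rw [Real.log_pow]
    norm_num
  rw [h7]
  refine Real.log_le_log (by linarith) ?_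
  have h8 : (0 : ℝ) ≤ i := Nat.cast_nonneg i
  nlinarith

theorem L3_pow : ∀ᶠ i : ℕ in atTop, L3 (2 ^ ((i + 1) ^ 2)) ^ 12 ≤ 2 ^ 12 * ((i : ℝ) + 4) := by
  have h1 := (Real.isLittleO_pow_log_id_atTop (n := 12)).bound one_pos
  have h2 : Tendsto (fun i : ℕ => (i : ℝ) + 4) atTop atTop :=
    tendsto_atTop_add_const_right _ _ tendsto_natCast_atTop_atTop
  filter_upwards [h2.eventually h1] with i hi
  obtain ⟨h3, h4⟩ := L3_le i
  have h5 : (0 : ℝ) ≤ (i : ℝ) + 4 := by positivity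
  rw [Real.norm_eq_abs, id, Real.norm_eq_abs, abs_of_nonneg h5, one_mul] at hi
  have h6 := (le_abs_self _).trans hi
  calc L3 (2 ^ ((i + 1) ^ 2)) ^ 12 ≤ (2 * Real.log ((i : ℝ) + 4)) ^ 12 :=
        pow_le_pow_left₀ h3 h4 12
    _ = 2 ^ 12 * Real.log ((i : ℝ) + 4) ^ 12 := by rw [mul_pow]
    _ ≤ 2 ^ 12 * ((i : ℝ) + 4) := by gcongr

theorem not_summable {c : ℝ} (hc : 0 < c) {f : ℕ → ℝ}
    (h : ∀ᶠ i : ℕ in atTop, c / ((i : ℝ) + 4) ≤ f i) : ¬ Summable f := by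
  intro hf
  have h1 : Summable fun i : ℕ => c / ((i : ℝ) + 4) := by
    refine Summable.of_norm_bounded_eventually_nat hf ?_
    filter_upwards [h] with i hi
    rw [Real.norm_eq_abs, abs_of_nonneg (by positivity)]
    exact hi
  have h2 : Summable fun i : ℕ => 1 / ((i + 4 : ℕ) : ℝ) := by
    have h3 := h1.mul_left (1 / c)
    refine h3.congr fun i => ?_
    push_cast
    field_simp
  rw [summable_nat_add_iff (f := fun n : ℕ => 1 / (n : ℝ)) 4] at h2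
  exact Real.not_summable_one_div_natCast h2

theorem sel {m t : ℕ → ℝ≥0∞} (hm : ∑' i, m i ≠ ⊤) (ht : Tendsto t atTop (𝓝 0)) {ε : ℝ≥0∞}
    (hε : 0 < ε) (hε' : ε ≠ ⊤) : ∃ᶠ i : ℕ in atTop,
      ENNReal.ofReal (L3 (2 ^ ((i + 1) ^ 2)) ^ 12) * m i + t i ≤ ε := by
  intro hcon
  have hm0 : ∀ i, m i ≠ ⊤ := ENNReal.ne_top_of_tsum_ne_top hm
  have h2 : (0 : ℝ≥0∞) < ε / 2 := ENNReal.half_pos hε.ne'
  have h3 : ∀ᶠ i : ℕ in atTop, t i ≤ ε / 2 := ht.eventually_le_const h2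
  have hεr : 0 < (ε / 2).toReal := ENNReal.toReal_pos h2.ne'
    (ENNReal.div_ne_top hε' (by norm_num))
  refine not_summable (c := (ε / 2).toReal / 2 ^ 12) (by positivity) (f := fun i => (m i).toReal)
    ?_ (ENNReal.summable_toReal hm)
  filter_upwards [hcon, h3, L3_pow] with i h4 h5 h6
  rw [not_le] at h4
  have h7 : ε / 2 ≤ ENNReal.ofReal (L3 (2 ^ ((i + 1) ^ 2)) ^ 12) * m i := by
    by_contra h8
    rw [not_le] at h8
    have h9 : ENNReal.ofReal (L3 (2 ^ ((i + 1) ^ 2)) ^ 12) * m i + t i ≤ ε / 2 + ε / 2 :=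
      add_le_add h8.le h5
    rw [ENNReal.add_halves] at h9
    exact absurd h9 (not_le.2 h4)
  have h10 : (ε / 2).toReal ≤ L3 (2 ^ ((i + 1) ^ 2)) ^ 12 * (m i).toReal := by
    have h11 := ENNReal.toReal_mono (ENNReal.mul_ne_top ENNReal.ofReal_ne_top (hm0 i)) h7
    rwa [ENNReal.toReal_mul, ENNReal.toReal_ofReal (pow_nonneg (L3_le i).1 12)] at h11
  have h12 : (0 : ℝ) < (i : ℝ) + 4 := by positivity
  rw [div_div, div_le_iff₀ (by positivity)]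
  refine h10.trans ?_
  rw [mul_comm (m i).toReal]
  exact mul_le_mul_of_nonneg_right h6 ENNReal.toReal_nonneg

end DE2_

open DE2_ in
theorem p_DE2 : T_DE2 := by
  intro m t hm ht
  have hP : ∀ k : ℕ, ∃ᶠ i : ℕ in atTop,
      ENNReal.ofReal (L3 (2 ^ ((i + 1) ^ 2)) ^ 12) * m i + t i ≤ (2⁻¹ : ℝ≥0∞) ^ k := by
    intro k
    refine sel hm ht ?_ ?_
    · exact ENNReal.pow_pos (by simp) k
    · exact ENNReal.pow_ne_top (by simp)
  obtain ⟨κ, hκ, h⟩ := Filter.extraction_forall_of_frequently hP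
  refine ⟨κ, hκ, ?_⟩
  refine ne_top_of_le_ne_top ?_ (ENNReal.tsum_le_tsum h)
  rw [ENNReal.tsum_geometric]
  simp

end Pool.Agent.BIR
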