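import Pool.Agent.BIR.Targets3
import Pool.Agent.VRC.P_RAC

set_option autoImplicit false

/-!
# BIR, target DE3: convergence along long intervals of radii
-/

namespace Pool.Agent.BIR

open MeasureTheory FourierTransform Set Filter Topology
open scoped ENNReal NNReal ComplexConjugate
open Pool.Agent.MBS (E ex S)
open Pool.Agent.CRW (L3)
open Pool.Agent.VRR (BN T_CVG)
open Pool.Agent.CRF.FAE_
open Pool.Agent.VRC.RAC_ (ou ou_sq shell)

namespace DE3_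

variable {n : ℕ}

theorem sq_add (a b : ℝ≥0∞) : (a + b) ^ 2 ≤ 4 * (a ^ 2 + b ^ 2) := by
  rcases le_total a b with h | h
  · calc (a + b) ^ 2 ≤ (b + b) ^ 2 := by gcongr
      _ = 4 * b ^ 2 := by ring
      _ ≤ _ := by
        gcongr
        exact le_add_self
  · calc (a + b) ^ 2 ≤ (a + a) ^ 2 := by gcongr
      _ = 4 * a ^ 2 := by ring
      _ ≤ _ := by
        gcongr
        exact le_self_add

theorem bi_neg (g : E n → ℂ) (x : E n) : BI g (-1) x = 0 := by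
  unfold BI
  rw [Metric.closedBall_eq_empty.2 (by norm_num : (-1 : ℝ) < 0)]
  simp

theorem ou_lim {g : E n → ℂ} (hg : Measurable g) (h2 : ∫⁻ ξ, ‖g ξ‖ₑ ^ 2 ≠ ⊤) :
    Tendsto (fun R : ℝ => ∫⁻ ξ, ‖ou g R ξ‖ₑ ^ 2) atTop (𝓝 0) := by
  have h5 : Tendsto (fun N : ℕ => ∫⁻ ξ, ‖tr g N ξ‖ₑ ^ 2) atTop (𝓝 0) := by
    have := tr_lim (W := fun _ : E n => (1 : ℝ≥0∞)) measurable_const hg (by simpa using h2)
    simpa using this
  have h6 : Tendsto (fun R : ℝ => ∫⁻ ξ, ‖tr g ⌊R⌋₊ ξ‖ₑ ^ 2) atTop (𝓝 0) :=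
    h5.comp tendsto_nat_floor_atTop
  refine tendsto_of_tendsto_of_tendsto_of_le_of_le' tendsto_const_nhds h6
    (Eventually.of_forall fun _ => zero_le) ?_
  filter_upwards [eventually_ge_atTop (0 : ℝ)] with R hR
  refine lintegral_mono fun ξ => ?_
  unfold ou tr
  by_cases h7 : ξ ∈ {ξ : E n | R < ‖ξ‖}
  · have h8 : ξ ∈ {ξ : E n | ((⌊R⌋₊ : ℕ) : ℝ) < ‖ξ‖} := lt_of_le_of_lt (Nat.floor_le hR) h7
    rw [indicator_of_mem h7, indicator_of_mem h8]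
  · rw [indicator_of_notMem h7]
    simp

theorem memL {g : E n → ℂ} (hg : Measurable g) (h2 : ∫⁻ ξ, ‖g ξ‖ₑ ^ 2 ≠ ⊤) (N : ℕ) :
    MemLp (fun x => BI g N x) 2 := by
  refine memLp_of_lint (BI_cont (intOn hg h2 N)).aestronglyMeasurable ?_
  have h3 := shell hg h2 (R := -1) (R' := (N : ℝ)) (by
    have : (0 : ℝ) ≤ N := Nat.cast_nonneg N
    linarith)
  simp only [bi_neg, zero_sub, enorm_neg] at h3
  exact ne_top_of_le_ne_top h2 (h3.trans (lintegral_mono fun ξ => ou_sq g (-1) ξ))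

theorem eL (f : E n → ℂ) : eLpNorm f 2 = (∫⁻ x, ‖f x‖ₑ ^ 2) ^ (1 / 2 : ℝ) := by
  rw [eLpNorm_eq_lintegral_rpow_enorm_toReal (by norm_num) (by norm_num)]
  simp only [ENNReal.toReal_ofNat, ENNReal.rpow_ofNat]

theorem eL2 (f : E n → ℂ) : ∫⁻ x, ‖f x‖ₑ ^ 2 = eLpNorm f 2 ^ 2 := by
  rw [eL, ← ENNReal.rpow_natCast, ← ENNReal.rpow_mul]
  norm_num

theorem l2lim {g : E n → ℂ} (hg : Measurable g) (h2 : ∫⁻ ξ, ‖g ξ‖ₑ ^ 2 ≠ ⊤) :
    ∃ F : E n → ℂ, MemLp F 2 ∧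
      Tendsto (fun R : ℝ => ∫⁻ x, ‖BI g R x - F x‖ₑ ^ 2) atTop (𝓝 0) := by
  have hou := ou_lim hg h2
  have : Fact ((1 : ℝ≥0∞) ≤ 2) := ⟨by norm_num⟩
  let f : ℕ → Lp ℂ 2 (volume : Measure (E n)) := fun N => (memL hg h2 N).toLp
  have hc : CauchySeq f := by
    rw [EMetric.cauchySeq_iff_le_tendsto_0]
    refine ⟨fun N : ℕ => (∫⁻ ξ, ‖ou g N ξ‖ₑ ^ 2) ^ (1 / 2 : ℝ), ?_, ?_⟩
    rotate_left
    · have h3 : Tendsto (fun N : ℕ => ∫⁻ ξ, ‖ou g N ξ‖ₑ ^ 2) atTop (𝓝 0) :=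
        hou.comp tendsto_natCast_atTop_atTop
      have h4 := h3.ennrpow_const (1 / 2 : ℝ)
      rwa [ENNReal.zero_rpow_of_pos (by norm_num)] at h4
    · have key : ∀ N k l : ℕ, N ≤ k → k ≤ l → edist (f k) (f l) ≤
          (∫⁻ ξ, ‖ou g N ξ‖ₑ ^ 2) ^ (1 / 2 : ℝ) := by
        intro N k l hk hl
        rw [Lp.edist_toLp_toLp, eL]
        refine ENNReal.rpow_le_rpow ?_ (by norm_num)
        have h5 := shell hg h2 (R := (k : ℝ)) (R' := (l : ℝ)) (by exact_mod_cast hl)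
        refine h5.trans (lintegral_mono fun ξ => ?_)
        unfold ou
        by_cases h7 : ξ ∈ {ξ : E n | (k : ℝ) < ‖ξ‖}
        · have h8 : ξ ∈ {ξ : E n | (N : ℝ) < ‖ξ‖} :=
            lt_of_le_of_lt (show (N : ℝ) ≤ k by exact_mod_cast hk) h7
          rw [indicator_of_mem h7, indicator_of_mem h8]
        · rw [indicator_of_notMem h7]
          simp
      intro k l N hk hl
      rcases le_total k l with h | h
      · exact key N k l hk h
      · rw [edist_comm]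
        exact key N l k hl h
  obtain ⟨F, hF⟩ := cauchySeq_tendsto_of_complete hc
  refine ⟨F, Lp.memLp F, ?_⟩
  have h6 : Tendsto (fun N : ℕ => ∫⁻ x, ‖BI g N x - F x‖ₑ ^ 2) atTop (𝓝 0) := by
    have h7 := tendsto_iff_edist_tendsto_0.1 hF
    have h8 : ∀ N : ℕ, ∫⁻ x, ‖BI g N x - F x‖ₑ ^ 2 = edist (f N) F ^ 2 := by
      intro N
      rw [Lp.edist_def, eL2 (fun x => BI g N x - F x)]
      congr 1
      refine eLpNorm_congr_ae ?_
      filter_upwards [(memL hg h2 N).coeFn_toLp] with x hx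
      simp only [Pi.sub_apply]
      rw [← hx]
    simp only [h8]
    have h9 := ENNReal.Tendsto.pow h7 (n := 2)
    simpa using h9
  have h7 : Tendsto (fun R : ℝ => 4 * ((∫⁻ ξ, ‖ou g R ξ‖ₑ ^ 2) +
      (∫⁻ x, ‖BI g (⌈R⌉₊ : ℕ) x - F x‖ₑ ^ 2))) atTop (𝓝 0) := by
    have h8 := ENNReal.Tendsto.const_mul (hou.add (h6.comp tendsto_nat_ceil_atTop))
      (Or.inr (ENNReal.ofNat_ne_top (n := 4)))
    simpa using h8
  refine tendsto_of_tendsto_of_tendsto_of_le_of_le tendsto_const_nhds h7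
    (fun _ => zero_le) fun R => ?_
  have hm : Measurable fun x => ‖BI g R x - BI g (⌈R⌉₊ : ℕ) x‖ₑ ^ 2 :=
    (((BI_cont (intOn hg h2 R)).measurable.sub
      (BI_cont (intOn hg h2 _)).measurable).enorm).pow_const 2
  calc ∫⁻ x, ‖BI g R x - F x‖ₑ ^ 2
      ≤ ∫⁻ x, 4 * (‖BI g R x - BI g (⌈R⌉₊ : ℕ) x‖ₑ ^ 2 + ‖BI g (⌈R⌉₊ : ℕ) x - F x‖ₑ ^ 2) := by
        refine lintegral_mono fun x => le_trans ?_ (sq_add _ _)
        refine pow_le_pow_left₀ zero_le ?_ 2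
        have e : BI g R x - F x = (BI g R x - BI g (⌈R⌉₊ : ℕ) x) +
          (BI g (⌈R⌉₊ : ℕ) x - F x) := by ring
        rw [e]
        exact enorm_add_le _ _
    _ = 4 * ((∫⁻ x, ‖BI g R x - BI g (⌈R⌉₊ : ℕ) x‖ₑ ^ 2) +
          (∫⁻ x, ‖BI g (⌈R⌉₊ : ℕ) x - F x‖ₑ ^ 2)) := by
        rw [lintegral_const_mul' _ _ (ENNReal.ofNat_ne_top (n := 4)), lintegral_add_left hm]
    _ ≤ _ := mul_le_mul' le_rfl (add_le_add (shell hg h2 (Nat.le_ceil R)) le_rfl)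

/-- the sup over an interval of radii is measurable -/
theorem sup_meas {g : E n → ℂ} (hg : Measurable g) (h2 : ∫⁻ ξ, ‖g ξ‖ₑ ^ 2 ≠ ⊤) (u v : ℝ) :
    Measurable fun x : E n => ⨆ (R : ℝ) (_ : R ∈ Icc u v), ‖BN g R x - BN g u x‖ₑ := by
  refine LowerSemicontinuous.measurable ?_
  refine lowerSemicontinuous_iSup fun R => lowerSemicontinuous_iSup fun _ => ?_
  exact ((BI_cont (intOn hg h2 R)).sub (BI_cont (intOn hg h2 u))).enorm.lowerSemicontinuous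

/-- the radii -/
noncomputable def w (i : ℕ) : ℝ := 2 ^ (i ^ 2)

theorem w_mono : Monotone w := by
  intro i j h
  unfold w
  exact pow_le_pow_right₀ (by norm_num) (Nat.pow_le_pow_left h 2)

theorem w_pos (i : ℕ) : 0 < w i := by
  unfold w
  positivity

theorem w_ge (i : ℕ) : (i : ℝ) ≤ w i := by
  unfold w
  have h1 : i ≤ i ^ 2 := Nat.le_self_pow (by norm_num) i
  have h2 : i < 2 ^ i := Nat.lt_two_pow_self
  calc (i : ℝ) ≤ (2 : ℝ) ^ i := by exact_mod_cast h2.le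
    _ ≤ 2 ^ (i ^ 2) := pow_le_pow_right₀ (by norm_num) h1

theorem w_div (i : ℕ) : (i : ℝ) ≤ w (i + 1) / w i := by
  rw [le_div_iff₀ (w_pos i)]
  unfold w
  have e : (i + 1) ^ 2 = (2 * i + 1) + i ^ 2 := by ring
  rw [e, pow_add]
  have h2 : i < 2 ^ i := Nat.lt_two_pow_self
  have h3 : (i : ℝ) ≤ (2 : ℝ) ^ (2 * i + 1) := by
    calc (i : ℝ) ≤ (2 : ℝ) ^ i := by exact_mod_cast h2.le
      _ ≤ 2 ^ (2 * i + 1) := pow_le_pow_right₀ (by norm_num) (by omega)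
  exact mul_le_mul_of_nonneg_right h3 (by positivity)

/-- the shells -/
def A (n i : ℕ) : Set (E n) := {ξ : E n | w i < ‖ξ‖ ∧ ‖ξ‖ ≤ w (i + 1)}

theorem A_meas (i : ℕ) : MeasurableSet (A n i) :=
  (measurableSet_lt measurable_const measurable_norm).inter
    (measurableSet_le measurable_norm measurable_const)

theorem A_disj : Pairwise (Function.onFun Disjoint (A n)) := by
  rw [pairwise_disjoint_on]
  intro i j hij
  rw [Set.disjoint_left]
  rintro ξ ⟨_, h1⟩ ⟨h2, _⟩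
  have h3 : w (i + 1) ≤ w j := w_mono (by omega)
  linarith

theorem m_fin {g : E n → ℂ} (h2 : ∫⁻ ξ, ‖g ξ‖ₑ ^ 2 ≠ ⊤) :
    ∑' i, ∫⁻ ξ in A n i, ‖g ξ‖ₑ ^ 2 ≠ ⊤ := by
  rw [← lintegral_iUnion (fun i => A_meas i) A_disj]
  exact ne_top_of_le_ne_top h2 (setLIntegral_le_lintegral _ _)

end DE3_

open DE3_ in
/-- DE3 -/
theorem p_DE3 (h1 : T_DE1) (h2 : T_DE2) : T_DE3 := by
  intro g hg hg2
  obtain ⟨C, hC⟩ := h1
  obtain ⟨F, hF, hlim⟩ := l2lim hg hg2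
  have hw : Tendsto w atTop atTop :=
    tendsto_atTop_mono w_ge tendsto_natCast_atTop_atTop
  obtain ⟨κ, hκ, hs⟩ := h2 (fun i => ∫⁻ ξ in A 2 i, ‖g ξ‖ₑ ^ 2)
    (fun i => ∫⁻ x, ‖BI g (w i) x - F x‖ₑ ^ 2) (m_fin hg2) (hlim.comp hw)
  have hk : Tendsto κ atTop atTop := hκ.tendsto_atTop
  have hu : Monotone fun k => w (κ k + 1) := fun a b hab =>
    w_mono (Nat.add_le_add_right (hκ.monotone hab) 1)
  refine ⟨fun k => w (κ k), fun k => w (κ k + 1), F, fun k => ⟨w_pos _, w_mono (Nat.le_succ _)⟩,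
    hw.comp hk, ?_, hF, hlim, ?_⟩
  · exact (tendsto_atTop_mono w_div tendsto_natCast_atTop_atTop).comp hk
  refine ae_of_discs fun x0 => ?_
  set sp : ℕ → E 2 → ℝ≥0∞ := fun k x =>
    ⨆ (R : ℝ) (_ : R ∈ Icc (w (κ k)) (w (κ k + 1))), ‖BN g R x - BN g (w (κ k)) x‖ₑ with hsp
  set df : ℕ → E 2 → ℝ≥0∞ := fun k x => ‖BI g (w (κ k)) x - F x‖ₑ with hdf
  have hspm : ∀ k, Measurable fun x => sp k x ^ 2 := fun k =>
    (sup_meas hg hg2 _ _).pow_const 2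
  have hdfm : ∀ k, AEMeasurable (fun x => df k x ^ 2)
      (volume.restrict (Metric.closedBall x0 1)) := by
    intro k
    have h3 : AEStronglyMeasurable (fun x => BI g (w (κ k)) x - F x) volume :=
      (BI_cont (intOn hg hg2 _)).aestronglyMeasurable.sub hF.1
    exact (h3.enorm.pow_const 2).restrict
  have hfin : ∫⁻ x in Metric.closedBall x0 1, ∑' k, (sp k x ^ 2 + df k x ^ 2) ≠ ⊤ := by
    rw [lintegral_tsum (f := fun k x => sp k x ^ 2 + df k x ^ 2)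
      fun k => (hspm k).aemeasurable.add (hdfm k)]
    have h3 : ∑' k, ∫⁻ x in Metric.closedBall x0 1, (sp k x ^ 2 + df k x ^ 2) ≤
        ∑' k, ((C : ℝ≥0∞) + 1) * (ENNReal.ofReal (L3 (2 ^ ((κ k + 1) ^ 2)) ^ 12) *
          (∫⁻ ξ in A 2 (κ k), ‖g ξ‖ₑ ^ 2) + ∫⁻ x, ‖BI g (w (κ k)) x - F x‖ₑ ^ 2) := by
      refine ENNReal.tsum_le_tsum fun k => ?_
      rw [lintegral_add_left (hspm k), mul_add]
      refine add_le_add ?_ ?_
      · refine (hC g x0 (w (κ k)) (w (κ k + 1)) hg hg2 (w_pos _) (w_mono (Nat.le_succ _))).trans ?_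
        rw [mul_assoc]
        refine mul_le_mul' le_self_add le_rfl
      · refine (setLIntegral_le_lintegral _ _).trans ?_
        calc ∫⁻ x, df k x ^ 2 = 1 * ∫⁻ x, ‖BI g (w (κ k)) x - F x‖ₑ ^ 2 := (one_mul _).symm
          _ ≤ _ := mul_le_mul' le_add_self le_rfl
    refine ne_top_of_le_ne_top ?_ h3
    rw [ENNReal.tsum_mul_left]
    exact ENNReal.mul_ne_top (ENNReal.add_ne_top.2 ⟨ENNReal.coe_ne_top, ENNReal.one_ne_top⟩) hs
  have hmm : AEMeasurable (fun x => ∑' k, (sp k x ^ 2 + df k x ^ 2))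
      (volume.restrict (Metric.closedBall x0 1)) :=
    AEMeasurable.ennreal_tsum fun k => (hspm k).aemeasurable.add (hdfm k)
  filter_upwards [ae_lt_top' hmm hfin] with x hx
  have h4 : Tendsto (fun k => sp k x ^ 2 + df k x ^ 2) atTop (𝓝 0) :=
    ENNReal.tendsto_atTop_zero_of_tsum_ne_top hx.ne
  rw [EMetric.tendsto_nhds]
  intro ε hε
  have hε2 : 0 < (ε / 2) ^ 2 := by
    have : ε / 2 ≠ 0 := (ENNReal.half_pos hε.ne').ne'
    exact pos_iff_ne_zero.2 (pow_ne_zero 2 this)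
  obtain ⟨K, hK⟩ := (h4.eventually (gt_mem_nhds hε2)).exists_forall_of_atTop
  have h5 : ∀ k, K ≤ k → sp k x < ε / 2 ∧ df k x < ε / 2 := by
    intro k hk
    have h6 := hK k hk
    constructor
    · by_contra hcon
      exact absurd (pow_le_pow_left₀ zero_le (not_lt.1 hcon) 2)
        (not_le.2 (lt_of_le_of_lt le_self_add h6))
    · by_contra hcon
      exact absurd (pow_le_pow_left₀ zero_le (not_lt.1 hcon) 2)
        (not_le.2 (lt_of_le_of_lt le_add_self h6))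
  rw [eventually_inf_principal]
  filter_upwards [eventually_gt_atTop (w (κ K + 1))] with R hR hRU
  obtain ⟨k, hk⟩ := mem_iUnion.1 hRU
  have hkK : K ≤ k := by
    by_contra hcon
    have h7 : w (κ k + 1) ≤ w (κ K + 1) := hu (by omega)
    have := hk.2
    linarith
  obtain ⟨h8, h9⟩ := h5 k hkK
  have h10 : edist (BN g R x) (BN g (w (κ k)) x) ≤ sp k x := by
    rw [edist_eq_enorm_sub]
    exact le_iSup₂ (f := fun (R : ℝ) (_ : R ∈ Icc (w (κ k)) (w (κ k + 1))) =>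
      ‖BN g R x - BN g (w (κ k)) x‖ₑ) R hk
  have h11 : edist (BN g (w (κ k)) x) (F x) = df k x := edist_eq_enorm_sub _ _
  calc edist (BN g R x) (F x) ≤ edist (BN g R x) (BN g (w (κ k)) x) +
        edist (BN g (w (κ k)) x) (F x) := edist_triangle _ _ _
    _ ≤ sp k x + df k x := by
        rw [h11]
        exact add_le_add h10 le_rfl
    _ < ε / 2 + ε / 2 := ENNReal.add_lt_add h8 h9
    _ = ε := ENNReal.add_halves ε

end Pool.Agent.BIR
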