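import Pool.Agent.GRO.All
import Pool.Agent.BIR.P_DE1
import Pool.Agent.BIR.P_DE2
import Pool.Agent.BIR.P_DE3

set_option autoImplicit false

/-!
# BIR: assembly, third part (MP_ee701d_an): long intervals of radii
-/

namespace Pool.Agent.BIR

theorem q_DE3 : T_DE3 := p_DE3 (p_DE1 Pool.Agent.GRO.q_GSS) p_DE2

end Pool.Agent.BIR
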