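import Pool.Agent.BIR.Targets4
import Pool.Agent.BIR.P_DE1

set_option autoImplicit false

/-!
# BIR, SB1: the oscillation over one dyadic block of radii, weak type (MP_ee701d_an)
-/

namespace Pool.Agent.BIR

open MeasureTheory FourierTransform Set Filter Topology
open scoped ENNReal NNReal ComplexConjugate
open Pool.Agent.MBS (E ex S)
open Pool.Agent.CRF (dl)
open Pool.Agent.VRR (BN)

namespace SB1_

theorem Sj_eq (j : ℕ) : Sj j = DE1_.An ((2 : ℝ) ^ j) (2 ^ (j + 1)) := rfl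

theorem meas_Sj (j : ℕ) : MeasurableSet (Sj j) := by
  rw [Sj_eq]
  exact DE1_.meas_An _ _

theorem LL_two_mul {t : ℝ} (ht : 0 ≤ t) :
    Pool.Agent.GRO.LL (2 * t) ≤ 2 * Pool.Agent.GRO.LL t := by
  unfold Pool.Agent.GRO.LL
  have h0 : 0 ≤ Real.log (3 + t) := Real.log_nonneg (by linarith)
  have h1 : Real.log (3 + 2 * t) ≤ 2 * Real.log (3 + t) := by
    have e1 : 2 * Real.log (3 + t) = Real.log ((3 + t) ^ 2) := by
      rw [Real.log_pow]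
      norm_num
    rw [e1]
    exact Real.log_le_log (by linarith) (by nlinarith)
  have h00 : 0 ≤ Real.log (3 + 2 * t) := Real.log_nonneg (by linarith)
  have e2 : 2 * Real.log (3 + Real.log (3 + t)) = Real.log ((3 + Real.log (3 + t)) ^ 2) := by
    rw [Real.log_pow]
    norm_num
  rw [e2]
  exact Real.log_le_log (by linarith) (by nlinarith)

theorem w_mono' {a s t : ℝ} (ha : 0 ≤ a) (hs : 0 < s) (h : s ≤ t) :
    Pool.Agent.GRO.w (a / 2) s ≤ Pool.Agent.GRO.w (a / 2) t := by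
  unfold Pool.Agent.GRO.w
  refine ENNReal.ofReal_le_ofReal ?_
  rw [DE1_.L3_eq, DE1_.L3_eq]
  have h0 : 1 ≤ Pool.Agent.CRW.L3 s := Pool.Agent.GRO.GDC_.one_le_LL hs.le
  exact Real.rpow_le_rpow (by linarith) (DE1_.L3_mono hs h) (by linarith)

theorem w_sq' {a t : ℝ} (ht : 0 < t) :
    Pool.Agent.GRO.w (a / 2) t ^ 2 = Pool.Agent.GRO.w a t := by
  unfold Pool.Agent.GRO.w
  have h0 : 1 ≤ Pool.Agent.GRO.LL t := Pool.Agent.GRO.GDC_.one_le_LL ht.le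
  rw [← ENNReal.ofReal_pow (Real.rpow_nonneg (by linarith) _)]
  congr 1
  rw [← Real.rpow_natCast, ← Real.rpow_mul (by linarith)]
  congr 1
  push_cast
  ring

theorem w_dbl {a : ℝ} (ha : 0 ≤ a) (ha' : a ≤ 11) (j : ℕ) :
    Pool.Agent.GRO.w a (2 ^ (j + 1)) ≤ 2 ^ 11 * Pool.Agent.GRO.w a (2 ^ j) := by
  have hj : (0 : ℝ) < 2 ^ j := by positivity
  have h1 : 1 ≤ Pool.Agent.GRO.LL (2 ^ j) := Pool.Agent.GRO.GDC_.one_le_LL hj.le
  have hj1 : (0 : ℝ) < 2 ^ (j + 1) := by positivity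
  have h1' : 1 ≤ Pool.Agent.GRO.LL (2 ^ (j + 1)) := Pool.Agent.GRO.GDC_.one_le_LL hj1.le
  have h2 : Pool.Agent.GRO.LL (2 ^ (j + 1)) ≤ 2 * Pool.Agent.GRO.LL (2 ^ j) := by
    have h := LL_two_mul hj.le
    have e : (2 : ℝ) ^ (j + 1) = 2 * 2 ^ j := by ring
    rw [e]
    exact h
  have h3 : Pool.Agent.GRO.LL (2 ^ (j + 1)) ^ a ≤
      2 ^ 11 * Pool.Agent.GRO.LL (2 ^ j) ^ a := by
    calc Pool.Agent.GRO.LL (2 ^ (j + 1)) ^ a ≤ (2 * Pool.Agent.GRO.LL (2 ^ j)) ^ a :=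
          Real.rpow_le_rpow (by linarith) h2 ha
      _ = (2 : ℝ) ^ a * Pool.Agent.GRO.LL (2 ^ j) ^ a :=
          Real.mul_rpow (by norm_num) (by linarith)
      _ ≤ 2 ^ 11 * Pool.Agent.GRO.LL (2 ^ j) ^ a := by
          refine mul_le_mul_of_nonneg_right ?_ (Real.rpow_nonneg (by linarith) _)
          have h4 : (2 : ℝ) ^ a ≤ (2 : ℝ) ^ (11 : ℝ) :=
            Real.rpow_le_rpow_of_exponent_le (by norm_num) ha'
          have h5 : (2 : ℝ) ^ (11 : ℝ) = 2 ^ 11 := by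
            rw [← Real.rpow_natCast]
            norm_num
          rw [h5] at h4
          exact h4
  unfold Pool.Agent.GRO.w
  have e3 : (2 : ℝ≥0∞) ^ 11 = ENNReal.ofReal (2 ^ 11) := by
    rw [ENNReal.ofReal_pow (by norm_num)]
    norm_num
  rw [e3, ← ENNReal.ofReal_mul (by norm_num)]
  exact ENNReal.ofReal_le_ofReal h3

/-- the bound at one point -/
theorem ptw {a : ℝ} (ha : 0 ≤ a) {g : E 2 → ℂ} (hg : Measurable g)
    (h : ∫⁻ ξ, ‖g ξ‖ₑ ^ 2 ≠ ⊤) (j : ℕ) (x : E 2) :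
    Os g j x ≤ Pool.Agent.GRO.Ma a ((Sj j).indicator g) x *
      Pool.Agent.GRO.w (a / 2) (2 ^ (j + 1)) := by
  unfold Os
  refine iSup₂_le fun R hR => ?_
  have hj : (0 : ℝ) < 2 ^ j := by positivity
  have hR0 : 0 < R := lt_of_lt_of_le hj hR.1
  rw [DE1_.BN_sub hg h x hR.1 hR.2, ← Sj_eq]
  have h1 : ‖∫ ξ in Metric.closedBall (0 : E 2) R, (Sj j).indicator g ξ * ex x ξ‖ₑ /
      Pool.Agent.GRO.w (a / 2) R ≤ Pool.Agent.GRO.Ma a ((Sj j).indicator g) x := by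
    unfold Pool.Agent.GRO.Ma
    exact le_iSup₂ (f := fun (R : ℝ) (_ : 0 < R) =>
      ‖∫ ξ in Metric.closedBall (0 : E 2) R, (Sj j).indicator g ξ * ex x ξ‖ₑ /
        Pool.Agent.GRO.w (a / 2) R) R hR0
  have hw1 : 1 ≤ Pool.Agent.GRO.w (a / 2) R :=
    Pool.Agent.GRO.GDC_.one_le_w ha hR0.le
  have hw0 : Pool.Agent.GRO.w (a / 2) R ≠ 0 := by
    intro h0
    rw [h0] at hw1
    exact absurd hw1 (by norm_num)
  have hwt : Pool.Agent.GRO.w (a / 2) R ≠ ⊤ := by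
    unfold Pool.Agent.GRO.w
    exact ENNReal.ofReal_ne_top
  calc ‖∫ ξ in Metric.closedBall (0 : E 2) R, (Sj j).indicator g ξ * ex x ξ‖ₑ
      = ‖∫ ξ in Metric.closedBall (0 : E 2) R, (Sj j).indicator g ξ * ex x ξ‖ₑ /
          Pool.Agent.GRO.w (a / 2) R * Pool.Agent.GRO.w (a / 2) R :=
        (ENNReal.div_mul_cancel hw0 hwt).symm
    _ ≤ Pool.Agent.GRO.Ma a ((Sj j).indicator g) x *
          Pool.Agent.GRO.w (a / 2) (2 ^ (j + 1)) :=
        mul_le_mul' h1 (w_mono' ha hR0 hR.2)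

end SB1_

open SB1_ in
theorem p_SB1 (h1 : Pool.Agent.GRO.T_GSW) : T_SB1 := by
  intro D hD hD1
  obtain ⟨C, hC⟩ := h1 D hD hD1
  refine ⟨C * 2 ^ 11, fun a g x0 j l ha ha' hg hs => ?_⟩
  have hj1 : (0 : ℝ) < 2 ^ (j + 1) := by positivity
  set W : ℝ≥0∞ := Pool.Agent.GRO.w (a / 2) (2 ^ (j + 1)) with hW
  have hw1 : 1 ≤ W := Pool.Agent.GRO.GDC_.one_le_w ha hj1.le
  have hw0 : W ≠ 0 := by
    intro h0
    rw [h0] at hw1
    exact absurd hw1 (by norm_num)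
  have hwt : W ≠ ⊤ := by
    rw [hW]
    unfold Pool.Agent.GRO.w
    exact ENNReal.ofReal_ne_top
  have h2 := hC a ((Sj j).indicator g) x0 (l / W) ha ha' (hg.indicator (meas_Sj j))
  have e1 : ∫⁻ ξ, ‖(Sj j).indicator g ξ‖ₑ ^ 2 *
      Pool.Agent.GRO.w (11 - a) (D.inf' hD (fun e => dl e ξ)) =
      ∫⁻ ξ in Sj j, ‖g ξ‖ₑ ^ 2 * Pool.Agent.GRO.w (11 - a) (D.inf' hD (fun e => dl e ξ)) := by
    rw [← lintegral_indicator (meas_Sj j)]
    refine lintegral_congr fun ξ => ?_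
    by_cases hx : ξ ∈ Sj j
    · rw [indicator_of_mem hx, indicator_of_mem hx]
    · rw [indicator_of_notMem hx, indicator_of_notMem hx, enorm_zero]
      norm_num
  rw [e1] at h2
  have hsub : {x ∈ Metric.closedBall x0 1 | l < Os g j x} ⊆
      {x ∈ Metric.closedBall x0 1 | l / W < Pool.Agent.GRO.Ma a ((Sj j).indicator g) x} := by
    rintro x ⟨hx1, hx2⟩
    exact ⟨hx1, ENNReal.div_lt_of_lt_mul (lt_of_lt_of_le hx2 (ptw ha hg hs j x))⟩
  have hl : l ^ 2 = W ^ 2 * (l / W) ^ 2 := by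
    have h3 : l / W * W = l := ENNReal.div_mul_cancel hw0 hwt
    rw [← mul_pow, mul_comm, h3]
  calc l ^ 2 * volume {x ∈ Metric.closedBall x0 1 | l < Os g j x}
      ≤ l ^ 2 * volume {x ∈ Metric.closedBall x0 1 |
          l / W < Pool.Agent.GRO.Ma a ((Sj j).indicator g) x} :=
        mul_le_mul_right (measure_mono hsub) _
    _ = W ^ 2 * ((l / W) ^ 2 * volume {x ∈ Metric.closedBall x0 1 |
          l / W < Pool.Agent.GRO.Ma a ((Sj j).indicator g) x}) := by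
        rw [hl, mul_assoc]
    _ ≤ W ^ 2 * (C * ∫⁻ ξ in Sj j, ‖g ξ‖ₑ ^ 2 *
          Pool.Agent.GRO.w (11 - a) (D.inf' hD (fun e => dl e ξ))) :=
        mul_le_mul_right h2 _
    _ ≤ (2 ^ 11 * Pool.Agent.GRO.w a (2 ^ j)) * (C * ∫⁻ ξ in Sj j, ‖g ξ‖ₑ ^ 2 *
          Pool.Agent.GRO.w (11 - a) (D.inf' hD (fun e => dl e ξ))) := by
        refine mul_le_mul_left ?_ _
        rw [hW, w_sq' hj1]
        exact w_dbl ha ha' j
    _ = ((C * 2 ^ 11 : ℝ≥0) : ℝ≥0∞) * Pool.Agent.GRO.w a (2 ^ j) *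
        ∫⁻ ξ in Sj j, ‖g ξ‖ₑ ^ 2 *
          Pool.Agent.GRO.w (11 - a) (D.inf' hD (fun e => dl e ξ)) := by
        push_cast
        ring

end Pool.Agent.BIR
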