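import Pool.Agent.BIR.Targets4
import Pool.Agent.CRF.P_FAE

set_option autoImplicit false

/-!
# BIR, target SB2: convergence along the lacunary radii
-/

namespace Pool.Agent.BIR

open MeasureTheory FourierTransform Set Filter Topology
open scoped ENNReal NNReal ComplexConjugate
open Pool.Agent.MBS (E ex S)
open Pool.Agent.CRF (dl)
open Pool.Agent.VRR (BN)

namespace SB2_

open Pool.Agent.CRF.FAE_

theorem sq_lt {a : ℝ≥0∞} {e : ℝ} (he : 0 ≤ e) (h : a ^ 2 < ENNReal.ofReal (e ^ 2)) :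
    a < ENNReal.ofReal e := by
  by_contra hcon
  push Not at hcon
  rw [ENNReal.ofReal_pow he] at h
  exact absurd (pow_le_pow_left₀ zero_le hcon 2) (not_le.2 h)

end SB2_

open SB2_ Pool.Agent.CRF.FAE_ in
theorem p_SB2 (h1 : T_SLC) : T_SB2 := by
  intro g F hg h2 hF hlim
  obtain ⟨C, hC⟩ := h1
  set F' : E 2 → ℂ := hF.1.mk F with hF'
  have hFm : Measurable F' := hF.1.stronglyMeasurable_mk.measurable
  have hae : F =ᵐ[volume] F' := hF.1.ae_eq_mk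
  have hlim' : Tendsto (fun N : ℕ => ∫⁻ x, ‖BI g (N : ℝ) x - F' x‖ₑ ^ 2) atTop (𝓝 0) := by
    refine (hlim.comp tendsto_natCast_atTop_atTop).congr fun N => ?_
    refine lintegral_congr_ae ?_
    filter_upwards [hae] with x hx
    change ‖BI g (N : ℝ) x - F x‖ₑ ^ 2 = _
    rw [hx]
  have htr : Tendsto (fun N : ℕ => ∫⁻ ξ, ‖tr g N ξ‖ₑ ^ 2) atTop (𝓝 0) := by
    have := tr_lim (W := fun _ : E 2 => (1 : ℝ≥0∞)) measurable_const hg (by simpa using h2)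
    simpa using this
  have htf : ∀ N : ℕ, ∫⁻ ξ, ‖tr g N ξ‖ₑ ^ 2 ≠ ⊤ := fun N =>
    ne_top_of_le_ne_top h2 (lintegral_mono fun ξ => tr_enorm_sq g N ξ)
  set M : ℕ → E 2 → ℝ≥0∞ := fun N x => ⨆ k : ℕ, ‖BI (tr g N) (2 ^ k) x‖ₑ with hM
  have hMm : ∀ N, Measurable (M N) := fun N =>
    Measurable.iSup fun k => (BI_cont (intOn (tr_meas hg N) (htf N) _)).measurable.enorm
  have hMl : Tendsto (fun N : ℕ => ∫⁻ x, M N x ^ 2) atTop (𝓝 0) := by
    have h6 := ENNReal.Tendsto.const_mul htr (Or.inr (ENNReal.coe_ne_top (r := C)))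
    rw [mul_zero] at h6
    exact tendsto_of_tendsto_of_tendsto_of_le_of_le tendsto_const_nhds h6
      (fun _ => zero_le) fun N => hC (tr g N) (tr_meas hg N)
  have hm1 : ∀ N : ℕ, Measurable fun x => ‖BI g (N : ℝ) x - F' x‖ₑ ^ 2 := fun N =>
    ((BI_cont (intOn hg h2 N)).measurable.sub hFm).enorm.pow_const 2
  have hm : ∀ N : ℕ, Measurable fun x => ‖BI g (N : ℝ) x - F' x‖ₑ ^ 2 + M N x ^ 2 := fun N =>
    (hm1 N).add ((hMm N).pow_const 2)
  have hsum : Tendsto (fun N : ℕ => ∫⁻ x, (‖BI g (N : ℝ) x - F' x‖ₑ ^ 2 + M N x ^ 2)) atTop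
      (𝓝 0) := by
    have h7 := hlim'.add hMl
    rw [add_zero] at h7
    exact h7.congr fun N => (lintegral_add_left (hm1 N) _).symm
  have hfat : ∫⁻ x, liminf (fun N : ℕ => ‖BI g (N : ℝ) x - F' x‖ₑ ^ 2 + M N x ^ 2) atTop = 0 := by
    refine le_antisymm ?_ zero_le
    refine le_trans (lintegral_liminf_le hm) ?_
    rw [hsum.liminf_eq]
  rw [lintegral_eq_zero_iff (Measurable.liminf hm)] at hfat
  filter_upwards [hfat, hae] with x hx hxF
  rw [hxF, Metric.tendsto_atTop]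
  intro ε hε
  have hpos : (0 : ℝ≥0∞) < ENNReal.ofReal ((ε / 2) ^ 2) := ENNReal.ofReal_pos.2 (by positivity)
  have hfreq : ∃ᶠ N : ℕ in atTop,
      ‖BI g (N : ℝ) x - F' x‖ₑ ^ 2 + M N x ^ 2 < ENNReal.ofReal ((ε / 2) ^ 2) := by
    refine frequently_lt_of_liminf_lt (by isBoundedDefault) ?_
    have : liminf (fun N : ℕ => ‖BI g (N : ℝ) x - F' x‖ₑ ^ 2 + M N x ^ 2) atTop = 0 := hx
    rw [this]
    exact hpos
  obtain ⟨N, hN⟩ := hfreq.exists
  have ha : ‖BI g (N : ℝ) x - F' x‖ < ε / 2 := by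
    have h8 := sq_lt (by positivity) (lt_of_le_of_lt le_self_add hN)
    rw [← ofReal_norm, ENNReal.ofReal_lt_ofReal_iff (by positivity)] at h8
    exact h8
  have hb : M N x < ENNReal.ofReal (ε / 2) :=
    sq_lt (by positivity) (lt_of_le_of_lt le_add_self hN)
  obtain ⟨K, hK⟩ : ∃ K : ℕ, (N : ℝ) ≤ 2 ^ K :=
    (pow_unbounded_of_one_lt (N : ℝ) one_lt_two).imp fun _ h => h.le
  refine ⟨K, fun k hk => ?_⟩
  have hNk : (N : ℝ) ≤ 2 ^ k := hK.trans (pow_le_pow_right₀ one_le_two hk)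
  have hc : ‖BI (tr g N) (2 ^ k) x‖ < ε / 2 := by
    have h8 : ‖BI (tr g N) (2 ^ k) x‖ₑ < ENNReal.ofReal (ε / 2) :=
      lt_of_le_of_lt (le_iSup (fun k : ℕ => ‖BI (tr g N) (2 ^ k) x‖ₑ) k) hb
    rw [← ofReal_norm, ENNReal.ofReal_lt_ofReal_iff (by positivity)] at h8
    exact h8
  rw [dist_eq_norm]
  change ‖BI g (2 ^ k) x - F' x‖ < ε
  rw [BI_split hg h2 N hNk x]
  have e : BI g (N : ℝ) x + BI (tr g N) (2 ^ k) x - F' x =
      (BI g (N : ℝ) x - F' x) + BI (tr g N) (2 ^ k) x := by ring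
  rw [e]
  refine lt_of_le_of_lt (norm_add_le _ _) ?_
  linarith

end Pool.Agent.BIR
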