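import Pool.Agent.BIR.Targets4
import Pool.Agent.BIR.P_DE3

set_option autoImplicit false

/-!
# BIR, target SB3: the bad dyadic blocks of radii are sparse
-/

namespace Pool.Agent.BIR

open MeasureTheory FourierTransform Set Filter Topology
open scoped ENNReal NNReal ComplexConjugate
open Pool.Agent.MBS (E ex S)
open Pool.Agent.CRF (dl)
open Pool.Agent.VRR (BN)
open Pool.Agent.CRF.FAE_

namespace SB3_

theorem one_le_LL {t : ℝ} (ht : 0 ≤ t) : 1 ≤ Pool.Agent.GRO.LL t := by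
  unfold Pool.Agent.GRO.LL
  have h3 : (1 : ℝ) < Real.log 3 := by
    rw [Real.lt_log_iff_exp_lt (by norm_num)]
    exact Real.exp_one_lt_d9.trans (by norm_num)
  have h1 : 0 ≤ Real.log (3 + t) := Real.log_nonneg (by linarith)
  exact h3.le.trans (Real.log_le_log (by norm_num) (by linarith))

theorem one_le_w {a t : ℝ} (ha : 0 ≤ a) (ht : 0 ≤ t) : 1 ≤ Pool.Agent.GRO.w a t := by
  unfold Pool.Agent.GRO.w
  rw [← ENNReal.ofReal_one]
  exact ENNReal.ofReal_le_ofReal (Real.one_le_rpow (one_le_LL ht) ha)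

theorem w_top (a t : ℝ) : Pool.Agent.GRO.w a t ≠ ⊤ := ENNReal.ofReal_ne_top

theorem sj_meas (j : ℕ) : MeasurableSet (Sj j) :=
  (measurableSet_lt measurable_const measurable_norm).inter
    (measurableSet_le measurable_norm measurable_const)

theorem sj_disj : Pairwise (Function.onFun Disjoint Sj) := by
  rw [pairwise_disjoint_on]
  intro i j hij
  rw [Set.disjoint_left]
  rintro ξ ⟨_, h1⟩ ⟨h2, _⟩
  have h3 : (2 : ℝ) ^ (i + 1) ≤ 2 ^ j := pow_le_pow_right₀ (by norm_num) (by omega)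
  linarith

theorem inf_nonneg (D : Finset (E 2)) (h : D.Nonempty) (ξ : E 2) :
    0 ≤ D.inf' h (fun e => dl e ξ) :=
  Finset.le_inf' h _ fun e _ => norm_nonneg _

/-- the weighted sum of the measures is finite -/
theorem sum_fin {a : ℝ} {g : E 2 → ℂ} {B : Set (E 2)} {l C : ℝ≥0∞} {φ : E 2 → ℝ≥0∞}
    (ha : 0 ≤ a) (hl : l ≠ 0) (hlt : l ≠ ⊤) (hC : C ≠ ⊤) (hg : Measurable g)
    (h2 : ∫⁻ ξ, ‖g ξ‖ₑ ^ 2 ≠ ⊤) (hφ : ∫⁻ ξ, φ ξ ≠ ⊤) (hB : MeasurableSet B)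
    (hb : ∀ j : ℕ, l ^ 2 * volume {x ∈ B | l < Os g j x} ≤
      C * Pool.Agent.GRO.w a (2 ^ j) * ∫⁻ ξ in Sj j, φ ξ) :
    ∀ᵐ x ∂(volume.restrict B), ∑' j : ℕ, ({x | l < Os g j x}.indicator
      (fun _ => (Pool.Agent.GRO.w a (2 ^ j))⁻¹) x) ≠ ⊤ := by
  have hO : ∀ j : ℕ, MeasurableSet {x | l < Os g j x} := fun j =>
    measurableSet_lt measurable_const (DE3_.sup_meas hg h2 _ _)
  have hm : ∀ j : ℕ, Measurable ({x | l < Os g j x}.indicator
      (fun _ => (Pool.Agent.GRO.w a (2 ^ j))⁻¹)) := fun j => measurable_const.indicator (hO j)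
  have hint : ∫⁻ x in B, ∑' j : ℕ, ({x | l < Os g j x}.indicator
      (fun _ => (Pool.Agent.GRO.w a (2 ^ j))⁻¹) x) ≠ ⊤ := by
    rw [lintegral_tsum fun j => (hm j).aemeasurable]
    have h3 : ∀ j : ℕ, ∫⁻ x in B, ({x | l < Os g j x}.indicator
        (fun _ => (Pool.Agent.GRO.w a (2 ^ j))⁻¹) x) ≤ C / l ^ 2 * ∫⁻ ξ in Sj j, φ ξ := by
      intro j
      rw [lintegral_indicator_const (hO j), Measure.restrict_apply (hO j)]
      have e1 : {x | l < Os g j x} ∩ B = {x ∈ B | l < Os g j x} := by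
        ext x
        simp only [mem_inter_iff, mem_setOf_eq, and_comm]
      rw [e1]
      have h4 := hb j
      have hl2 : l ^ 2 ≠ 0 := pow_ne_zero 2 hl
      have hl3 : l ^ 2 ≠ ⊤ := ENNReal.pow_ne_top hlt
      have h5 : volume {x ∈ B | l < Os g j x} ≤
          (C * Pool.Agent.GRO.w a (2 ^ j) * ∫⁻ ξ in Sj j, φ ξ) / l ^ 2 := by
        rw [ENNReal.le_div_iff_mul_le (Or.inl hl2) (Or.inl hl3), mul_comm]
        exact h4
      have hw1 : (1 : ℝ≥0∞) ≤ Pool.Agent.GRO.w a (2 ^ j) := one_le_w ha (by positivity)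
      have hw0 : Pool.Agent.GRO.w a (2 ^ j) ≠ 0 := (lt_of_lt_of_le one_pos hw1).ne'
      calc (Pool.Agent.GRO.w a (2 ^ j))⁻¹ * volume {x ∈ B | l < Os g j x}
          ≤ (Pool.Agent.GRO.w a (2 ^ j))⁻¹ *
            ((C * Pool.Agent.GRO.w a (2 ^ j) * ∫⁻ ξ in Sj j, φ ξ) / l ^ 2) :=
            mul_le_mul' le_rfl h5
        _ = ((Pool.Agent.GRO.w a (2 ^ j))⁻¹ * Pool.Agent.GRO.w a (2 ^ j)) *
            (C / l ^ 2 * ∫⁻ ξ in Sj j, φ ξ) := by
            rw [div_eq_mul_inv, div_eq_mul_inv]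
            ring
        _ = _ := by rw [ENNReal.inv_mul_cancel hw0 (w_top _ _), one_mul]
    refine ne_top_of_le_ne_top ?_ (ENNReal.tsum_le_tsum h3)
    rw [ENNReal.tsum_mul_left, ← lintegral_iUnion (fun j => sj_meas j) sj_disj]
    exact ENNReal.mul_ne_top (ENNReal.div_ne_top hC (pow_ne_zero 2 hl))
      (ne_top_of_le_ne_top hφ (setLIntegral_le_lintegral _ _))
  filter_upwards [ae_lt_top (Measurable.ennreal_tsum hm) hint] with x hx using hx.ne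

/-- the final comparison at one point -/
theorem final {a : ℝ} {g F : E 2 → ℂ} {x : E 2} {ε : ℝ} {l : ℝ≥0∞} (ha : 0 ≤ a) (hε : 0 < ε)
    (hl : l ≤ ENNReal.ofReal (ε / 2))
    (h1 : ∑' j : ℕ, ({x | l < Os g j x}.indicator
      (fun _ => (Pool.Agent.GRO.w a (2 ^ j))⁻¹) x) ≠ ⊤)
    (h2 : Tendsto (fun k : ℕ => BN g (2 ^ k) x) atTop (𝓝 (F x))) :
    ∑' j : {j : ℕ // ∃ R : ℝ, 2 ^ j ≤ R ∧ R ≤ 2 ^ (j + 1) ∧ ε < ‖BN g R x - F x‖},
        (Pool.Agent.GRO.w a (2 ^ (j : ℕ)))⁻¹ ≠ ⊤ := by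
  obtain ⟨J, hJ⟩ := (Metric.tendsto_atTop.1 h2) (ε / 2) (by positivity)
  set P : Set ℕ := {j : ℕ | ∃ R : ℝ, 2 ^ j ≤ R ∧ R ≤ 2 ^ (j + 1) ∧ ε < ‖BN g R x - F x‖} with hP
  have e1 : ∑' j : {j : ℕ // ∃ R : ℝ, 2 ^ j ≤ R ∧ R ≤ 2 ^ (j + 1) ∧ ε < ‖BN g R x - F x‖},
      (Pool.Agent.GRO.w a (2 ^ (j : ℕ)))⁻¹ =
      ∑' j : ℕ, P.indicator (fun j : ℕ => (Pool.Agent.GRO.w a (2 ^ j))⁻¹) j :=
    tsum_subtype P (fun j : ℕ => (Pool.Agent.GRO.w a (2 ^ j))⁻¹)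
  rw [e1]
  have h3 : ∀ j : ℕ, P.indicator (fun j : ℕ => (Pool.Agent.GRO.w a (2 ^ j))⁻¹) j ≤
      (if j ∈ Finset.range J then (1 : ℝ≥0∞) else 0) + ({x | l < Os g j x}.indicator
      (fun _ => (Pool.Agent.GRO.w a (2 ^ j))⁻¹) x) := by
    intro j
    by_cases hj : j ∈ P
    · rw [indicator_of_mem hj]
      by_cases hjJ : j ∈ Finset.range J
      · rw [if_pos hjJ]
        refine le_trans ?_ le_self_add
        exact ENNReal.inv_le_one.2 (one_le_w ha (by positivity))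
      · rw [if_neg hjJ, zero_add]
        have hJj : J ≤ j := by
          rw [Finset.mem_range] at hjJ
          omega
        obtain ⟨R, hR1, hR2, hR3⟩ := hj
        have h4 := hJ j hJj
        rw [dist_eq_norm] at h4
        have h5 : ε / 2 < ‖BN g R x - BN g (2 ^ j) x‖ := by
          have h6 : ‖BN g R x - F x‖ ≤ ‖BN g R x - BN g (2 ^ j) x‖ + ‖BN g (2 ^ j) x - F x‖ := by
            have e2 : BN g R x - F x = (BN g R x - BN g (2 ^ j) x) + (BN g (2 ^ j) x - F x) := by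
              ring
            rw [e2]
            exact norm_add_le _ _
          linarith
        have h7 : l < Os g j x := by
          have h8 : ‖BN g R x - BN g (2 ^ j) x‖ₑ ≤ Os g j x :=
            le_iSup₂ (f := fun (R : ℝ) (_ : R ∈ Icc ((2 : ℝ) ^ j) (2 ^ (j + 1))) =>
              ‖BN g R x - BN g (2 ^ j) x‖ₑ) R ⟨hR1, hR2⟩
          refine lt_of_lt_of_le (lt_of_le_of_lt hl ?_) h8
          rw [← ofReal_norm, ENNReal.ofReal_lt_ofReal_iff (lt_trans (by positivity) h5)]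
          exact h5
        rw [indicator_of_mem (show x ∈ {x | l < Os g j x} from h7)]
    · rw [indicator_of_notMem hj]
      exact zero_le
  refine ne_top_of_le_ne_top ?_ (ENNReal.tsum_le_tsum h3)
  rw [ENNReal.tsum_add]
  refine ENNReal.add_ne_top.2 ⟨?_, h1⟩
  rw [tsum_eq_sum (s := Finset.range J) (fun j hj => if_neg hj)]
  exact ENNReal.sum_ne_top.2 fun j hj => by
    rw [if_pos hj]
    exact ENNReal.one_ne_top

end SB3_

open SB3_ in
/-- SB3 -/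
theorem p_SB3 (h1 : T_SB1) (h2 : T_SB2) : T_SB3 := by
  intro a D h g F ha ha11 hD hg hW hF hlim
  have hg2 : ∫⁻ ξ, ‖g ξ‖ₑ ^ 2 ≠ ⊤ := by
    refine ne_top_of_le_ne_top hW (lintegral_mono fun ξ => ?_)
    calc ‖g ξ‖ₑ ^ 2 = ‖g ξ‖ₑ ^ 2 * 1 := (mul_one _).symm
      _ ≤ _ := mul_le_mul' le_rfl (one_le_w (by linarith) (inf_nonneg D h ξ))
  obtain ⟨C, hC⟩ := h1 D h hD
  have hconv := h2 g F hg hg2 hF hlim
  have hall : ∀ m : ℕ, ∀ᵐ x : E 2, ∑' j : ℕ, ({x | ENNReal.ofReal (1 / (2 * ((m : ℝ) + 1))) <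
      Os g j x}.indicator (fun _ => (Pool.Agent.GRO.w a (2 ^ j))⁻¹) x) ≠ ⊤ := by
    intro m
    refine ae_of_discs fun x0 => ?_
    have hm0 : 0 < 1 / (2 * ((m : ℝ) + 1)) := by positivity
    exact sum_fin ha (ENNReal.ofReal_pos.2 hm0).ne' ENNReal.ofReal_ne_top ENNReal.coe_ne_top hg
      hg2 hW Metric.isClosed_closedBall.measurableSet
      (fun j => hC a g x0 j _ ha ha11 hg hg2)
  filter_upwards [hconv, ae_all_iff.2 hall] with x hx1 hx2
  intro ε hε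
  obtain ⟨m, hm⟩ := exists_nat_one_div_lt hε
  refine final ha hε ?_ (hx2 m) hx1
  refine ENNReal.ofReal_le_ofReal ?_
  have e1 : 1 / (2 * ((m : ℝ) + 1)) = (1 / ((m : ℝ) + 1)) / 2 := by
    field_simp
  rw [e1]
  linarith

end Pool.Agent.BIR
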