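import Pool.Agent.BIR.Targets4
import Pool.Agent.GRO.P_GLC

set_option autoImplicit false

/-!
# BIR, SLC: the lacunary radii `2^k` (MP_ee701d_an)
-/

namespace Pool.Agent.BIR

open MeasureTheory FourierTransform Set Filter Topology SchwartzMap
open scoped ENNReal NNReal
open Pool.Agent.MBS (E ex S)
open Pool.Agent.VRR (BN)

namespace SLC_

open Pool.Agent.CRN (IN)
open Pool.Agent.CRN.RMN_ (IN_cont planch0 fourier_cont)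
open Pool.Agent.CRF.RMG_ (Sg ex_norm ex_c ball_int)
open Pool.Agent.GRO.GLC_ (sq_norm approx Sg_diff norm_tri fatou eps_lim Sg_lim seq bd)

/-- the radii -/
noncomputable def qq (k : ℕ) : ℝ := 2 ^ k

theorem qq_pos (k : ℕ) : 0 < qq k := by
  unfold qq
  positivity

theorem qq_sep : ∀ R ∈ range qq, ∀ R' ∈ range qq, R < R' → R + 1 / 2 * R' ≤ R' := by
  rintro _ ⟨j, rfl⟩ _ ⟨k, rfl⟩ h
  unfold qq at h ⊢
  have h1 : j < k := (pow_lt_pow_iff_right₀ (by norm_num : (1 : ℝ) < 2)).1 h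
  have h2 : (2 : ℝ) ^ (j + 1) ≤ 2 ^ k := pow_le_pow_right₀ (by norm_num) h1
  rw [pow_succ] at h2
  linarith

theorem core {C : ℝ≥0} (hC : ∀ (A : Set ℝ) (f : E 2 → ℂ), (∀ R ∈ A, 0 < R) →
    (∀ R ∈ A, ∀ R' ∈ A, R < R' → R + 1 / 2 * R' ≤ R') → Measurable f → Integrable f →
      MemLp f 2 → ∫⁻ x, (⨆ R ∈ A, ‖S f R x‖ₑ) ^ 2 ≤ C * ∫⁻ x, ‖f x‖ₑ ^ 2)
    (φ : 𝓢(E 2, ℂ)) :
    (Measurable fun x => (⨆ k : ℕ, ‖Sg (φ : E 2 → ℂ) (qq k) x‖ₑ) ^ 2) ∧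
      ∫⁻ x, (⨆ k : ℕ, ‖Sg (φ : E 2 → ℂ) (qq k) x‖ₑ) ^ 2 ≤ C * eLpNorm (φ : E 2 → ℂ) 2 ^ 2 := by
  let f : 𝓢(E 2, ℂ) := 𝓕⁻ φ
  have hF : 𝓕 (f : E 2 → ℂ) = (φ : E 2 → ℂ) := by
    have h1 : (𝓕 f : 𝓢(E 2, ℂ)) = φ := FourierTransform.fourier_fourierInv_eq φ
    rw [← SchwartzMap.fourier_coe, h1]
  have hS : ∀ (R : ℝ) (x : E 2), S (f : E 2 → ℂ) R x = Sg (φ : E 2 → ℂ) R x := by
    intro R x
    rw [S, hF]
    rfl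
  have hint : Integrable (f : E 2 → ℂ) := f.integrable
  have hL2 : MemLp (f : E 2 → ℂ) 2 := f.memLp 2
  have hφi : Integrable (φ : E 2 → ℂ) := φ.integrable
  constructor
  · refine Measurable.pow_const (Measurable.iSup fun k => ?_) 2
    have h1 : (fun x : E 2 => Sg (φ : E 2 → ℂ) (qq k) x) =
        IN ((Metric.closedBall (0 : E 2) (qq k)).indicator (φ : E 2 → ℂ)) := by
      funext x
      rw [Sg, IN, ← integral_indicator Metric.isClosed_closedBall.measurableSet]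
      refine integral_congr_ae (Filter.Eventually.of_forall fun ξ => ?_)
      by_cases hξ : ξ ∈ Metric.closedBall (0 : E 2) (qq k)
      · simp only [indicator_of_mem hξ]
      · simp only [indicator_of_notMem hξ, zero_mul]
    have h2 : Measurable fun x : E 2 => Sg (φ : E 2 → ℂ) (qq k) x := by
      rw [h1]
      exact (IN_cont (hφi.indicator Metric.isClosed_closedBall.measurableSet)).measurable
    exact h2.enorm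
  · have h1 := hC (range qq) (f : E 2 → ℂ) (by rintro _ ⟨k, rfl⟩; exact qq_pos k) qq_sep
      f.continuous.measurable hint hL2
    simp only [iSup_range] at h1
    have h2 : ∫⁻ x, ‖f x‖ₑ ^ 2 = eLpNorm (φ : E 2 → ℂ) 2 ^ 2 := by
      rw [sq_norm, ← planch0 hint hL2, hF]
    rw [h2] at h1
    refine le_trans (le_of_eq (lintegral_congr fun x => ?_)) h1
    simp only [hS]

theorem m1 {g : E 2 → ℂ} (hg : MemLp g 2) {h : ℕ → E 2 → ℂ} (hh : ∀ n, MemLp (h n) 2)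
    (hφ : ∀ n : ℕ, eLpNorm (g - h n) 2 ≤ ENNReal.ofReal (1 / ((n : ℝ) + 1)))
    (hm : ∀ n, Measurable fun x => (⨆ k : ℕ, ‖Sg (h n) (qq k) x‖ₑ) ^ 2) :
    ∫⁻ x, (⨆ k : ℕ, ‖Sg g (qq k) x‖ₑ) ^ 2 ≤
      liminf (fun n => ∫⁻ x, (⨆ k : ℕ, ‖Sg (h n) (qq k) x‖ₑ) ^ 2) atTop := by
  have h8 : ∀ x : E 2, (⨆ k : ℕ, ‖Sg g (qq k) x‖ₑ) ^ 2 ≤
      liminf (fun n => (⨆ k : ℕ, ‖Sg (h n) (qq k) x‖ₑ) ^ 2) atTop :=
    fun x => fatou (a := fun n k => ‖Sg (h n) (qq k) x‖ₑ)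
      (b := fun k => ‖Sg g (qq k) x‖ₑ) fun k => Sg_lim hg hh hφ (qq k) x
  exact (lintegral_mono h8).trans (lintegral_liminf_le hm)

theorem m2 {C : ℝ≥0} {g : E 2 → ℂ} (hg : MemLp g 2) {h : ℕ → E 2 → ℂ}
    (hh : ∀ n, MemLp (h n) 2)
    (hφ : ∀ n : ℕ, eLpNorm (g - h n) 2 ≤ ENNReal.ofReal (1 / ((n : ℝ) + 1)))
    (hm : ∀ n, (Measurable fun x => (⨆ k : ℕ, ‖Sg (h n) (qq k) x‖ₑ) ^ 2) ∧
      ∫⁻ x, (⨆ k : ℕ, ‖Sg (h n) (qq k) x‖ₑ) ^ 2 ≤ C * eLpNorm (h n) 2 ^ 2) :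
    ∫⁻ x, (⨆ k : ℕ, ‖Sg g (qq k) x‖ₑ) ^ 2 ≤ C * eLpNorm g 2 ^ 2 :=
  bd (m1 hg hh hφ fun n => (hm n).1) (fun n => (hm n).2)
    fun n => (norm_tri hg (hh n)).trans (add_le_add le_rfl (hφ n))

theorem m3 {C : ℝ≥0} (hC : ∀ (A : Set ℝ) (f : E 2 → ℂ), (∀ R ∈ A, 0 < R) →
    (∀ R ∈ A, ∀ R' ∈ A, R < R' → R + 1 / 2 * R' ≤ R') → Measurable f → Integrable f →
      MemLp f 2 → ∫⁻ x, (⨆ R ∈ A, ‖S f R x‖ₑ) ^ 2 ≤ C * ∫⁻ x, ‖f x‖ₑ ^ 2)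
    {g : E 2 → ℂ} (hg : MemLp g 2) (φ : ℕ → 𝓢(E 2, ℂ)) (hφ : ∀ n : ℕ,
      eLpNorm (g - (φ n : E 2 → ℂ)) 2 ≤ ENNReal.ofReal (1 / ((n : ℝ) + 1))) :
    ∫⁻ x, (⨆ k : ℕ, ‖Sg g (qq k) x‖ₑ) ^ 2 ≤ C * eLpNorm g 2 ^ 2 := by
  have h1 : ∀ n, MemLp (φ n : E 2 → ℂ) 2 := fun n => (φ n).memLp 2
  have h2 := fun n => core hC (φ n)
  exact m2 hg h1 hφ h2

theorem main {C : ℝ≥0} (hC : ∀ (A : Set ℝ) (f : E 2 → ℂ), (∀ R ∈ A, 0 < R) →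
    (∀ R ∈ A, ∀ R' ∈ A, R < R' → R + 1 / 2 * R' ≤ R') → Measurable f → Integrable f →
      MemLp f 2 → ∫⁻ x, (⨆ R ∈ A, ‖S f R x‖ₑ) ^ 2 ≤ C * ∫⁻ x, ‖f x‖ₑ ^ 2)
    {g : E 2 → ℂ} (hg : MemLp g 2) :
    ∫⁻ x, (⨆ k : ℕ, ‖Sg g (qq k) x‖ₑ) ^ 2 ≤ C * eLpNorm g 2 ^ 2 := by
  obtain ⟨φ, hφ⟩ := seq hg
  exact m3 hC hg φ hφ

end SLC_

open SLC_ in
theorem p_SLC (h1 : Pool.Agent.GRO.T_DS2) : T_SLC := by
  obtain ⟨C, hC⟩ := h1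
  refine ⟨C + 1, fun g hg => ?_⟩
  have h3 : (C : ℝ≥0∞) ≤ ((C + 1 : ℝ≥0) : ℝ≥0∞) := ENNReal.coe_le_coe.2 (by simp)
  by_cases htop : ∫⁻ ξ, ‖g ξ‖ₑ ^ 2 = ⊤
  · rw [htop, ENNReal.mul_top (by simp)]
    exact le_top
  have hg2 : MemLp g 2 := by
    refine ⟨hg.aestronglyMeasurable, ?_⟩
    rw [eLpNorm_lt_top_iff_lintegral_rpow_enorm_lt_top (by norm_num) (by norm_num)]
    simp only [ENNReal.toReal_ofNat, ENNReal.rpow_ofNat]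
    exact lt_top_iff_ne_top.2 htop
  have h4 := SLC_.main hC hg2
  rw [Pool.Agent.GRO.GLC_.sq_norm] at h4
  exact h4.trans (mul_le_mul_left h3 _)

end Pool.Agent.BIR
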