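import Pool.Agent.GRO.All
import Pool.Agent.BIR.P_SB1
import Pool.Agent.BIR.P_SLC
import Pool.Agent.BIR.P_SB2
import Pool.Agent.BIR.P_SB3

set_option autoImplicit false

/-!
# BIR: assembly, fourth part (MP_ee701d_an): the bad dyadic blocks are sparse
-/

namespace Pool.Agent.BIR

theorem q_SB3 : T_SB3 :=
  p_SB3 (p_SB1 Pool.Agent.GRO.q_GSW) (p_SB2 (p_SLC Pool.Agent.GRO.q_DS2))

end Pool.Agent.BIR
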