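import Pool.Agent.BIR.Targets

set_option autoImplicit false

/-!
# BIR, BIA: polar coordinates in both factors
-/

namespace Pool.Agent.BIR

open MeasureTheory FourierTransform Set Filter Topology
open scoped ENNReal NNReal ComplexConjugate
open Pool.Agent.MBS (E ex S)
open Pool.Agent.CAR (e1)
open Pool.Agent.CRN (sg SH Nice T_CARLS T_POLN T_HELN T_RAYN)
open Pool.Agent.CYL (Spl T_SPL T_GEO)
open Pool.Agent.CRW (L3 T_GRW T_GS1)
open Pool.Agent.VRR (BN)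

namespace BIA_

theorem ex_norm {n : ℕ} (x ξ : E n) : ‖ex x ξ‖ = 1 := by
  unfold ex
  rw [Complex.norm_exp]
  simp

theorem ex_cont {n : ℕ} (ξ : E n) : Continuous fun x : E n => ex x ξ := by
  unfold ex
  fun_prop

theorem ex_cont' {n : ℕ} (x : E n) : Continuous fun ξ : E n => ex x ξ := by
  unfold ex
  fun_prop

theorem le_one_add_sq (a : ℝ≥0∞) : a ≤ 1 + a ^ 2 := by
  rcases le_or_gt a 1 with h | h
  · exact h.trans le_self_add
  · calc a = a * 1 := (mul_one a).symm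
      _ ≤ a * a := mul_le_mul' le_rfl h.le
      _ = a ^ 2 := (sq a).symm
      _ ≤ 1 + a ^ 2 := le_add_self

theorem intOn {n : ℕ} {g : E n → ℂ} (hg : Measurable g) (h2 : ∫⁻ ξ, ‖g ξ‖ₑ ^ 2 ≠ ⊤) (R : ℝ) :
    IntegrableOn g (Metric.closedBall (0 : E n) R) := by
  refine ⟨hg.aestronglyMeasurable, ?_⟩
  unfold HasFiniteIntegral
  refine lt_of_le_of_lt (lintegral_mono fun ξ => le_one_add_sq _) ?_
  rw [lintegral_add_left measurable_const]
  refine ENNReal.add_lt_top.2 ⟨?_, ?_⟩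
  · rw [lintegral_const, one_mul, Measure.restrict_apply_univ]
    exact measure_closedBall_lt_top
  · exact lt_of_le_of_lt (setLIntegral_le_lintegral _ _) h2.lt_top

theorem BN_cont {n : ℕ} {g : E n → ℂ} (hg : Measurable g) (h2 : ∫⁻ ξ, ‖g ξ‖ₑ ^ 2 ≠ ⊤)
    (R : ℝ) : Continuous fun x : E n => BN g R x := by
  unfold BN
  refine continuous_of_dominated (bound := fun ξ => ‖g ξ‖) ?_ ?_ ?_ ?_
  · intro x
    exact (hg.mul (ex_cont' x).measurable).aestronglyMeasurable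
  · intro x
    refine ae_of_all _ fun ξ => ?_
    rw [norm_mul, ex_norm, mul_one]
  · exact (intOn hg h2 R).norm
  · exact ae_of_all _ fun ξ => continuous_const.mul (ex_cont ξ)

theorem L3_pos {t : ℝ} (ht : 0 ≤ t) : 0 < L3 t := by
  unfold L3
  have h1 : 0 < Real.log (3 + t) := Real.log_pos (by linarith)
  exact Real.log_pos (by linarith)

theorem L3_cont {n : ℕ} {R : ℝ} (hR : 0 < R) : Continuous fun x : E n => L3 (R * ‖x‖) := by
  unfold L3
  have h0 : ∀ x : E n, 0 ≤ R * ‖x‖ := fun x => by positivity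
  refine Continuous.log (continuous_const.add (Continuous.log (by fun_prop) fun x => ?_))
    fun x => ?_
  · have := h0 x
    linarith
  · have h1 : 0 < Real.log (3 + R * ‖x‖) := Real.log_pos (by linarith [h0 x])
    linarith

/-- the maximal function -/
noncomputable def Ph {n : ℕ} (g : E n → ℂ) (x : E n) : ℝ≥0∞ :=
  ⨆ (R : ℝ) (_ : 0 < R), ‖BN g R x‖ₑ / ENNReal.ofReal (L3 (R * ‖x‖) ^ 6)

theorem Ph_meas {n : ℕ} {g : E n → ℂ} (hg : Measurable g) (h2 : ∫⁻ ξ, ‖g ξ‖ₑ ^ 2 ≠ ⊤) :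
    Measurable (Ph g) := by
  refine LowerSemicontinuous.measurable ?_
  unfold Ph
  refine lowerSemicontinuous_iSup fun R => lowerSemicontinuous_iSup fun hR => ?_
  refine Continuous.lowerSemicontinuous ?_
  have e : (fun x : E n => ‖BN g R x‖ₑ / ENNReal.ofReal (L3 (R * ‖x‖) ^ 6)) =
      fun x : E n => ENNReal.ofReal (‖BN g R x‖ / L3 (R * ‖x‖) ^ 6) := by
    funext x
    have hp : 0 < L3 (R * ‖x‖) ^ 6 := pow_pos (L3_pos (by positivity)) 6
    rw [ENNReal.ofReal_div_of_pos hp, ofReal_norm]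
  rw [e]
  refine ENNReal.continuous_ofReal.comp (Continuous.div (BN_cont hg h2 R).norm
    ((L3_cont hR).pow 6) fun x => ?_)
  exact (pow_pos (L3_pos (by positivity)) 6).ne'

/-- the maximal function of the quadrant -/
noncomputable def Ps (k1 k2 : ℝ → ℂ) (H : ℝ → ℝ → ℂ) (r s : ℝ) : ℝ≥0∞ :=
  ⨆ (R : ℝ) (_ : 0 < R), ‖JJ k1 k2 H R r s‖ₑ /
    ENNReal.ofReal (L3 (R * Real.sqrt (r ^ 2 + s ^ 2)) ^ 6)

theorem sq_rpow {d : ℕ} (hd : 1 ≤ d) {r : ℝ} (hr : 0 < r) :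
    (r ^ (((d : ℝ) - 1) / 2)) ^ 2 = r ^ (d - 1) := by
  rw [← Real.rpow_natCast, ← Real.rpow_mul hr.le, ← Real.rpow_natCast]
  congr 1
  rw [Nat.cast_sub hd]
  push_cast
  ring

theorem key {d m n : ℕ} (hd : 1 ≤ d) (hm : 1 ≤ m) {k1 k2 : ℝ → ℂ} {H : ℝ → ℝ → ℂ}
    {g : E n → ℂ} {x : E n} {r s : ℝ} (hr : 0 < r) (hs : 0 < s)
    (hx : ‖x‖ = Real.sqrt (r ^ 2 + s ^ 2))
    (h : ∀ R : ℝ, 0 < R → ((r ^ (((d : ℝ) - 1) / 2) : ℝ) : ℂ) *
      ((s ^ (((m : ℝ) - 1) / 2) : ℝ) : ℂ) * BN g R x = JJ k1 k2 H R r s) :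
    ENNReal.ofReal (r ^ (d - 1)) * (ENNReal.ofReal (s ^ (m - 1)) * Ph g x ^ 2) =
      Ps k1 k2 H r s ^ 2 := by
  obtain ⟨κ, hκ⟩ : ∃ κ : ℝ, κ = r ^ (((d : ℝ) - 1) / 2) * s ^ (((m : ℝ) - 1) / 2) := ⟨_, rfl⟩
  have hκ0 : 0 < κ := by rw [hκ]; positivity
  have e1 : Ps k1 k2 H r s = ENNReal.ofReal κ * Ph g x := by
    unfold Ps Ph
    rw [ENNReal.mul_iSup]
    refine iSup_congr fun R => ?_
    rw [ENNReal.mul_iSup]
    refine iSup_congr fun hR => ?_
    rw [← h R hR, hx, ← Complex.ofReal_mul, ← hκ, enorm_mul, mul_div_assoc]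
    congr 1
    rw [← ofReal_norm, Complex.norm_real, Real.norm_of_nonneg hκ0.le]
  rw [e1, mul_pow, ← mul_assoc, ← ENNReal.ofReal_mul (by positivity), ← ENNReal.ofReal_pow hκ0.le]
  congr 2
  rw [hκ, mul_pow, sq_rpow hd hr, sq_rpow hm hs]

theorem sg_ne {d : ℕ} (hd : 1 ≤ d) (h : T_POLN) : sg d univ ≠ 0 := by
  intro h0
  have h1 := (h d hd).1 (fun _ => 1) measurable_const
  have h2 : sg d = 0 := Measure.measure_univ_eq_zero.1 h0
  rw [h2] at h1
  simp only [lintegral_const, one_mul, Measure.coe_zero, Pi.zero_apply, mul_zero, zero_mul] at h1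
  have h3 : (0 : ℝ≥0∞) < volume (univ : Set (E d)) :=
    isOpen_univ.measure_pos volume univ_nonempty
  rw [h1] at h3
  exact lt_irrefl _ h3

theorem unit_vec {d : ℕ} (hd : 1 ≤ d) : ∃ e : E d, ‖e‖ = 1 :=
  ⟨EuclideanSpace.single ⟨0, hd⟩ 1, by simp⟩

theorem QU : (Q : Set (ℝ × ℝ)) = Ioi (0 : ℝ) ×ˢ Ioi (0 : ℝ) := by
  ext z
  simp [Q]

theorem Q_meas : MeasurableSet Q := by
  rw [QU]
  exact measurableSet_Ioi.prod measurableSet_Ioi

theorem tonQ (G : ℝ × ℝ → ℝ≥0∞) (hG : Measurable G) :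
    ∫⁻ z in Q, G z = ∫⁻ r in Ioi (0 : ℝ), ∫⁻ s in Ioi (0 : ℝ), G (r, s) := by
  rw [QU, Measure.volume_eq_prod, ← Measure.prod_restrict]
  exact lintegral_prod _ hG.aemeasurable

end BIA_

open BIA_ in
theorem p_BIA (h1 : T_NIN) (h2 : T_KER) (h3 : T_SPL) (h4 : T_POLN) : T_BIA := by
  intro d m hd hm hAd hAm
  obtain ⟨A1, A2, C, hA1, hA2, hA1', hA2', hN⟩ := h1 d m hd hm hAd hAm
  refine ⟨C, ?_⟩
  intro n a b g hab hg hg2 hinv
  obtain ⟨H, hH, hHn, hHB⟩ := h2 n d m a b g A1 A2 hd hm hab hg hg2 hinv hA1 hA2 hA1' hA2'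
  obtain ⟨-, hS, -, -, hSn⟩ := h3 n d m a b hab
  have hsd := sg_ne hd h4
  have hsm := sg_ne hm h4
  obtain ⟨pd, -, fd⟩ := h4 d hd
  obtain ⟨pm, -, fm⟩ := h4 m hm
  have hsd' : sg d univ ≠ ⊤ := measure_ne_top _ _
  have hsm' : sg m univ ≠ ⊤ := measure_ne_top _ _
  have hHfin : ∫⁻ z in Q, ‖H z.1 z.2‖ₑ ^ 2 ≠ ⊤ := by
    intro htop
    apply hg2
    rw [hHn, htop]
    exact ENNReal.mul_top (mul_ne_zero hsd hsm)
  have hNI := hN H hH hHfin
  have hPm : Measurable (Ph g) := Ph_meas hg hg2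
  obtain ⟨e, he⟩ := unit_vec hd
  obtain ⟨e', he'⟩ := unit_vec hm
  -- the key identity
  have hkey : ∀ (r s : ℝ) (ω : E d) (ω' : E m), 0 < r → 0 < s → ‖ω‖ = 1 → ‖ω'‖ = 1 →
      ENNReal.ofReal (r ^ (d - 1)) * (ENNReal.ofReal (s ^ (m - 1)) *
        Ph g (a (r • ω) + b (s • ω')) ^ 2) = Ps (kk d A1) (kk m A2) H r s ^ 2 := by
    intro r s ω ω' hr hs hω hω'
    have n1 : ‖r • ω‖ = r := by rw [norm_smul, hω, mul_one, Real.norm_of_nonneg hr.le]
    have n2 : ‖s • ω'‖ = s := by rw [norm_smul, hω', mul_one, Real.norm_of_nonneg hs.le]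
    refine key hd hm hr hs ?_ fun R hR => ?_
    · have := hSn (r • ω) (s • ω')
      rw [n1, n2] at this
      rw [← this, Real.sqrt_sq (norm_nonneg _)]
    · have h5 := hHB R (r • ω) (s • ω') hR (by rw [← norm_pos_iff, n1]; exact hr)
        (by rw [← norm_pos_iff, n2]; exact hs)
      rw [n1, n2] at h5
      exact h5
  obtain ⟨G, hG⟩ : ∃ G : ℝ × ℝ → ℝ≥0∞, G = fun z => ENNReal.ofReal (z.1 ^ (d - 1)) *
      (ENNReal.ofReal (z.2 ^ (m - 1)) * Ph g (a (z.1 • e) + b (z.2 • e')) ^ 2) := ⟨_, rfl⟩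
  have hGm : Measurable G := by
    rw [hG]
    have c1 : Continuous fun z : ℝ × ℝ => a (z.1 • e) + b (z.2 • e') := by fun_prop
    have m1 : Measurable fun z : ℝ × ℝ => Ph g (a (z.1 • e) + b (z.2 • e')) ^ 2 :=
      (hPm.comp c1.measurable).pow_const 2
    have m2 : Measurable fun z : ℝ × ℝ => ENNReal.ofReal (z.1 ^ (d - 1)) := by fun_prop
    have m3 : Measurable fun z : ℝ × ℝ => ENNReal.ofReal (z.2 ^ (m - 1)) := by fun_prop
    exact m2.mul (m3.mul m1)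
  have hGQ : ∀ r s : ℝ, 0 < r → 0 < s → G (r, s) = Ps (kk d A1) (kk m A2) H r s ^ 2 := by
    intro r s hr hs
    rw [hG]
    exact hkey r s e e' hr hs he he'
  have hmain : ∫⁻ x, Ph g x ^ 2 = sg d univ * sg m univ * ∫⁻ z in Q, G z := by
    rw [hS (fun x => Ph g x ^ 2) (hPm.pow_const 2)]
    have c2 : Continuous fun q : E d × E m => a q.1 + b q.2 := by fun_prop
    have m4 : Measurable fun q : E d × E m => Ph g (a q.1 + b q.2) ^ 2 :=
      (hPm.comp c2.measurable).pow_const 2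
    have m5 : Measurable fun t : E d => ∫⁻ y : E m, Ph g (a t + b y) ^ 2 :=
      m4.lintegral_prod_right'
    rw [pd _ m5, tonQ G hGm, ← lintegral_const_mul' _ _ (ENNReal.mul_ne_top hsd' hsm')]
    refine setLIntegral_congr_fun measurableSet_Ioi fun r hr => ?_
    have hr' : 0 < r := hr
    have e1 : ∀ ω : Metric.sphere (0 : E d) 1, ENNReal.ofReal (r ^ (d - 1)) *
        ∫⁻ y : E m, Ph g (a (r • (ω : E d)) + b y) ^ 2 =
        sg m univ * ∫⁻ s in Ioi (0 : ℝ), G (r, s) := by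
      intro ω
      have hω : ‖(ω : E d)‖ = 1 := by simp
      have m6 : Measurable fun y : E m => Ph g (a (r • (ω : E d)) + b y) ^ 2 := by
        have c3 : Continuous fun y : E m => a (r • (ω : E d)) + b y := by fun_prop
        exact (hPm.comp c3.measurable).pow_const 2
      rw [pm _ m6, ← lintegral_const_mul' _ _ ENNReal.ofReal_ne_top,
        ← lintegral_const_mul' _ _ hsm']
      refine setLIntegral_congr_fun measurableSet_Ioi fun s hs => ?_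
      have hs' : 0 < s := hs
      rw [← lintegral_const_mul' _ _ ENNReal.ofReal_ne_top]
      have e2 : ∀ ω' : Metric.sphere (0 : E m) 1, ENNReal.ofReal (r ^ (d - 1)) *
          (ENNReal.ofReal (s ^ (m - 1)) * Ph g (a (r • (ω : E d)) + b (s • (ω' : E m))) ^ 2) =
          G (r, s) := by
        intro ω'
        rw [hGQ r s hr' hs']
        exact hkey r s ω ω' hr' hs' hω (by simp)
      simp only [e2]
      rw [lintegral_const, mul_comm]
    rw [lintegral_congr e1, lintegral_const]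
    ring
  have hQ : ∫⁻ z in Q, G z = ∫⁻ z in Q, Ps (kk d A1) (kk m A2) H z.1 z.2 ^ 2 :=
    setLIntegral_congr_fun Q_meas fun z hz => hGQ z.1 z.2 hz.1 hz.2
  calc ∫⁻ x, Ph g x ^ 2 = sg d univ * sg m univ * ∫⁻ z in Q, G z := hmain
    _ ≤ sg d univ * sg m univ * (C * ∫⁻ z in Q, ‖H z.1 z.2‖ₑ ^ 2) := by
        rw [hQ]
        exact mul_le_mul' le_rfl hNI
    _ = C * ∫⁻ ξ, ‖g ξ‖ₑ ^ 2 := by
        rw [hHn]
        ring

end Pool.Agent.BIR
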