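import Pool.Agent.VRR.Targets3
import Pool.Agent.CYL.Targets
import Pool.Agent.CRW.Targets4

set_option autoImplicit false

/-!
# BIR: functions of two radii, all dimensions (MP_ee701d_an)

THEOREM: `ℝⁿ = ℝᵈ ⊕ ℝᵐ` (orthogonal, `d, m ≥ 1`), `f ∈ L²(ℝⁿ)` a function of the two radii `|x'|`, `|x''|` (i.e. invariant under `O(d) × O(m)`):
`∫ sup_{R>0} |S_R f(x)|² / L(R|x|)^12 dx ≤ C(d,m) ∫ |f|²`, `L(t) = log (3 + log (3 + t))`; in particular `S_R f = O((log log R)^6)` a.e.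
Idea: the sphere integrals `u^((d-1)/2) ∫ e^{2πi uω·e} dσ(ω)` are `c₁ e^{2πiu} + c₂ e^{-2πiu} + O(1/(1+u))`; the main terms give disc partial sums in the plane of
`H(ρ,σ) = g(ρ,σ) ρ^((d-1)/2) σ^((m-1)/2)` at the points `(±|x'|, ±|x''|)` (planar theorem), the other ones are bounded without loss (Carleson in one variable,
Hilbert's inequality).

Every target `T_X` is to be proved as `theorem p_X : T_X` (targets named in brackets are hypotheses) in a NEW file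
`Pool/Agent/BIR/P_X.lean` importing this one, namespace `Pool.Agent.BIR`, helper lemmas in the sub-namespace `X_`.
`ex x ξ = e^{2πi x·ξ}`, `e1 u = e^{2πi u}`, `sg n`: surface measure of the unit sphere, `BN g R x = ∫_{|ξ| ≤ R} g(ξ) ex x ξ dξ`, `CRW.L3 = L`.
-/

namespace Pool.Agent.BIR

open MeasureTheory FourierTransform Set Filter Topology
open scoped ENNReal NNReal ComplexConjugate
open Pool.Agent.MBS (E ex S)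
open Pool.Agent.CAR (e1)
open Pool.Agent.CRN (sg SH Nice T_CARLS T_POLN T_HELN T_RAYN)
open Pool.Agent.CYL (Spl T_SPL T_GEO)
open Pool.Agent.CRW (L3 T_GRW T_GS1)
open Pool.Agent.VRR (BN)

/-- the Fourier transform of the surface measure of the unit sphere of `ℝᵈ` -/
noncomputable def AA (d : ℕ) (x : E d) : ℂ := ∫ ω, ex x (ω : E d) ∂(sg d)

/-- the open quadrant -/
def Q : Set (ℝ × ℝ) := {z : ℝ × ℝ | 0 < z.1 ∧ 0 < z.2}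

/-- the quarter disc -/
def QD (R : ℝ) : Set (ℝ × ℝ) := {z : ℝ × ℝ | 0 < z.1 ∧ 0 < z.2 ∧ z.1 ^ 2 + z.2 ^ 2 ≤ R ^ 2}

/-- `∫_{ρ,σ>0, ρ²+σ² ≤ R²} H(ρ,σ) k1(ρr) k2(σs) dρ dσ` -/
noncomputable def JJ (k1 k2 : ℝ → ℂ) (H : ℝ → ℝ → ℂ) (R r s : ℝ) : ℂ :=
  ∫ z in QD R, H z.1 z.2 * k1 (z.1 * r) * k2 (z.2 * s)

/-- the function `u^((d-1)/2) A(u)` -/
noncomputable def kk (d : ℕ) (A : ℝ → ℂ) (u : ℝ) : ℂ := ((u ^ (((d : ℝ) - 1) / 2) : ℝ) : ℂ) * A u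

/-- the asymptotics of `AA d` -/
def Asy (d : ℕ) : Prop := ∃ (A b : ℝ → ℂ) (c1 c2 : ℂ) (C : ℝ), Continuous A ∧ Continuous b ∧
  (∀ x : E d, AA d x = A ‖x‖) ∧
  ∀ u : ℝ, 0 < u → kk d A u = c1 * e1 u + c2 * e1 (-u) + b u ∧ ‖b u‖ ≤ C / (1 + u)

/-- **PGF** (45 min): the planar theorem for all `g ∈ L²` on the Fourier side. `f_k` Schwartz (hence Nice), `𝓕 f_k → g` in `L²` (see `GRO/P_GLC.lean`, `CRF/P_RMG.lean`),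
`S f_k R = BN (𝓕 f_k) R → BN g R` pointwise (Cauchy-Schwarz on the disc), Fatou as in `VRR/P_LIN.lean`. -/
def T_PGF : Prop := T_GRW → T_GS1 → ∃ C : ℝ≥0, ∀ g : E 2 → ℂ, Measurable g →
  ∫⁻ ξ, ‖g ξ‖ₑ ^ 2 ≠ ⊤ →
    ∫⁻ x, (⨆ (R : ℝ) (_ : 0 < R), ‖BN g R x‖ₑ / ENNReal.ofReal (L3 (R * ‖x‖) ^ 6)) ^ 2 ≤
      C * ∫⁻ ξ, ‖g ξ‖ₑ ^ 2

/-- **RAD** (30 min): `AA d` is radial and continuous: the surface measure is invariant under linear isometries (`sg d = volume.toSphere`, the volume is invariant); `x`, `y` with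
`‖x‖ = ‖y‖` are exchanged by a reflection. `A u = AA d (u • e)`, `e` a unit vector. -/
def T_RAD : Prop := ∀ d : ℕ, 1 ≤ d → ∃ A : ℝ → ℂ, Continuous A ∧ (∀ u, A (-u) = A u) ∧
  ∀ x : E d, AA d x = A ‖x‖

/-- **AS1** (45 min; uses RAD, POLN): `d = 1`. The sphere of `E 1` is `{1, -1}`, both points have mass `1` (POLN for the indicator of `(0,1]`, resp. `[-1,0)`), so
`AA 1 x = e1 ‖x‖ + e1 (-‖x‖)`, `b = 0`. -/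
def T_AS1 : Prop := Asy 1

/-- **ODE** (45 min): `E = |w'|² + 4π²|w|²` satisfies `|E'| ≤ |κ| u⁻² E` on `[1,∞)`, so `E` is bounded (Grönwall, or `E exp(|κ|/u)` is decreasing... `E e^{±|κ|/u}` monotone).
`B_±(u) = e1(∓u)(w' ± 2πi w)/(4πi)`, `B_±' = e1(∓u)(w'' + 4π² w)/(4πi) = O(u⁻²)`, so `B_±` have limits and `|B_±(u) - B_±(∞)| ≤ C/u`; `w = e1(u) B_+ - e1(-u) B_-`. -/
def T_ODE : Prop := ∀ (κ : ℝ) (w w' : ℝ → ℂ), (∀ u : ℝ, 1 ≤ u → HasDerivAt w (w' u) u ∧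
    HasDerivAt w' (-(4 * Real.pi ^ 2 * w u) + ((κ / u ^ 2 : ℝ) : ℂ) * w u) u) →
  ∃ (c1 c2 : ℂ) (C : ℝ), ∀ u : ℝ, 1 ≤ u → ‖w u - (c1 * e1 u + c2 * e1 (-u))‖ ≤ C / u

/-- **AS2** (60 min; uses RAD, HELN, ODE): `d ≥ 2`. HELN with `h = 1`, `R = 1`, `θ = e`: `SH 1 1 (s • e) = AA d (s • e) = A s`, `Lam (SH 1 1) = 0` (it is constant on rotation orbits), so
`w = kk d A` satisfies the hypothesis of ODE with `κ = (d-1)(d-3)/4`. `b = kk d A - c1 e1 - c2 e1(-·)` (continuous: `(d-1)/2 > 0`); for `u ≤ 1` everything is bounded. -/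
def T_AS2 : Prop := ∀ d : ℕ, 2 ≤ d → Asy d

/-- **KER** (75 min; uses SPL, POLN). Unit vectors `e`, `e'`; `H ρ σ = g(ρ a e + σ b e') ρ^((d-1)/2) σ^((m-1)/2)`. `∫ |g|²`: SPL and POLN twice. `BN g R (a t + b y)`: `g` is integrable on the
ball; SPL (for the indicator of the ball times `g ex`), POLN in both factors (Fubini), `∫_ω ex t (ρω) dσ = AA d (ρ t) = A1 (ρ‖t‖)`;
`r^((d-1)/2) ρ^(d-1) A1(ρr) = ρ^((d-1)/2) kk d A1 (ρr)`. -/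
def T_KER : Prop := ∀ (n d m : ℕ) (a : E d →ₗᵢ[ℝ] E n) (b : E m →ₗᵢ[ℝ] E n) (g : E n → ℂ)
  (A1 A2 : ℝ → ℂ), 1 ≤ d → 1 ≤ m → Spl a b → Measurable g → ∫⁻ ξ, ‖g ξ‖ₑ ^ 2 ≠ ⊤ →
  (∀ (τ τ' : E d) (η η' : E m), ‖τ‖ = ‖τ'‖ → ‖η‖ = ‖η'‖ → g (a τ + b η) = g (a τ' + b η')) →
  Continuous A1 → Continuous A2 → (∀ x : E d, AA d x = A1 ‖x‖) → (∀ x : E m, AA m x = A2 ‖x‖) →
  ∃ H : ℝ → ℝ → ℂ, Measurable (fun z : ℝ × ℝ => H z.1 z.2) ∧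
    ∫⁻ ξ, ‖g ξ‖ₑ ^ 2 = sg d univ * sg m univ * ∫⁻ z in Q, ‖H z.1 z.2‖ₑ ^ 2 ∧
    ∀ (R : ℝ) (t : E d) (y : E m), 0 < R → t ≠ 0 → y ≠ 0 →
      ((‖t‖ ^ (((d : ℝ) - 1) / 2) : ℝ) : ℂ) * ((‖y‖ ^ (((m : ℝ) - 1) / 2) : ℝ) : ℂ) *
        BN g R (a t + b y) = JJ (kk d A1) (kk m A2) H R ‖t‖ ‖y‖

/-- **HIL** (45 min): Hilbert's inequality by Schur's test: `∫_0^∞ u^(-1/2)/(1+u) du = π`,
`(∫ K h)² ≤ (∫ K ρ^(-1/2) dρ) (∫ K ρ^(1/2) h² dρ) = π r^(-1/2) ∫ K ρ^(1/2) h²`, `K = 1/(1+ρr)`. Any constant will do (`∫_0^1 u^(-1/2) + ∫_1^∞ u^(-3/2) = 4`). -/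
def T_HIL : Prop := ∀ h : ℝ → ℝ≥0∞, Measurable h →
  ∫⁻ r in Ioi (0 : ℝ), (∫⁻ ρ in Ioi (0 : ℝ), ENNReal.ofReal (1 / (1 + ρ * r)) * h ρ) ^ 2 ≤
    16 * ∫⁻ ρ in Ioi (0 : ℝ), h ρ ^ 2

/-- **PPL** (60 min; uses PGF). `g ξ = H(ξ 0, ξ 1)` for `ξ 0, ξ 1 > 0`, else `0` (measurable; `∫ |g|² = ∫_Q |H|²`); `JJ (e1(ε ·)) (e1(ε' ·)) H R r s = BN g R !₂[ε r, ε' s]`
(`E 2 ≃ ℝ × ℝ`), whose norm is `√(r²+s²)`. If `∫_Q |H|² = ∞` the right side is `∞` (take `C ≥ 1`). -/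
def T_PPL : Prop := ∃ C : ℝ≥0, ∀ (H : ℝ → ℝ → ℂ) (ε ε' : ℝ),
  Measurable (fun z : ℝ × ℝ => H z.1 z.2) → (ε = 1 ∨ ε = -1) → (ε' = 1 ∨ ε' = -1) →
    ∫⁻ z in Q, (⨆ (R : ℝ) (_ : 0 < R), ‖JJ (fun u => e1 (ε * u)) (fun u => e1 (ε' * u)) H R z.1 z.2‖ₑ /
      ENNReal.ofReal (L3 (R * Real.sqrt (z.1 ^ 2 + z.2 ^ 2)) ^ 6)) ^ 2 ≤
    C * ∫⁻ z in Q, ‖H z.1 z.2‖ₑ ^ 2

/-- **PMX** (75 min; uses HIL, RAYN): the mixed terms. If `∫_Q |H|² < ∞`: for almost every `ρ` `H(ρ,·)` is in `L²`. First: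
`|JJ k e1(ε·)| ≤ ∫_ρ (1+ρr)⁻¹ M(ρ,s) dρ`, `M(ρ,s) = sup_V |∫_{0<σ≤V} H(ρ,σ) e1(εσs) dσ|` (`V = √(R²-ρ²)`), HIL in `r` for fixed `s`, then RAYN for fixed `ρ`
(Tonelli; `M` is measurable: rational `V`). Second: by symmetry. Third: HIL twice. -/
def T_PMX : Prop := T_CARLS → ∃ C : ℝ≥0, ∀ (H : ℝ → ℝ → ℂ) (k l : ℝ → ℂ) (ε : ℝ),
  Measurable (fun z : ℝ × ℝ => H z.1 z.2) → Continuous k → Continuous l →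
  (∀ u, 0 < u → ‖k u‖ ≤ 1 / (1 + u)) → (∀ u, 0 < u → ‖l u‖ ≤ 1 / (1 + u)) →
  (ε = 1 ∨ ε = -1) →
    ∫⁻ z in Q, (⨆ (R : ℝ) (_ : 0 < R), ‖JJ k (fun u => e1 (ε * u)) H R z.1 z.2‖ₑ) ^ 2 ≤
      C * ∫⁻ z in Q, ‖H z.1 z.2‖ₑ ^ 2 ∧
    ∫⁻ z in Q, (⨆ (R : ℝ) (_ : 0 < R), ‖JJ (fun u => e1 (ε * u)) k H R z.1 z.2‖ₑ) ^ 2 ≤
      C * ∫⁻ z in Q, ‖H z.1 z.2‖ₑ ^ 2 ∧
    ∫⁻ z in Q, (⨆ (R : ℝ) (_ : 0 < R), ‖JJ k l H R z.1 z.2‖ₑ) ^ 2 ≤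
      C * ∫⁻ z in Q, ‖H z.1 z.2‖ₑ ^ 2

/-- **NIN** (75 min; uses PPL, PMX, HIL only through them): the nine terms. `kk d A1 = c1 e1 + c2 e1(-·) + b` on `(0,∞)` etc.; `JJ` is linear in both kernels (`H` is integrable on `QD R`, the kernels
are bounded); `L3 ≥ 1`; `(x_1 + ... + x_9)² ≤ 9 ∑ x_i²`. -/
def T_NIN : Prop := ∀ d m : ℕ, 1 ≤ d → 1 ≤ m → Asy d → Asy m → ∃ (A1 A2 : ℝ → ℂ) (C : ℝ≥0),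
  Continuous A1 ∧ Continuous A2 ∧ (∀ x : E d, AA d x = A1 ‖x‖) ∧ (∀ x : E m, AA m x = A2 ‖x‖) ∧
  ∀ H : ℝ → ℝ → ℂ, Measurable (fun z : ℝ × ℝ => H z.1 z.2) → ∫⁻ z in Q, ‖H z.1 z.2‖ₑ ^ 2 ≠ ⊤ →
    ∫⁻ z in Q, (⨆ (R : ℝ) (_ : 0 < R), ‖JJ (kk d A1) (kk m A2) H R z.1 z.2‖ₑ /
      ENNReal.ofReal (L3 (R * Real.sqrt (z.1 ^ 2 + z.2 ^ 2)) ^ 6)) ^ 2 ≤
    C * ∫⁻ z in Q, ‖H z.1 z.2‖ₑ ^ 2

/-- **BIA** (75 min; uses NIN, KER, SPL, POLN): `∫ Φ(x)² dx = ∫_t ∫_y Φ(a t + b y)²` (SPL), KER: `‖t‖^((d-1)/2) ‖y‖^((m-1)/2) Φ(a t + b y) = Ψ(‖t‖, ‖y‖)`, `Ψ` the supremum in NIN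
(`‖a t + b y‖² = ‖t‖² + ‖y‖²`); POLN twice: `= σ_d σ_m ∫_Q Ψ²`. (`t = 0`, `y = 0` are null sets. Measurability of `Ψ` on `Q`: `JJ` is continuous in `(r,s)`, so the supremum is lower
semicontinuous on `Q`.) -/
def T_BIA : Prop := ∀ d m : ℕ, 1 ≤ d → 1 ≤ m → Asy d → Asy m → ∃ C : ℝ≥0, ∀ (n : ℕ)
  (a : E d →ₗᵢ[ℝ] E n) (b : E m →ₗᵢ[ℝ] E n) (g : E n → ℂ), Spl a b → Measurable g →
  ∫⁻ ξ, ‖g ξ‖ₑ ^ 2 ≠ ⊤ →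
  (∀ (τ τ' : E d) (η η' : E m), ‖τ‖ = ‖τ'‖ → ‖η‖ = ‖η'‖ → g (a τ + b η) = g (a τ' + b η')) →
    ∫⁻ x, (⨆ (R : ℝ) (_ : 0 < R), ‖BN g R x‖ₑ / ENNReal.ofReal (L3 (R * ‖x‖) ^ 6)) ^ 2 ≤
      C * ∫⁻ ξ, ‖g ξ‖ₑ ^ 2

/-- **BIF** (45 min; uses BIA, GEO): the final theorem. GEO gives `a`, `b` with range `b = W`; `dim Wᗮ = d ≥ 1`, `dim W = m ≥ 1` as `W ≠ ⊤`, `W ≠ ⊥`; the distance of `a t + b y` from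
`W` is `‖t‖`, from `Wᗮ` it is `‖y‖` (orthogonal decomposition, `b y ∈ W`). `C` = the maximum over `d, m ≤ n`. -/
def T_BIF : Prop := (∀ d : ℕ, 1 ≤ d → Asy d) → ∀ n : ℕ, ∃ C : ℝ≥0, ∀ (W : Submodule ℝ (E n))
  (g : E n → ℂ), W ≠ ⊥ → W ≠ ⊤ → Measurable g → ∫⁻ ξ, ‖g ξ‖ₑ ^ 2 ≠ ⊤ →
  (∀ ξ η : E n, Metric.infDist ξ (W : Set (E n)) = Metric.infDist η (W : Set (E n)) →
    Metric.infDist ξ (Wᗮ : Set (E n)) = Metric.infDist η (Wᗮ : Set (E n)) → g ξ = g η) →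
    ∫⁻ x, (⨆ (R : ℝ) (_ : 0 < R), ‖BN g R x‖ₑ / ENNReal.ofReal (L3 (R * ‖x‖) ^ 6)) ^ 2 ≤
      C * ∫⁻ ξ, ‖g ξ‖ₑ ^ 2

end Pool.Agent.BIR
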