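import Pool.Agent.BIR.Targets

set_option autoImplicit false

/-!
# BIR, second part: axially symmetric functions (MP_ee701d_an)

`ℝⁿ = ℝ v ⊕ v^⊥`, `g(ξ)` a function of `ξ·v ∈ ℝ` (not necessarily even) and of the distance of `ξ` from the axis. Same conclusion.
-/

namespace Pool.Agent.BIR

open MeasureTheory FourierTransform Set Filter Topology
open scoped ENNReal NNReal ComplexConjugate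
open Pool.Agent.MBS (E ex S)
open Pool.Agent.CAR (e1)
open Pool.Agent.CRN (sg SH Nice T_CARLS T_POLN)
open Pool.Agent.CYL (Spl T_SPL T_GEO)
open Pool.Agent.CRW (L3)
open Pool.Agent.VRR (BN)

/-- **NI1** (60 min; uses PPL, PMX): three terms, see NIN. -/
def T_NI1 : Prop := ∀ m : ℕ, 1 ≤ m → Asy m → ∃ (A2 : ℝ → ℂ) (C : ℝ≥0),
  Continuous A2 ∧ (∀ x : E m, AA m x = A2 ‖x‖) ∧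
  ∀ (H : ℝ → ℝ → ℂ) (ε : ℝ), Measurable (fun z : ℝ × ℝ => H z.1 z.2) →
    ∫⁻ z in Q, ‖H z.1 z.2‖ₑ ^ 2 ≠ ⊤ → (ε = 1 ∨ ε = -1) →
    ∫⁻ z in Q, (⨆ (R : ℝ) (_ : 0 < R), ‖JJ (fun u => e1 (ε * u)) (kk m A2) H R z.1 z.2‖ₑ /
      ENNReal.ofReal (L3 (R * Real.sqrt (z.1 ^ 2 + z.2 ^ 2)) ^ 6)) ^ 2 ≤
    C * ∫⁻ z in Q, ‖H z.1 z.2‖ₑ ^ 2

/-- **KE1** (75 min; uses SPL, POLN), see KER: `H1 ρ σ = g(ρ a 1 + σ b e') σ^((m-1)/2)`, `H2 ρ σ = g(-ρ a 1 + σ b e') σ^((m-1)/2)` (`E 1 ≃ ℝ`, the integral over `τ ∈ ℝ` is the sum of the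
integrals over `τ > 0` and `τ < 0`). -/
def T_KE1 : Prop := ∀ (n m : ℕ) (a : E 1 →ₗᵢ[ℝ] E n) (b : E m →ₗᵢ[ℝ] E n) (g : E n → ℂ)
  (A2 : ℝ → ℂ), 1 ≤ m → Spl a b → Measurable g → ∫⁻ ξ, ‖g ξ‖ₑ ^ 2 ≠ ⊤ →
  (∀ (τ : E 1) (η η' : E m), ‖η‖ = ‖η'‖ → g (a τ + b η) = g (a τ + b η')) →
  Continuous A2 → (∀ x : E m, AA m x = A2 ‖x‖) →
  ∃ H1 H2 : ℝ → ℝ → ℂ, Measurable (fun z : ℝ × ℝ => H1 z.1 z.2) ∧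
    Measurable (fun z : ℝ × ℝ => H2 z.1 z.2) ∧
    ∫⁻ ξ, ‖g ξ‖ₑ ^ 2 = sg m univ * ((∫⁻ z in Q, ‖H1 z.1 z.2‖ₑ ^ 2) + (∫⁻ z in Q, ‖H2 z.1 z.2‖ₑ ^ 2)) ∧
    ∀ (R r δ : ℝ) (t : E 1) (y : E m), 0 < R → 0 < r → (δ = 1 ∨ δ = -1) → t 0 = δ * r → y ≠ 0 →
      ((‖y‖ ^ (((m : ℝ) - 1) / 2) : ℝ) : ℂ) * BN g R (a t + b y) =
        JJ (fun u => e1 (δ * u)) (kk m A2) H1 R r ‖y‖ +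
        JJ (fun u => e1 (-δ * u)) (kk m A2) H2 R r ‖y‖

/-- **BI1** (75 min; uses NI1, KE1, SPL, POLN), see BIA. -/
def T_BI1 : Prop := ∀ m : ℕ, 1 ≤ m → Asy m → ∃ C : ℝ≥0, ∀ (n : ℕ)
  (a : E 1 →ₗᵢ[ℝ] E n) (b : E m →ₗᵢ[ℝ] E n) (g : E n → ℂ), Spl a b → Measurable g →
  ∫⁻ ξ, ‖g ξ‖ₑ ^ 2 ≠ ⊤ →
  (∀ (τ : E 1) (η η' : E m), ‖η‖ = ‖η'‖ → g (a τ + b η) = g (a τ + b η')) →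
    ∫⁻ x, (⨆ (R : ℝ) (_ : 0 < R), ‖BN g R x‖ₑ / ENNReal.ofReal (L3 (R * ‖x‖) ^ 6)) ^ 2 ≤
      C * ∫⁻ ξ, ‖g ξ‖ₑ ^ 2

/-- **BF1** (45 min; uses BI1): `a τ = τ 0 • v`, `b` = an orthonormal basis of `v^⊥` (dimension `m = n - 1 ≥ 1`): `Spl a b`. `⟨v, a τ + b η⟩ = τ 0`, `‖a τ + b η‖² = ‖τ‖² + ‖η‖²`. -/
def T_BF1 : Prop := (∀ d : ℕ, 1 ≤ d → Asy d) → ∀ n : ℕ, 2 ≤ n → ∃ C : ℝ≥0, ∀ (v : E n)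
  (g : E n → ℂ), ‖v‖ = 1 → Measurable g → ∫⁻ ξ, ‖g ξ‖ₑ ^ 2 ≠ ⊤ →
  (∀ ξ η : E n, (inner ℝ v ξ : ℝ) = inner ℝ v η → ‖ξ‖ = ‖η‖ → g ξ = g η) →
    ∫⁻ x, (⨆ (R : ℝ) (_ : 0 < R), ‖BN g R x‖ₑ / ENNReal.ofReal (L3 (R * ‖x‖) ^ 6)) ^ 2 ≤
      C * ∫⁻ ξ, ‖g ξ‖ₑ ^ 2

end Pool.Agent.BIR
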