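import Pool.Agent.BIR.Targets
import Pool.Agent.GRO.Targets

set_option autoImplicit false

/-!
# BIR, third part: convergence for every `g ∈ L²(ℝ²)` along long intervals of radii (MP_ee701d_an)

THEOREM: for every `g ∈ L²(ℝ²)` there are intervals `[u_k, v_k]`, `u_k → ∞`, `v_k/u_k → ∞`, such that the disc partial sums `S_R` converge a.e. as `R → ∞` in the union of the
intervals (a set of upper density `1`).
-/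

namespace Pool.Agent.BIR

open MeasureTheory FourierTransform Set Filter Topology
open scoped ENNReal NNReal ComplexConjugate
open Pool.Agent.MBS (E ex S)
open Pool.Agent.CRW (L3)
open Pool.Agent.VRR (BN T_CVG)

/-- **DE1** (45 min; uses `GRO.T_GSS` with `a = 12`, `D = {e}`). `h = 1_{u < |ξ| ≤ v} g`: for `u ≤ R ≤ v` `BN g R x - BN g u x = BN h R x`, and `L3 R ≤ L3 v`. -/
def T_DE1 : Prop := ∃ C : ℝ≥0, ∀ (g : E 2 → ℂ) (x0 : E 2) (u v : ℝ), Measurable g →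
  ∫⁻ ξ, ‖g ξ‖ₑ ^ 2 ≠ ⊤ → 0 < u → u ≤ v →
    ∫⁻ x in Metric.closedBall x0 1, (⨆ (R : ℝ) (_ : R ∈ Icc u v), ‖BN g R x - BN g u x‖ₑ) ^ 2 ≤
      C * ENNReal.ofReal (L3 v ^ 12) * ∫⁻ ξ in {ξ : E 2 | u < ‖ξ‖ ∧ ‖ξ‖ ≤ v}, ‖g ξ‖ₑ ^ 2

/-- **DE2** (45 min): selection. For all `ε > 0` and `N` there is `i ≥ N` with `L3(2^((i+1)²))^12 m_i + t_i ≤ ε`: otherwise `m_i ≥ (ε/2) L3(2^((i+1)²))^(-12)` for all large `i`, but
`L3(2^((i+1)²))^12 ≤ C (i+1)`, so `∑ m_i = ∞`. Choose `κ k` for `ε = 2^(-k)`. -/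
def T_DE2 : Prop := ∀ m t : ℕ → ℝ≥0∞, ∑' i, m i ≠ ⊤ → Tendsto t atTop (𝓝 0) →
  ∃ κ : ℕ → ℕ, StrictMono κ ∧
    ∑' k, (ENNReal.ofReal (L3 (2 ^ ((κ k + 1) ^ 2)) ^ 12) * m (κ k) + t (κ k)) ≠ ⊤

/-- **DE3** (75 min; uses DE1, DE2): `w_i = 2^(i²)`, `m_i = ∫_{w_i < |ξ| ≤ w_(i+1)} |g|²` (`∑ m_i ≤ ∫ |g|²`), `F` = the `L²` limit of `BN g R` (Plancherel; see `VRR/P_CVG.lean`,
`VRC/P_ABC.lean`), `t_i = ∫ |BN g w_i - F|²`. `u_k = w_(κ k)`, `v_k = w_(κ k + 1)`. On every unit ball `∑_k (sup_{R ∈ [u_k,v_k]} |BN g R - BN g u_k|² + |BN g u_k - F|²)` has a finite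
integral, so it is finite a.e. and its terms tend to `0`; `R → ∞` in the union forces `k → ∞` (every interval is bounded). -/
def T_DE3 : Prop := ∀ g : E 2 → ℂ, Measurable g → ∫⁻ ξ, ‖g ξ‖ₑ ^ 2 ≠ ⊤ →
  ∃ (u v : ℕ → ℝ) (F : E 2 → ℂ), (∀ k, 0 < u k ∧ u k ≤ v k) ∧ Tendsto u atTop atTop ∧
    Tendsto (fun k => v k / u k) atTop atTop ∧ MemLp F 2 ∧
    Tendsto (fun R : ℝ => ∫⁻ x, ‖BN g R x - F x‖ₑ ^ 2) atTop (𝓝 0) ∧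
    ∀ᵐ x, Tendsto (fun R : ℝ => BN g R x) (atTop ⊓ 𝓟 (⋃ k, Icc (u k) (v k))) (𝓝 (F x))

end Pool.Agent.BIR
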