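import Pool.Agent.BIR.Targets3

set_option autoImplicit false

/-!
# BIR, fourth part: the bad dyadic blocks of radii are sparse, every `g ∈ L²(ℝ²)` (MP_ee701d_an)

THEOREM: if `0 ≤ a ≤ 11` and `∫ |g|² L(d)^(11-a) < ∞` (`a = 11`: every `g ∈ L²(ℝ²)`), then for a.e. `x` and all `ε > 0` the sum of `L(2^j)^(-a)` over the `j` such that
`|S_R(x) - F(x)| > ε` for some `R ∈ [2^j, 2^(j+1)]` is finite.
-/

namespace Pool.Agent.BIR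

open MeasureTheory FourierTransform Set Filter Topology
open scoped ENNReal NNReal ComplexConjugate
open Pool.Agent.MBS (E ex S)
open Pool.Agent.CRF (dl)
open Pool.Agent.VRR (BN)

/-- the shell `2^j < |ξ| ≤ 2^(j+1)` -/
def Sj (j : ℕ) : Set (E 2) := {ξ : E 2 | (2 : ℝ) ^ j < ‖ξ‖ ∧ ‖ξ‖ ≤ 2 ^ (j + 1)}

/-- the oscillation over the block `[2^j, 2^(j+1)]` -/
noncomputable def Os (g : E 2 → ℂ) (j : ℕ) (x : E 2) : ℝ≥0∞ :=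
  ⨆ (R : ℝ) (_ : R ∈ Icc ((2 : ℝ) ^ j) (2 ^ (j + 1))), ‖BN g R x - BN g (2 ^ j) x‖ₑ

/-- **SB1** (45 min; from `GRO.T_GSW`; template: the landed `BIR/P_DE1.lean`, whose lemmas `DE1_.BN_sub`, `DE1_.L3_mono` may be imported). `h = 1_{Sj j} g`. For `R ∈ [2^j, 2^(j+1)]`
`BN g R x - BN g (2^j) x = BN h R x`, so `Os g j x ≤ w (a/2) (2^(j+1)) * Ma a h x`; GSW for `h` with `l / w (a/2) (2^(j+1))` (`1 ≤ w < ∞`);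
`w (a/2) (2^(j+1))^2 = ofReal (LL (2^(j+1))^a) ≤ 2^11 w a (2^j)`, since `LL (2 t) ≤ 2 LL t` for `t ≥ 0` and `LL t ≥ 1`, `0 ≤ a ≤ 11`. -/
def T_SB1 : Prop := ∀ (D : Finset (E 2)) (h : D.Nonempty), (∀ e ∈ D, ‖e‖ = 1) → ∃ C : ℝ≥0,
  ∀ (a : ℝ) (g : E 2 → ℂ) (x0 : E 2) (j : ℕ) (l : ℝ≥0∞), 0 ≤ a → a ≤ 11 → Measurable g →
    ∫⁻ ξ, ‖g ξ‖ₑ ^ 2 ≠ ⊤ →
    l ^ 2 * volume {x ∈ Metric.closedBall x0 1 | l < Os g j x} ≤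
      C * Pool.Agent.GRO.w a (2 ^ j) *
        ∫⁻ ξ in Sj j, ‖g ξ‖ₑ ^ 2 * Pool.Agent.GRO.w (11 - a) (D.inf' h (fun e => dl e ξ))

/-- **SLC** (45 min; from `GRO.T_DS2`): the lacunary radii `2^k`; edit of the landed `GRO/P_GLC.lean` (`2^k` in place of `rr k`; only `2 * rr k ≤ rr (k+1)`, `0 < rr k` and monotonicity
are used there; the separation lemma becomes `2^k + (1/2) 2^l ≤ 2^l` for `k < l`). -/
def T_SLC : Prop := ∃ C : ℝ≥0, ∀ g : E 2 → ℂ, Measurable g →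
  ∫⁻ x, (⨆ k : ℕ, ‖BN g (2 ^ k) x‖ₑ) ^ 2 ≤ C * ∫⁻ ξ, ‖g ξ‖ₑ ^ 2

/-- **SB2** (60 min; from SLC; see `VRR/P_CVG.lean`): `g_n = 1_{|ξ| > 2^n} g`; for `k ≥ n` `BN g (2^k) = BN g (2^n) + BN g_n (2^k)`, so the oscillation of `BN g (2^k) x`, `k ≥ n`, is at most
`2 sup_k |BN g_n (2^k) x|`, whose `L²` norm tends to `0`: the sequence converges a.e.; the limit is `F` (a subsequence of an `L²` convergent sequence). -/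
def T_SB2 : Prop := ∀ g F : E 2 → ℂ, Measurable g → ∫⁻ ξ, ‖g ξ‖ₑ ^ 2 ≠ ⊤ → MemLp F 2 →
  Tendsto (fun R : ℝ => ∫⁻ x, ‖BN g R x - F x‖ₑ ^ 2) atTop (𝓝 0) →
    ∀ᵐ x, Tendsto (fun k : ℕ => BN g (2 ^ k) x) atTop (𝓝 (F x))

/-- **SB3** (75 min; from SB1, SB2; measurability of `Os g j`: `DE3_.sup_meas` of `BIR/P_DE3.lean`; covering by discs: `CRF.FAE_.ae_of_discs`). The weight is `≥ 1`, so `g ∈ L²`. Fix a disc `B` and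
`ε = 1/(m+1)` (countably many suffice: the sum increases when `ε` decreases). `∫_B Σ_j w a (2^j)⁻¹ 1_{Os g j > ε/2} ≤ Σ_j C (ε/2)^(-2) ∫_{Sj j} |g|² w < ∞` (disjoint shells), so for a.e.
`x ∈ B` `Σ_j w a (2^j)⁻¹ 1_{Os g j x > ε/2} < ∞`. By SB2 `|BN g (2^j) x - F x| ≤ ε/2` for `j ≥ j_0(x)`; if `j ≥ j_0` is in the index set of the sum, then `Os g j x > ε/2`; the
other `j_0` terms are `≤ 1`. -/
def T_SB3 : Prop := ∀ (a : ℝ) (D : Finset (E 2)) (h : D.Nonempty) (g F : E 2 → ℂ), 0 ≤ a → a ≤ 11 →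
  (∀ e ∈ D, ‖e‖ = 1) → Measurable g →
  ∫⁻ ξ, ‖g ξ‖ₑ ^ 2 * Pool.Agent.GRO.w (11 - a) (D.inf' h (fun e => dl e ξ)) ≠ ⊤ → MemLp F 2 →
  Tendsto (fun R : ℝ => ∫⁻ x, ‖BN g R x - F x‖ₑ ^ 2) atTop (𝓝 0) →
    ∀ᵐ x, ∀ ε : ℝ, 0 < ε →
      ∑' j : {j : ℕ // ∃ R : ℝ, 2 ^ j ≤ R ∧ R ≤ 2 ^ (j + 1) ∧ ε < ‖BN g R x - F x‖},
        (Pool.Agent.GRO.w a (2 ^ (j : ℕ)))⁻¹ ≠ ⊤

end Pool.Agent.BIR
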